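import Pool.Agent.H28.LF.Defs

/-!
Project LF: targets for section 5 of `H28_LF.md` (the switching lemma).
-/

set_option autoImplicit false

open MeasureTheory ProbabilityTheory Filter Topology Finset
open scoped Nat ENNReal

namespace Pool.Agent.H28.LF

open Pool.Agent.H24.T2 (Pset)
open Pool.Agent.H67.AG (avgP ul Inv Rt Av SA kap JJ TT InvZ nxt triv tow XN PN TN XX PX TX prX Fac)

/-- X1: the bad words are asymptotically invariant in mean square (as `T_S1`). -/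
def T_X1 : Prop := ∀ (d : Sx) (ε : ℝ) (L₀ : ℕ), 0 < ε → ∃ L : ℕ, L₀ ≤ L ∧ 0 < L ∧
  ∀ L'' : ℕ, L ≤ L'' → ∀ j : Fin (30 * d.K + d.K) → Fin d.n,
    ul d.U (fun m => avgP 2 m fun p => d.s p *
      ∫ ω, (Av d.T' 1 L (d.FF p j) ω - Av d.T' 1 L'' (d.FF p j) ω) ^ 2 ∂d.P') ≤ ε

/-- X2: the frequency of the bad words for the shifted selection (as `T_S2`). -/
def T_X2 : Prop := ∀ (d : Sx) (e : SxE d) (L t : ℕ) (A : Set e.Ω), 0 < L →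
  MeasurableSet[Inv e.T 1] A →
  La d.U d.s e.P e.T (e.yt t) d.Bad A ≤ La d.U d.s e.P e.T e.ys d.Bad A +
    2 * (31 * (d.K : ℝ)) / (L : ℝ) * ∑ l ∈ range L, ∫ ω in A, e.mv l ω ∂e.P + e.E2 L A

/-- X3: the first moment. -/
def T_X3 : Prop := ∀ (d : Sx) (e : SxE d) (L t : ℕ) (A : Set e.Ω), 0 < L →
  MeasurableSet[Inv e.T 1] A →
  d.m₀ * ∫ ω in A, e.Pt t ω ∂e.P ≤ ∫ ω in A, dm e.ys (e.yt t) ω ∂e.P + e.E4 L A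

/-- X4: the second moment (from `T_PIA` for `Pt t`). -/
def T_X4 : Prop := ∀ ε : ℝ, 0 < ε → ∃ w₀ : ℕ, ∀ w, w₀ ≤ w →
  ∀ (d : Sx) (e : SxE d) (t k N : ℕ) (A : Set e.Ω), MeasurableSet[Inv e.T 1] A → 0 < k →
    w ! * k ≤ N →
    Cd d.U e.P e.T (dm e.ys (e.yt t)) A k ≤
      ∫ ω in A, ((e.P[e.Pt t | Inv e.T 1]) ω) ^ 2 ∂e.P +
      4 * ∑ r ∈ range N, ∫ ω in A, e.mv r ω ∂e.P + ε * e.P.real A

/-- X5: a path with small steps crosses the threshold slowly (abstract form). -/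
def T_X5 : Prop := ∀ (Ω : Type) (m : MeasurableSpace Ω) [mΩ : MeasurableSpace Ω] (P : Measure Ω)
  [IsProbabilityMeasure P] (M : ℕ → Ω → ℝ) (s₀ : Ω → ℝ) (E : Set Ω → ℝ) (ps c : ℝ), m ≤ mΩ →
  0 < ps → 0 < c → (∀ t, Measurable[m] (M t)) → Measurable[m] s₀ → (∀ᵐ ω ∂P, M 0 ω = 0) →
  (∀ t, ∀ᵐ ω ∂P, |M (t + 1) ω - M t ω| ≤ s₀ ω) →
  (∀ B, MeasurableSet[m] B → 0 ≤ E B) →
  (∀ B B', MeasurableSet[m] B → MeasurableSet[m] B' → Disjoint B B' → E (B ∪ B') = E B + E B') →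
  (∀ t B, MeasurableSet[m] B → (∀ᵐ ω ∂P, ω ∈ B → ps < M t ω ∧ M t ω ≤ 11 / 10 * ps) →
    c * P.real B ≤ E B) →
  c * P.real {ω | s₀ ω ≤ ps / 10 ∧ ∃ t, ps < M t ω} ≤ E Set.univ

/-- X6: the crossing inequality, with the additive bound. -/
def T_X6 : Prop := ∀ ε : ℝ, 0 < ε → ∃ w₀ : ℕ, ∀ w, w₀ ≤ w →
  ∀ (d : Sx) (e : SxE d) (L L₂ N t : ℕ) (B : Set e.Ω), 0 < L → 0 < L₂ →
    w ! * (30 * d.K) ≤ N → MeasurableSet[Inv e.T 1] B →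
    (∀ᵐ ω ∂e.P, ω ∈ B → d.ps < (e.P[e.Pt t | Inv e.T 1]) ω ∧
      (e.P[e.Pt t | Inv e.T 1]) ω ≤ 11 / 10 * d.ps) →
    (d.γ * d.m₀) ^ 2 / 16 * e.P.real B ≤ e.EE L L₂ N ε B

/-- X6b: the bound is additive, the steps are small. -/
def T_X6b : Prop := ∀ (d : Sx) (e : SxE d) (L L₂ N : ℕ) (ε : ℝ), 0 < L → 0 < L₂ → 0 ≤ ε →
  (∀ B, MeasurableSet[Inv e.T 1] B → 0 ≤ e.EE L L₂ N ε B) ∧
  (∀ B B', MeasurableSet[Inv e.T 1] B → MeasurableSet[Inv e.T 1] B' → Disjoint B B' →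
    e.EE L L₂ N ε (B ∪ B') = e.EE L L₂ N ε B + e.EE L L₂ N ε B') ∧
  (∀ᵐ ω ∂e.P, (e.P[e.Pt 0 | Inv e.T 1]) ω = 0) ∧
  ∀ t, ∀ᵐ ω ∂e.P, |(e.P[e.Pt (t + 1) | Inv e.T 1]) ω - (e.P[e.Pt t | Inv e.T 1]) ω| ≤
    (e.P[e.mv 1 | Inv e.T 1]) ω

/-- X7: average over the shift. -/
def T_X7 : Prop := ∀ (d : Sx) (e : SxE d), ∀ᵐ ω ∂e.P,
  (∀ t, (e.P[e.Pt t | Inv e.T 1]) ω ≤ d.ps) →
    ∃ b, (e.P[e.Pb b | Inv e.T 1]) ω ≤ d.ps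

/-- X8: the parameters. `η` does not depend on the reference system `d`. -/
def T_X8 : Prop := ∀ (K N : ℕ) (γ m₀ ε : ℝ), 0 < K → 0 < γ → 0 < m₀ → 0 < ε →
  ∃ η : ℝ, 0 < η ∧ ∀ d : Sx, d.K = K → d.γ = γ → d.m₀ = m₀ →
    ∃ L L₂ L₁ : ℕ, 0 < L ∧ 0 < L₂ ∧ ∀ e : SxE d,
      (∀ l ≤ L₁, e.P.real {ω | e.s (e.T^[l] ω) ≠ e.s ω} ≤ η) →
      e.EE L L₂ N (ε / (4 * (30 * (d.K : ℝ)) ^ 2)) Set.univ ≤
        2 * La d.U d.s e.P e.T e.ys d.Bad Set.univ + ε ∧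
      e.P.real {ω | d.ps / 10 < (e.P[e.mv 1 | Inv e.T 1]) ω} ≤ ε

/-- XSW: the switching lemma. `η` does not depend on the reference system `d`. -/
def T_XSW : Prop := ∀ (K : ℕ) (γ m₀ ε : ℝ), 0 < K → 0 < γ → 0 < m₀ → 0 < ε →
  ∃ η : ℝ, 0 < η ∧ ∀ d : Sx, d.K = K → d.γ = γ → d.m₀ = m₀ →
    ∃ L₁ : ℕ, ∀ e : SxE d,
      (∀ l ≤ L₁, e.P.real {ω | e.s (e.T^[l] ω) ≠ e.s ω} ≤ η) →
      e.P.real {ω | ∀ b, d.ps < (e.P[e.Pb b | Inv e.T 1]) ω} ≤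
        32 / (d.γ * d.m₀) ^ 2 * La d.U d.s e.P e.T e.ys d.Bad Set.univ + ε

end Pool.Agent.H28.LF
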