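import Pool.Agent.H91.LF.Basic
import Pool.Agent.H67.LF.Sup

/-!
# Module [A2]: the averaged two point conjecture at every scale, from SUP
-/

set_option autoImplicit false

open Finset Filter Topology

namespace Pool.Agent.H28.LF

open Pool.Agent.H91.LF
open Pool.Agent.H24.MR (lam)
open Pool.Agent.H67.LF (ex win tot)
open scoped ComplexConjugate

/-! ### Discrete Parseval -/

theorem ex_pow (M i k : ℕ) : ex ((k : ℝ) / M) i = ex (1 / (M : ℝ)) (k * i) := by
  unfold ex
  congr 1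
  push_cast
  ring

theorem orth (M : ℕ) (hM : 0 < M) (i j : ℕ) (hi : i < M) (hj : j < M) :
    ∑ k ∈ range M, ex ((k : ℝ) / M) i * conj (ex ((k : ℝ) / M) j) =
      if i = j then (M : ℂ) else 0 := by
  have hM' : (M : ℂ) ≠ 0 := by exact_mod_cast hM.ne'
  set z : ℂ := Complex.exp (2 * Real.pi * Complex.I * (((i : ℂ) - j) / M)) with hz
  have h1 : ∀ k ∈ range M, ex ((k : ℝ) / M) i * conj (ex ((k : ℝ) / M) j) = z ^ k := by
    intro k _
    unfold ex
    rw [← Complex.exp_conj, ← Complex.exp_add, hz, ← Complex.exp_nat_mul]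
    congr 1
    simp only [map_mul, Complex.conj_I, Complex.conj_ofReal, map_natCast, map_ofNat]
    push_cast
    ring
  rw [Finset.sum_congr rfl h1]
  by_cases hij : i = j
  · rw [if_pos hij]
    have : z = 1 := by
      rw [hz, hij, sub_self, zero_div, mul_zero, Complex.exp_zero]
    simp [this]
  · rw [if_neg hij]
    have hz1 : z ≠ 1 := by
      intro h
      rw [hz, Complex.exp_eq_one_iff] at h
      obtain ⟨n, hn⟩ := h
      have hpi : (2 * (Real.pi : ℂ) * Complex.I) ≠ 0 := Complex.two_pi_I_ne_zero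
      have h2 : ((i : ℂ) - j) / M = n := by
        have : 2 * (Real.pi : ℂ) * Complex.I * (((i : ℂ) - j) / M) =
            2 * (Real.pi : ℂ) * Complex.I * n := by rw [hn]; ring
        exact mul_left_cancel₀ hpi this
      have h3 : ((i : ℂ) - j) = n * M := by
        rw [div_eq_iff hM'] at h2
        exact h2
      have h4 : ((i : ℤ) - j) = n * M := by exact_mod_cast h3
      have hi' : (i : ℤ) < M := by exact_mod_cast hi
      have hj' : (j : ℤ) < M := by exact_mod_cast hj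
      have hM0 : (0 : ℤ) < M := by exact_mod_cast hM
      have hi0 : (0 : ℤ) ≤ i := by positivity
      have hj0 : (0 : ℤ) ≤ j := by positivity
      have hn0 : n = 0 := by
        rcases lt_trichotomy n 0 with h5 | h5 | h5
        · nlinarith
        · exact h5
        · nlinarith
      rw [hn0, zero_mul] at h4
      omega
    have hzM : z ^ M = 1 := by
      rw [hz, ← Complex.exp_nat_mul, Complex.exp_eq_one_iff]
      refine ⟨(i : ℤ) - j, ?_⟩
      push_cast
      field_simp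
    have h2 := geom_sum_mul z M
    rw [hzM, sub_self] at h2
    rcases mul_eq_zero.1 h2 with h3 | h3
    · exact h3
    · exact absurd (sub_eq_zero.1 h3) hz1

theorem parseval (M : ℕ) (hM : 0 < M) (c : ℕ → ℝ) :
    ∑ k ∈ range M, ‖∑ j ∈ range M, (c j : ℂ) * ex ((k : ℝ) / M) j‖ ^ 2 =
      M * ∑ j ∈ range M, (c j) ^ 2 := by
  have h1 : ((∑ k ∈ range M, ‖∑ j ∈ range M, (c j : ℂ) * ex ((k : ℝ) / M) j‖ ^ 2 : ℝ) : ℂ) =
      ((M * ∑ j ∈ range M, (c j) ^ 2 : ℝ) : ℂ) := by
    push_cast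
    have e1 : ∀ k ∈ range M, ((‖∑ j ∈ range M, (c j : ℂ) * ex ((k : ℝ) / M) j‖ : ℂ)) ^ 2 =
        ∑ i ∈ range M, ∑ j ∈ range M, (c i : ℂ) * (c j : ℂ) *
          (ex ((k : ℝ) / M) i * conj (ex ((k : ℝ) / M) j)) := by
      intro k _
      rw [← Complex.mul_conj', map_sum, Finset.sum_mul_sum]
      apply Finset.sum_congr rfl
      intro i _
      apply Finset.sum_congr rfl
      intro j _
      rw [map_mul, Complex.conj_ofReal]
      ring
    rw [Finset.sum_congr rfl e1, Finset.sum_comm, Finset.mul_sum]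
    apply Finset.sum_congr rfl
    intro i hi
    rw [Finset.sum_comm]
    rw [Finset.sum_eq_single i]
    · rw [← Finset.mul_sum, orth M hM i i (mem_range.1 hi) (mem_range.1 hi), if_pos rfl]
      ring
    · intro j hj hji
      rw [← Finset.mul_sum, orth M hM i j (mem_range.1 hi) (mem_range.1 hj),
        if_neg (Ne.symm hji), mul_zero]
    · intro hi'
      exact absurd hi hi'
  exact_mod_cast h1

/-! ### The fourth moment -/

/-- The correlation sum. -/
noncomputable def GG (N y z : ℕ) : ℝ := ∑ n ∈ range N, lam (n + y) * lam (n + z)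

/-- The coefficients of the product of two window sums. -/
noncomputable def cc (H n n' j : ℕ) : ℝ :=
  ∑ u ∈ range H ×ˢ range H, if u.1 + u.2 = j then lam (n + u.1) * lam (n' + u.2) else 0

theorem win_mul (H n n' : ℕ) (β : ℝ) :
    win H β n * win H β n' = ∑ j ∈ range (2 * H), (cc H n n' j : ℂ) * ex β j := by
  unfold win cc
  rw [Finset.sum_mul_sum, ← Finset.sum_product']
  have e1 : ∀ j ∈ range (2 * H),
      ((∑ u ∈ range H ×ˢ range H, if u.1 + u.2 = j then lam (n + u.1) * lam (n' + u.2) else 0 :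
        ℝ) : ℂ) * ex β j =
      ∑ u ∈ range H ×ˢ range H, if u.1 + u.2 = j then
        ((lam (n + u.1) : ℂ) * (lam (n' + u.2) : ℂ)) * ex β j else 0 := by
    intro j _
    push_cast
    rw [Finset.sum_mul]
    apply Finset.sum_congr rfl
    intro u _
    split_ifs
    · push_cast; rfl
    · simp
  rw [Finset.sum_congr rfl e1, Finset.sum_comm]
  apply Finset.sum_congr rfl
  intro u hu
  obtain ⟨h1, h2⟩ := mem_product.1 hu
  have h3 := mem_range.1 h1
  have h4 := mem_range.1 h2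
  rw [Finset.sum_ite_eq]
  rw [if_pos (mem_range.2 (by omega)), Pool.Agent.H67.LF.ex_add]
  ring

theorem sum_tot (H N : ℕ) (hH : 0 < H) :
    ∑ k ∈ range (2 * H), tot H ((k : ℝ) / ((2 * H : ℕ) : ℝ)) N = (2 * H : ℕ) * (N * H) := by
  unfold tot
  rw [Finset.sum_comm]
  have h1 : ∀ n ∈ range N, ∑ k ∈ range (2 * H), ‖win H ((k : ℝ) / ((2 * H : ℕ) : ℝ)) n‖ ^ 2 =
      (2 * H : ℕ) * (H : ℝ) := by
    intro n _
    have h2 := parseval (2 * H) (by omega) (fun j => if j < H then lam (n + j) else 0)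
    have e1 : ∀ k ∈ range (2 * H), ‖win H ((k : ℝ) / ((2 * H : ℕ) : ℝ)) n‖ ^ 2 =
        ‖∑ j ∈ range (2 * H), (((if j < H then lam (n + j) else 0 : ℝ)) : ℂ) *
          ex ((k : ℝ) / ((2 * H : ℕ) : ℝ)) j‖ ^ 2 := by
      intro k _
      congr 2
      unfold win
      have hsub : range H ⊆ range (2 * H) := Finset.range_subset_range.2 (by omega)
      rw [← Finset.sum_subset hsub]
      · apply Finset.sum_congr rfl
        intro y hy
        rw [if_pos (mem_range.1 hy)]
      · intro y _ hy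
        rw [if_neg (fun h => hy (mem_range.2 h))]
        simp
    rw [Finset.sum_congr rfl e1, h2]
    congr 1
    have hsub : range H ⊆ range (2 * H) := Finset.range_subset_range.2 (by omega)
    rw [← Finset.sum_subset hsub]
    · rw [Finset.sum_congr rfl (g := fun _ => (1 : ℝ))]
      · simp
      · intro y hy
        rw [if_pos (mem_range.1 hy)]
        rcases lam_or' (n + y) with h | h <;> rw [h] <;> norm_num
    · intro y _ hy
      rw [if_neg (fun h => hy (mem_range.2 h))]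
      simp
  rw [Finset.sum_congr rfl h1]
  simp only [Finset.sum_const, card_range, nsmul_eq_mul]
  ring

/-- The fourth moment as a sum over additive quadruples. -/
noncomputable def XX (H N : ℕ) : ℝ :=
  ∑ u ∈ range H ×ˢ range H, ∑ v ∈ range H ×ˢ range H,
    if u.1 + u.2 = v.1 + v.2 then GG N u.1 v.1 * GG N u.2 v.2 else 0

theorem sum_cc (H N : ℕ) :
    ∑ n ∈ range N, ∑ n' ∈ range N, ∑ j ∈ range (2 * H), (cc H n n' j) ^ 2 = XX H N := by
  have h1 : ∀ n n' : ℕ, ∑ j ∈ range (2 * H), (cc H n n' j) ^ 2 =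
      ∑ u ∈ range H ×ˢ range H, ∑ v ∈ range H ×ˢ range H,
        if u.1 + u.2 = v.1 + v.2 then
          (lam (n + u.1) * lam (n + v.1)) * (lam (n' + u.2) * lam (n' + v.2)) else 0 := by
    intro n n'
    have e1 : ∀ j ∈ range (2 * H), (cc H n n' j) ^ 2 =
        ∑ u ∈ range H ×ˢ range H, ∑ v ∈ range H ×ˢ range H,
          if u.1 + u.2 = j then (if v.1 + v.2 = j then
          (lam (n + u.1) * lam (n + v.1)) * (lam (n' + u.2) * lam (n' + v.2)) else 0) else 0 := by
      intro j _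
      unfold cc
      rw [sq, Finset.sum_mul_sum]
      apply Finset.sum_congr rfl
      intro u _
      apply Finset.sum_congr rfl
      intro v _
      by_cases h1 : u.1 + u.2 = j
      · by_cases h2 : v.1 + v.2 = j
        · rw [if_pos h1, if_pos h2, if_pos h1, if_pos h2]; ring
        · rw [if_pos h1, if_neg h2, if_pos h1, if_neg h2]; ring
      · rw [if_neg h1, if_neg h1]; ring
    rw [Finset.sum_congr rfl e1, Finset.sum_comm]
    apply Finset.sum_congr rfl
    intro u hu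
    rw [Finset.sum_comm]
    apply Finset.sum_congr rfl
    intro v _
    rw [Finset.sum_ite_eq]
    obtain ⟨h1, h2⟩ := mem_product.1 hu
    have h3 := mem_range.1 h1
    have h4 := mem_range.1 h2
    rw [if_pos (mem_range.2 (by omega))]
    simp only [eq_comm]
  have h2 : ∀ n ∈ range N, ∀ n' ∈ range N, ∑ j ∈ range (2 * H), (cc H n n' j) ^ 2 =
      ∑ u ∈ range H ×ˢ range H, ∑ v ∈ range H ×ˢ range H,
        if u.1 + u.2 = v.1 + v.2 then
          (lam (n + u.1) * lam (n + v.1)) * (lam (n' + u.2) * lam (n' + v.2)) else 0 :=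
    fun n _ n' _ => h1 n n'
  rw [Finset.sum_congr rfl (fun n hn => Finset.sum_congr rfl (fun n' hn' => h2 n hn n' hn'))]
  unfold XX
  have h3 : ∀ n ∈ range N, ∑ n' ∈ range N, ∑ u ∈ range H ×ˢ range H, ∑ v ∈ range H ×ˢ range H,
        (if u.1 + u.2 = v.1 + v.2 then
          (lam (n + u.1) * lam (n + v.1)) * (lam (n' + u.2) * lam (n' + v.2)) else 0) =
      ∑ u ∈ range H ×ˢ range H, ∑ v ∈ range H ×ˢ range H,
        if u.1 + u.2 = v.1 + v.2 then (lam (n + u.1) * lam (n + v.1)) * GG N u.2 v.2 else 0 := by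
    intro n _
    rw [Finset.sum_comm]
    apply Finset.sum_congr rfl
    intro u _
    rw [Finset.sum_comm]
    apply Finset.sum_congr rfl
    intro v _
    by_cases h : u.1 + u.2 = v.1 + v.2
    · simp only [if_pos h]
      unfold GG
      rw [Finset.mul_sum]
    · simp only [if_neg h, Finset.sum_const_zero]
  rw [Finset.sum_congr rfl h3, Finset.sum_comm]
  apply Finset.sum_congr rfl
  intro u _
  rw [Finset.sum_comm]
  apply Finset.sum_congr rfl
  intro v _
  by_cases h : u.1 + u.2 = v.1 + v.2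
  · simp only [if_pos h]
    rw [← Finset.sum_mul]
    rfl
  · simp only [if_neg h, Finset.sum_const_zero]

theorem tot_nonneg (H N : ℕ) (β : ℝ) : 0 ≤ tot H β N :=
  Finset.sum_nonneg fun _ _ => by positivity

theorem fourth (H N : ℕ) (hH : 0 < H) (B : ℝ) (hB : ∀ β : ℝ, tot H β N ≤ B) :
    XX H N ≤ B * (N * H) := by
  have h1 : ∑ k ∈ range (2 * H), (tot H ((k : ℝ) / ((2 * H : ℕ) : ℝ)) N) ^ 2 =
      (2 * H : ℕ) * XX H N := by
    have e1 : ∀ k ∈ range (2 * H), (tot H ((k : ℝ) / ((2 * H : ℕ) : ℝ)) N) ^ 2 =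
        ∑ n ∈ range N, ∑ n' ∈ range N, ‖∑ j ∈ range (2 * H), (cc H n n' j : ℂ) *
          ex ((k : ℝ) / ((2 * H : ℕ) : ℝ)) j‖ ^ 2 := by
      intro k _
      unfold tot
      rw [sq, Finset.sum_mul_sum]
      apply Finset.sum_congr rfl
      intro n _
      apply Finset.sum_congr rfl
      intro n' _
      rw [← win_mul, norm_mul]
      ring
    rw [Finset.sum_congr rfl e1, Finset.sum_comm, ← sum_cc, Finset.mul_sum]
    apply Finset.sum_congr rfl
    intro n _
    rw [Finset.sum_comm, Finset.mul_sum]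
    apply Finset.sum_congr rfl
    intro n' _
    exact parseval (2 * H) (by omega) (fun j => cc H n n' j)
  have h2 : ∑ k ∈ range (2 * H), (tot H ((k : ℝ) / ((2 * H : ℕ) : ℝ)) N) ^ 2 ≤
      B * ((2 * H : ℕ) * (N * H)) := by
    rw [← sum_tot H N hH, Finset.mul_sum]
    apply Finset.sum_le_sum
    intro k _
    rw [sq]
    exact mul_le_mul_of_nonneg_right (hB _) (tot_nonneg _ _ _)
  have h3 : (0 : ℝ) < ((2 * H : ℕ) : ℝ) := by
    have : 0 < 2 * H := by omega
    exact_mod_cast this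
  rw [h1] at h2
  have h4 : ((2 * H : ℕ) : ℝ) * XX H N ≤ ((2 * H : ℕ) : ℝ) * (B * (N * H)) := by
    linarith
  exact le_of_mul_le_mul_left h4 h3

/-! ### Comparison of the correlation sums -/

/-- The correlation sum of the statement. -/
noncomputable def Gm (N : ℕ) (d : ℤ) : ℝ := ∑ n ∈ Finset.Icc 1 N, lz n * lz (n + d)

theorem shift_sum (g : ℤ → ℝ) (hg : ∀ n, |g n| ≤ 1) (N v : ℕ) :
    |∑ n ∈ range N, g (n + v) - ∑ n ∈ range N, g n| ≤ 2 * v := by
  induction v with
  | zero => simp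
  | succ v ih =>
    have h1 : ∑ n ∈ range N, g (n + ((v + 1 : ℕ) : ℤ)) - ∑ n ∈ range N, g (n + (v : ℤ)) =
        g (N + v) - g v := by
      rw [← Finset.sum_sub_distrib]
      have := Finset.sum_range_sub (fun n : ℕ => g ((n : ℤ) + v)) N
      simp only [Nat.cast_zero, zero_add] at this
      rw [← this]
      apply Finset.sum_congr rfl
      intro n _
      congr 2
      push_cast
      ring
    have h2 := hg (N + v)
    have h3 := hg v
    have h4 : |g ((N : ℤ) + v) - g v| ≤ 2 := (abs_sub _ _).trans (by linarith)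
    have e : ∑ n ∈ range N, g (n + ((v + 1 : ℕ) : ℤ)) - ∑ n ∈ range N, g n =
        (∑ n ∈ range N, g (n + ((v + 1 : ℕ) : ℤ)) - ∑ n ∈ range N, g (n + (v : ℤ))) +
        (∑ n ∈ range N, g (n + (v : ℤ)) - ∑ n ∈ range N, g n) := by ring
    rw [e, h1]
    refine (abs_add_le _ _).trans ?_
    push_cast
    linarith

theorem Icc_range (g : ℤ → ℝ) (N : ℕ) :
    ∑ n ∈ Finset.Icc 1 N, g n = ∑ n ∈ range N, g (n + 1) := by
  induction N with
  | zero => simp
  | succ N ih =>
    rw [Finset.sum_Icc_succ_top (by omega), Finset.sum_range_succ, ih]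
    push_cast
    rfl

theorem abs_sum_le_card (S : Finset ℕ) (f : ℕ → ℝ) (hf : ∀ n ∈ S, |f n| ≤ 1) :
    |∑ n ∈ S, f n| ≤ S.card := by
  refine (Finset.abs_sum_le_sum_abs _ _).trans ?_
  refine (Finset.sum_le_sum hf).trans ?_
  simp

theorem abs_GG_le (N y z : ℕ) : |GG N y z| ≤ N := by
  unfold GG
  have h := abs_sum_le_card (range N) (fun n => lam (n + y) * lam (n + z)) (fun n _ => by
    have h1 := Pool.Agent.H67.LF.abs_lam_le (n + y)
    have h2 := Pool.Agent.H67.LF.abs_lam_le (n + z)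
    exact abs_mul_le_one h1 h2)
  simpa using h

theorem abs_Gm_le (N : ℕ) (d : ℤ) : |Gm N d| ≤ N := by
  unfold Gm
  have h := abs_sum_le_card (Finset.Icc 1 N) (fun n => lz n * lz (n + d)) (fun n _ =>
    abs_mul_le_one (abs_lz_le _) (abs_lz_le _))
  simpa using h

theorem GG_comm (N y z : ℕ) : GG N y z = GG N z y := by
  unfold GG
  exact Finset.sum_congr rfl fun n _ => mul_comm _ _

theorem GG_Gm (N y d : ℕ) : |GG N y (y + d) - Gm N d| ≤ 2 * y + 3 := by
  set g : ℤ → ℝ := fun n => lz n * lz (n + d) with hg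
  have hgb : ∀ n, |g n| ≤ 1 := fun n => abs_mul_le_one (abs_lz_le _) (abs_lz_le _)
  have h1 : |GG N y (y + d) - ∑ n ∈ range N, g (n + (y : ℤ))| ≤ 1 := by
    have hterm : ∀ n : ℕ, 0 < n + y →
        lam (n + y) * lam (n + (y + d)) - g (n + (y : ℤ)) = 0 := by
      intro n hn
      have e1 : ((n : ℤ) + y) = ((n + y : ℕ) : ℤ) := by push_cast; rfl
      have e2 : (((n + y : ℕ) : ℤ) + d) = ((n + (y + d) : ℕ) : ℤ) := by push_cast; ring
      simp only [hg]
      rw [e1, e2, lz_natCast (by omega), lz_natCast (by omega), sub_self]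
    unfold GG
    rw [← Finset.sum_sub_distrib]
    rcases Nat.eq_zero_or_pos N with hN | hN
    · subst hN
      simp
    · obtain ⟨K, rfl⟩ : ∃ K, N = K + 1 := ⟨N - 1, by omega⟩
      rw [Finset.sum_range_succ', Finset.sum_eq_zero (fun n _ => hterm (n + 1) (by omega)),
        zero_add]
      rcases Nat.eq_zero_or_pos y with hy | hy
      · subst hy
        simp only [hg]
        simp only [Nat.cast_zero, add_zero, zero_add, lz_zero, zero_mul, sub_zero]
        exact abs_mul_le_one (Pool.Agent.H67.LF.abs_lam_le _) (Pool.Agent.H67.LF.abs_lam_le _)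
      · rw [hterm 0 (by omega)]
        simp
  have h2 := shift_sum g hgb N y
  have h3 := shift_sum g hgb N 1
  have h4 : Gm N d = ∑ n ∈ range N, g (n + ((1 : ℕ) : ℤ)) := by
    unfold Gm
    rw [Icc_range (fun n => lz n * lz (n + d)) N]
    rfl
  have e : GG N y (y + d) - Gm N d = (GG N y (y + d) - ∑ n ∈ range N, g (n + (y : ℤ))) +
      (∑ n ∈ range N, g (n + (y : ℤ)) - ∑ n ∈ range N, g n) -
      (∑ n ∈ range N, g (n + ((1 : ℕ) : ℤ)) - ∑ n ∈ range N, g n) := by
    rw [h4]; ring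
  rw [e]
  have h5 := abs_le.1 h1
  have h6 := abs_le.1 h2
  rw [Nat.cast_one (R := ℝ)] at h3
  have h7 := abs_le.1 h3
  rw [abs_le]
  constructor <;> linarith [h5.1, h5.2, h6.1, h6.2, h7.1, h7.2]

theorem GG_Gm' (N H y z : ℕ) (hy : y < H) (hz : z < H) (d : ℕ)
    (hd : y + d = z ∨ z + d = y) : |GG N y z - Gm N d| ≤ 2 * H + 3 := by
  have hy' : (y : ℝ) ≤ H := by exact_mod_cast hy.le
  have hz' : (z : ℝ) ≤ H := by exact_mod_cast hz.le
  rcases hd with h | h
  · rw [← h]
    have := GG_Gm N y d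
    linarith
  · rw [GG_comm, ← h]
    have := GG_Gm N z d
    linarith

/-- Negative differences. -/
theorem Gm_neg (N d : ℕ) : |Gm N (-(d : ℤ)) - Gm N d| ≤ 2 * d := by
  set g : ℤ → ℝ := fun n => lz (n - d + 1) * lz (n + 1) with hg
  have hgb : ∀ n, |g n| ≤ 1 := fun n => abs_mul_le_one (abs_lz_le _) (abs_lz_le _)
  have h1 : Gm N (-(d : ℤ)) = ∑ n ∈ range N, g n := by
    unfold Gm
    rw [Icc_range (fun n => lz n * lz (n + -(d : ℤ))) N]
    apply Finset.sum_congr rfl
    intro n _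
    simp only [hg]
    rw [mul_comm]
    congr 2
    ring
  have h2 : Gm N (d : ℤ) = ∑ n ∈ range N, g (n + (d : ℤ)) := by
    unfold Gm
    rw [Icc_range (fun n => lz n * lz (n + (d : ℤ))) N]
    apply Finset.sum_congr rfl
    intro n _
    simp only [hg]
    congr 2 <;> ring
  rw [h1, h2, abs_sub_comm]
  exact shift_sum g hgb N d

/-! ### The lower bound -/

/-- The difference of two natural numbers in absolute value. -/
def df (y z : ℕ) : ℕ := (y - z) + (z - y)

theorem lower (h N : ℕ) :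
    (h : ℝ) ^ 2 * ∑ d ∈ range h, (Gm N d) ^ 2 ≤
      XX (2 * h) N + (2 * h : ℕ) ^ 4 * (2 * N * (4 * h + 3)) := by
  set I := range (2 * h) ×ˢ range (2 * h) with hI
  set F : (ℕ × ℕ) × (ℕ × ℕ) → ℝ := fun w =>
    if w.1.1 + w.1.2 = w.2.1 + w.2.2 then (Gm N (df w.1.1 w.2.1)) ^ 2 else 0 with hF
  have hF0 : ∀ w, 0 ≤ F w := by
    intro w
    simp only [hF]
    split_ifs
    · positivity
    · exact le_rfl
  -- first inequality
  have h1 : (h : ℝ) ^ 2 * ∑ d ∈ range h, (Gm N d) ^ 2 ≤ ∑ w ∈ I ×ˢ I, F w := by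
    set S3 := range h ×ˢ (range h ×ˢ range h) with hS3
    set φ : ℕ × (ℕ × ℕ) → (ℕ × ℕ) × (ℕ × ℕ) := fun t =>
      ((t.2.1, t.2.2 + t.1), (t.2.1 + t.1, t.2.2)) with hφ
    have e1 : (h : ℝ) ^ 2 * ∑ d ∈ range h, (Gm N d) ^ 2 = ∑ t ∈ S3, F (φ t) := by
      rw [hS3, Finset.sum_product, Finset.mul_sum]
      apply Finset.sum_congr rfl
      intro d _
      have e2 : ∀ t ∈ range h ×ˢ range h, F (φ (d, t)) = (Gm N d) ^ 2 := by
        intro t _
        simp only [hF, hφ]
        rw [if_pos (by ring)]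
        have : df t.1 (t.1 + d) = d := by unfold df; omega
        rw [this]
      rw [Finset.sum_congr rfl e2]
      simp only [Finset.sum_const, card_product, card_range, nsmul_eq_mul]
      push_cast
      ring
    have hinj : Set.InjOn φ S3 := by
      rintro ⟨d, y, z⟩ _ ⟨d', y', z'⟩ _ heq
      simp only [hφ, Prod.mk.injEq] at heq
      obtain ⟨⟨h1, h2⟩, h3, h4⟩ := heq
      simp only [Prod.mk.injEq]
      omega
    rw [e1, ← Finset.sum_image (f := F) hinj]
    apply Finset.sum_le_sum_of_subset_of_nonneg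
    · intro w hw
      obtain ⟨t, ht, rfl⟩ := Finset.mem_image.1 hw
      simp only [hS3, mem_product, mem_range] at ht
      simp only [hI, hφ, mem_product, mem_range]
      omega
    · intro w _ _
      exact hF0 w
  refine h1.trans ?_
  -- second inequality
  have h2 : ∀ w ∈ I ×ˢ I, F w ≤ (if w.1.1 + w.1.2 = w.2.1 + w.2.2 then
      GG N w.1.1 w.2.1 * GG N w.1.2 w.2.2 else 0) + 2 * N * (4 * h + 3) := by
    intro w hw
    simp only [hI, mem_product, mem_range] at hw
    obtain ⟨⟨a1, a2⟩, a3, a4⟩ := hw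
    simp only [hF]
    by_cases hc : w.1.1 + w.1.2 = w.2.1 + w.2.2
    · rw [if_pos hc, if_pos hc]
      set d := df w.1.1 w.2.1 with hd
      have b1 : |GG N w.1.1 w.2.1 - Gm N d| ≤ 2 * (2 * h : ℕ) + 3 :=
        GG_Gm' N (2 * h) _ _ a1 a3 d (by rw [hd]; unfold df; omega)
      have b2 : |GG N w.1.2 w.2.2 - Gm N d| ≤ 2 * (2 * h : ℕ) + 3 :=
        GG_Gm' N (2 * h) _ _ a2 a4 d (by rw [hd]; unfold df; omega)
      have b3 := abs_GG_le N w.1.2 w.2.2
      have b4 := abs_Gm_le N d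
      set a := GG N w.1.1 w.2.1
      set b := GG N w.1.2 w.2.2
      set c := Gm N d
      have e : c ^ 2 = a * b - (a - c) * b - c * (b - c) := by ring
      have c1 : |(a - c) * b| ≤ (2 * (2 * h : ℕ) + 3) * N := by
        rw [abs_mul]
        exact mul_le_mul b1 b3 (abs_nonneg _) (by positivity)
      have c2 : |c * (b - c)| ≤ N * (2 * (2 * h : ℕ) + 3) := by
        rw [abs_mul]
        exact mul_le_mul b4 b2 (abs_nonneg _) (by positivity)
      have c3 := (abs_le.1 c1).1
      have c4 := (abs_le.1 c2).1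
      push_cast at c3 c4
      rw [e]
      linarith
    · rw [if_neg hc, if_neg hc]
      positivity
  refine (Finset.sum_le_sum h2).trans ?_
  rw [Finset.sum_add_distrib]
  apply add_le_add
  · unfold XX
    rw [← hI, Finset.sum_product]
  · simp only [Finset.sum_const, hI, card_product, card_range, nsmul_eq_mul]
    push_cast
    apply le_of_eq
    ring

theorem a2_main (hsup : StatementSUP) : StatementA2 := by
  intro c η hc hη
  set κ : ℕ := c.natAbs with hκ
  have hκ0 : 0 < κ := Int.natAbs_pos.2 hc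
  have hκ' : (0:ℝ) < κ := by exact_mod_cast hκ0
  obtain ⟨H₀, hH₀⟩ := hsup (η / (64 * κ)) (by positivity)
  refine ⟨H₀ + 1, fun H hH => ?_⟩
  have hHpos : 0 < H := by omega
  have hHr : (1:ℝ) ≤ H := by exact_mod_cast hHpos
  set h : ℕ := κ * H with hh
  have hh0 : 0 < h := Nat.mul_pos hκ0 hHpos
  have hhr : (0:ℝ) < h := by exact_mod_cast hh0
  have hHh : H ≤ h := Nat.le_mul_of_pos_left _ hκ0
  obtain ⟨N₀, hN₀⟩ := hH₀ (2 * h) (by omega)
  -- the error terms
  set E1 : ℝ := 2 * (16 * h ^ 2 * (2 * (4 * h + 3))) + 2 * H * (2 * h) ^ 2 with hE1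
  have hE10 : 0 ≤ E1 := by positivity
  obtain ⟨N₁, hN₁⟩ := exists_nat_gt (E1 / (η / 2))
  refine ⟨max N₀ (N₁ + 1), fun N hN => ?_⟩
  have hN0 : N₀ ≤ N := (le_max_left _ _).trans hN
  have hN1 : N₁ + 1 ≤ N := (le_max_right _ _).trans hN
  have hNr : (1:ℝ) ≤ N := by exact_mod_cast (by omega : 1 ≤ N)
  have hNr0 : (0:ℝ) < N := by linarith
  have hB : ∀ β : ℝ, tot (2 * h) β N ≤ η / (64 * κ) * ((2 * h : ℕ) : ℝ) ^ 2 * N := fun β =>
    hN₀ N hN0 β
  have h1 := fourth (2 * h) N (by omega) _ hB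
  have h2 := lower h N
  -- bound for the sum of squares
  have h3 : ∑ d ∈ range h, (Gm N d) ^ 2 ≤
      η / (64 * κ) * (8 * h) * N ^ 2 + 16 * h ^ 2 * (2 * N * (4 * h + 3)) := by
    have h4 : (h : ℝ) ^ 2 * ∑ d ∈ range h, (Gm N d) ^ 2 ≤ (h : ℝ) ^ 2 *
        (η / (64 * κ) * (8 * h) * N ^ 2 + 16 * h ^ 2 * (2 * N * (4 * h + 3))) := by
      refine h2.trans ((add_le_add_left h1 _).trans (le_of_eq ?_))
      push_cast
      ring
    exact le_of_mul_le_mul_left h4 (by positivity)
  -- the sum over multiples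
  have h5 : ∀ s ∈ range H, (Gm N (c * s)) ^ 2 ≤ 2 * (Gm N ((κ * s : ℕ) : ℤ)) ^ 2 +
      2 * (2 * h) ^ 2 := by
    intro s hs
    have hs' := mem_range.1 hs
    have hks : κ * s ≤ h := Nat.mul_le_mul_left _ hs'.le
    have hks' : ((κ * s : ℕ) : ℝ) ≤ h := by exact_mod_cast hks
    have h6 : |Gm N (c * s) - Gm N ((κ * s : ℕ) : ℤ)| ≤ 2 * h := by
      rcases Int.natAbs_eq c with h7 | h7
      · have : c * (s : ℤ) = ((κ * s : ℕ) : ℤ) := by
          rw [Nat.cast_mul]
          exact congrArg (fun t : ℤ => t * (s : ℤ)) h7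
        rw [this, sub_self, abs_zero]
        positivity
      · have : c * (s : ℤ) = -((κ * s : ℕ) : ℤ) := by
          rw [Nat.cast_mul, ← neg_mul]
          exact congrArg (fun t : ℤ => t * (s : ℤ)) h7
        rw [this]
        refine (Gm_neg N (κ * s)).trans ?_
        linarith
    have h8 := abs_le.1 h6
    set x := Gm N (c * s)
    set y := Gm N ((κ * s : ℕ) : ℤ)
    have h9 : (x - y) ^ 2 ≤ (2 * h) ^ 2 := by
      rw [← sq_abs]
      exact pow_le_pow_left₀ (abs_nonneg _) h6 2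
    nlinarith [sq_nonneg (x - 2 * y)]
  have h6 : ∑ s ∈ range H, (Gm N ((κ * s : ℕ) : ℤ)) ^ 2 ≤ ∑ d ∈ range h, (Gm N d) ^ 2 := by
    have e : ∑ s ∈ range H, (Gm N ((κ * s : ℕ) : ℤ)) ^ 2 =
        ∑ d ∈ (range H).image (fun s => κ * s), (Gm N (d : ℤ)) ^ 2 := by
      rw [Finset.sum_image]
      intro x _ y _ hxy
      exact Nat.eq_of_mul_eq_mul_left hκ0 hxy
    rw [e]
    apply Finset.sum_le_sum_of_subset_of_nonneg
    · intro d hd
      obtain ⟨s, hs, rfl⟩ := Finset.mem_image.1 hd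
      rw [mem_range] at hs ⊢
      rw [hh]
      exact Nat.mul_lt_mul_of_pos_left hs hκ0
    · intro d _ _
      positivity
  have h7 : ∑ s ∈ range H, (Gm N (c * s)) ^ 2 ≤
      2 * (η / (64 * κ) * (8 * h) * N ^ 2 + 16 * h ^ 2 * (2 * N * (4 * h + 3))) +
        2 * H * (2 * h) ^ 2 := by
    calc ∑ s ∈ range H, (Gm N (c * s)) ^ 2 ≤
          ∑ s ∈ range H, (2 * (Gm N ((κ * s : ℕ) : ℤ)) ^ 2 + 2 * (2 * h) ^ 2) :=
          Finset.sum_le_sum h5
      _ = 2 * ∑ s ∈ range H, (Gm N ((κ * s : ℕ) : ℤ)) ^ 2 + H * (2 * (2 * h) ^ 2) := by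
          rw [Finset.sum_add_distrib, ← Finset.mul_sum, Finset.sum_const, card_range,
            nsmul_eq_mul]
      _ ≤ _ := by linarith
  have h8 : ∑ s ∈ range H, ((∑ n ∈ Finset.Icc 1 N, lz n * lz (n + c * s)) / (N : ℝ)) ^ 2 =
      (∑ s ∈ range H, (Gm N (c * s)) ^ 2) / N ^ 2 := by
    rw [Finset.sum_div]
    apply Finset.sum_congr rfl
    intro s _
    rw [div_pow]
    rfl
  rw [h8, div_le_iff₀ (by positivity)]
  refine h7.trans ?_
  have h9 : E1 < η / 2 * N := by
    have : (N₁ : ℝ) ≤ N := by exact_mod_cast (by omega : N₁ ≤ N)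
    have h10 := hN₁
    rw [div_lt_iff₀ (by positivity)] at h10
    nlinarith
  have h10 : η / (64 * κ) * (8 * h) = η * H / 8 := by
    rw [hh]
    push_cast
    field_simp
    ring
  rw [h10]
  have h11 : 2 * (η * H / 8 * N ^ 2 + 16 * h ^ 2 * (2 * N * (4 * h + 3))) +
        2 * H * (2 * h) ^ 2 ≤ η * H / 4 * N ^ 2 + E1 * N := by
    rw [hE1]
    have : 2 * H * (2 * (h:ℝ)) ^ 2 ≤ 2 * H * (2 * h) ^ 2 * N := by
      have h12 : 0 ≤ 2 * H * (2 * (h:ℝ)) ^ 2 := by positivity
      nlinarith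
    linarith
  refine h11.trans ?_
  have h12 : E1 * N ≤ η / 2 * N * N := mul_le_mul_of_nonneg_right h9.le hNr0.le
  have h13 : η / 2 * N * N ≤ η / 2 * H * N ^ 2 := by
    have : 0 ≤ η / 2 * N ^ 2 := by positivity
    nlinarith
  have h14 : 0 ≤ η * H * N ^ 2 := by positivity
  linarith

end Pool.Agent.H28.LF
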