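import Pool.Agent.H12.LF.Av
import Pool.Agent.H28.LF.A2

/-!
# Module [UC]: the averaged two point property of the finite averages
-/

set_option autoImplicit false

open Finset Filter Topology

namespace Pool.Agent.H28.LF

open Pool.Agent.H91.LF
open Pool.Agent.H12.LF (Sq Gf Ls Wt)

variable {m : ℕ}

theorem shift_Icc (g : ℤ → ℝ) (hg : ∀ n, |g n| ≤ 1) (N : ℕ) (u : ℤ) :
    |∑ n ∈ Finset.Icc 1 N, g (n + u) - ∑ n ∈ Finset.Icc 1 N, g n| ≤ 2 * |(u : ℝ)| := by
  rw [Icc_range (fun n => g (n + u)) N, Icc_range g N]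
  rcases le_or_gt 0 u with h | h
  · obtain ⟨v, rfl⟩ := Int.eq_ofNat_of_zero_le h
    have h1 := shift_sum (fun n => g (n + 1)) (fun n => hg _) N v
    have e : ∑ n ∈ range N, g ((n : ℤ) + 1 + (v : ℤ)) =
        ∑ n ∈ range N, (fun n => g (n + 1)) ((n : ℤ) + (v : ℤ)) := by
      apply Finset.sum_congr rfl
      intro n _
      congr 1
      ring
    rw [e]
    refine h1.trans (le_of_eq ?_)
    simp
  · obtain ⟨v, hv⟩ := Int.eq_ofNat_of_zero_le (show 0 ≤ -u by omega)
    have hu : u = -(v : ℤ) := by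
      have : -u = (v : ℤ) := hv
      omega
    subst hu
    have h1 := shift_sum (fun n => g (n + 1 + -(v : ℤ))) (fun n => hg _) N v
    have e : ∑ n ∈ range N, (fun n => g (n + 1 + -(v : ℤ))) ((n : ℤ) + (v : ℤ)) =
        ∑ n ∈ range N, g ((n : ℤ) + 1) := by
      apply Finset.sum_congr rfl
      intro n _
      simp only
      congr 1
      ring
    rw [e, abs_sub_comm] at h1
    refine h1.trans (le_of_eq ?_)
    simp

/-- The offset of the form. -/
def off (a : ℤ) (b : Fin m → ℤ) (t : Fin m → ℕ) : ℤ := a + ∑ l, b l * (t l : ℤ)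

theorem Sq_gint (a : ℤ) (b : Fin m → ℤ) (s : ℤ) (t : Fin m → ℕ) (N : ℕ) :
    Sq (gint a b s) t N =
      (∑ n ∈ Finset.Icc 1 N, lz (n + off a b t) * lz (n + off a b t + s)) ^ 2 := by
  unfold Sq
  rw [sq, Finset.sum_mul_sum]
  apply Finset.sum_congr rfl
  intro n _
  apply Finset.sum_congr rfl
  intro n' _
  have e : ∀ n : ℤ, frm a b n (par (pt (n : ℤ) (n' : ℤ) (fun l => (t l : ℤ)))) =
      n + off a b t := by
    intro n
    have : par (pt (n : ℤ) (n' : ℤ) (fun l => (t l : ℤ))) = fun l => (t l : ℤ) := rfl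
    rw [this]
    unfold frm off
    ring
  have e' : ∀ k n n' : ℤ, frm a b k (par (pt n n' (fun l => (t l : ℤ)))) =
      k + off a b t := by
    intro k n n'
    have : par (pt n n' (fun l => (t l : ℤ))) = fun l => (t l : ℤ) := rfl
    rw [this]
    unfold frm off
    ring
  unfold gint
  have p0 : pt (n : ℤ) (n' : ℤ) (fun l => (t l : ℤ)) 0 = n := rfl
  have p1 : pt (n : ℤ) (n' : ℤ) (fun l => (t l : ℤ)) 1 = n' := rfl
  rw [p0, p1, e', e']

theorem abs_corr_le (u s : ℤ) (N : ℕ) :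
    |∑ n ∈ Finset.Icc 1 N, lz (n + u) * lz (n + u + s)| ≤ N := by
  have h := abs_sum_le_card (Finset.Icc 1 N) (fun n => lz (n + u) * lz (n + u + s)) (fun n _ =>
    abs_mul_le_one (abs_lz_le _) (abs_lz_le _))
  simpa using h

/-- The pointwise bound. -/
theorem Sq_div_le (a : ℤ) (b : Fin m → ℤ) (s : ℤ) (t : Fin m → ℕ) (N K : ℕ) (hN : 0 < N)
    (hK : 4 * |((off a b t : ℤ) : ℝ)| ≤ K) :
    Sq (gint a b s) t N / (N : ℝ) ^ 2 ≤ (Gm N s / N) ^ 2 + K / N := by
  rw [Sq_gint]
  set u := off a b t with hu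
  set A := ∑ n ∈ Finset.Icc 1 N, lz (n + u) * lz (n + u + s) with hA
  have hN' : (0:ℝ) < N := by exact_mod_cast hN
  have h1 : |A - Gm N s| ≤ 2 * |(u : ℝ)| := by
    have := shift_Icc (fun n => lz n * lz (n + s))
      (fun n => abs_mul_le_one (abs_lz_le _) (abs_lz_le _)) N u
    exact this
  have h2 : |A| ≤ N := abs_corr_le u s N
  have h3 : |Gm N s| ≤ N := abs_Gm_le N s
  have h4 : A ^ 2 ≤ (Gm N s) ^ 2 + K * N := by
    have e : A ^ 2 = (Gm N s) ^ 2 + (A - Gm N s) * (A + Gm N s) := by ring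
    have h5 : |(A - Gm N s) * (A + Gm N s)| ≤ (2 * |(u : ℝ)|) * (2 * N) := by
      rw [abs_mul]
      apply mul_le_mul h1 _ (abs_nonneg _) (by positivity)
      refine (abs_add_le _ _).trans ?_
      linarith
    have h6 := (abs_le.1 h5).2
    have h7 : (2 * |(u : ℝ)|) * (2 * N) ≤ K * N := by
      have : (2 * |(u : ℝ)|) * (2 * N) = (4 * |(u : ℝ)|) * N := by ring
      rw [this]
      exact mul_le_mul_of_nonneg_right hK hN'.le
    rw [e]
    linarith
  rw [div_le_iff₀ (by positivity)]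
  have h5 : ((Gm N s / N) ^ 2 + (K : ℝ) / N) * (N : ℝ) ^ 2 = (Gm N s) ^ 2 + K * N := by
    field_simp
  rw [h5]
  exact h4

theorem Sq_div_le_one (a : ℤ) (b : Fin m → ℤ) (s : ℤ) (t : Fin m → ℕ) (N : ℕ) :
    Sq (gint a b s) t N / (N : ℝ) ^ 2 ≤ 1 := by
  rw [Sq_gint]
  set u := off a b t with hu
  have h2 : |∑ n ∈ Finset.Icc 1 N, lz (n + u) * lz (n + u + s)| ≤ N := abs_corr_le u s N
  rcases Nat.eq_zero_or_pos N with h | h
  · subst h; simp
  · have h3 : (0 : ℝ) < (N : ℝ) ^ 2 := by positivity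
    rw [div_le_one h3, ← sq_abs]
    exact pow_le_pow_left₀ (abs_nonneg _) h2 2

/-- The harmonic sum with cut. -/
theorem harm_cut (x y K : ℕ) (hx : 0 < x) (hK : 0 < K) :
    ∑ N ∈ Finset.Icc x y, (1 / (N : ℝ)) * (if N ≤ K then 1 else (K : ℝ) / N) ≤
      2 + Real.log K := by
  have hK' : (0:ℝ) < K := by exact_mod_cast hK
  have h1 : ∑ N ∈ Finset.Icc x y, (1 / (N : ℝ)) * (if N ≤ K then 1 else (K : ℝ) / N) ≤
      ∑ N ∈ Finset.Icc 1 (max y K), (1 / (N : ℝ)) * (if N ≤ K then 1 else (K : ℝ) / N) := by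
    apply Finset.sum_le_sum_of_subset_of_nonneg
    · intro N hN
      rw [Finset.mem_Icc] at hN ⊢
      exact ⟨by omega, hN.2.trans (le_max_left _ _)⟩
    · intro N _ _
      split_ifs <;> positivity
  refine h1.trans ?_
  have h2 : Finset.Icc 1 (max y K) = Finset.Icc 1 K ∪ Finset.Ioc K (max y K) := by
    ext N
    simp only [Finset.mem_union, Finset.mem_Icc, Finset.mem_Ioc]
    have := le_max_right y K
    omega
  have hdisj : Disjoint (Finset.Icc 1 K) (Finset.Ioc K (max y K)) := by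
    rw [Finset.disjoint_left]
    intro N h3 h4
    rw [Finset.mem_Icc] at h3
    rw [Finset.mem_Ioc] at h4
    omega
  rw [h2, Finset.sum_union hdisj]
  have h3 : ∑ N ∈ Finset.Icc 1 K, (1 / (N : ℝ)) * (if N ≤ K then 1 else (K : ℝ) / N) ≤
      1 + Real.log K := by
    have e : ∑ N ∈ Finset.Icc 1 K, (1 / (N : ℝ)) * (if N ≤ K then 1 else (K : ℝ) / N) =
        ((harmonic K : ℚ) : ℝ) := by
      rw [harmonic_eq_sum_Icc]
      push_cast
      apply Finset.sum_congr rfl
      intro N hN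
      rw [if_pos (Finset.mem_Icc.1 hN).2, mul_one, one_div]
    rw [e]
    exact harmonic_le_one_add_log K
  have h4 : ∑ N ∈ Finset.Ioc K (max y K), (1 / (N : ℝ)) * (if N ≤ K then 1 else (K : ℝ) / N) ≤
      1 := by
    have e : ∑ N ∈ Finset.Ioc K (max y K), (1 / (N : ℝ)) * (if N ≤ K then 1 else (K : ℝ) / N) =
        K * ∑ N ∈ Finset.Ioc K (max y K), ((N : ℝ) ^ 2)⁻¹ := by
      rw [Finset.mul_sum]
      apply Finset.sum_congr rfl
      intro N hN
      have := (Finset.mem_Ioc.1 hN).1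
      rw [if_neg (by omega)]
      have hN0 : (N : ℝ) ≠ 0 := by
        have : 0 < N := by omega
        exact_mod_cast this.ne'
      field_simp
    rw [e]
    have h5 := sum_Ioc_inv_sq_le_sub (α := ℝ) hK.ne' (le_max_right y K)
    have h6 : (0:ℝ) ≤ ((max y K : ℕ) : ℝ)⁻¹ := by positivity
    calc (K : ℝ) * ∑ N ∈ Finset.Ioc K (max y K), ((N : ℝ) ^ 2)⁻¹ ≤ K * ((K : ℝ)⁻¹) := by
          apply mul_le_mul_of_nonneg_left _ hK'.le
          linarith
      _ = 1 := mul_inv_cancel₀ hK'.ne'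
  linarith

/-- The bound for one parameter. -/
theorem Gf_sum_le (a : ℤ) (b : Fin m → ℤ) (c : ℤ) (H x y K : ℕ) (η : ℝ) (hη : 0 < η)
    (hx : 0 < x) (hK0 : 0 < K) (t : Fin m → ℕ) (hK : 4 * |((off a b t : ℤ) : ℝ)| ≤ K)
    (hA2 : ∀ N, K ≤ N → ∑ s ∈ Finset.range H, (Gm N (c * s) / (N : ℝ)) ^ 2 ≤ η * H) :
    ∑ s ∈ Finset.range H, Gf x y (gint a b (c * s)) t ≤
      η * H * Ls x y + H * (2 + Real.log K) := by
  have h1 : ∑ s ∈ Finset.range H, Gf x y (gint a b (c * s)) t =
      ∑ N ∈ Finset.Icc x y, (1 / (N : ℝ)) *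
        ∑ s ∈ Finset.range H, Sq (gint a b (c * s)) t N / (N : ℝ) ^ 2 := by
    unfold Gf
    rw [Finset.sum_comm]
    apply Finset.sum_congr rfl
    intro N _
    rw [Finset.mul_sum]
  rw [h1]
  have h2 : ∀ N ∈ Finset.Icc x y, (1 / (N : ℝ)) *
        ∑ s ∈ Finset.range H, Sq (gint a b (c * s)) t N / (N : ℝ) ^ 2 ≤
      (1 / (N : ℝ)) * (η * H) + H * ((1 / (N : ℝ)) * (if N ≤ K then 1 else (K : ℝ) / N)) := by
    intro N hN
    have hN0 : 0 < N := lt_of_lt_of_le hx (Finset.mem_Icc.1 hN).1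
    have hN' : (0:ℝ) ≤ 1 / (N : ℝ) := by positivity
    have h3 : ∑ s ∈ Finset.range H, Sq (gint a b (c * s)) t N / (N : ℝ) ^ 2 ≤
        η * H + H * (if N ≤ K then 1 else (K : ℝ) / N) := by
      by_cases hc : N ≤ K
      · rw [if_pos hc, mul_one]
        have h4 : ∑ s ∈ Finset.range H, Sq (gint a b (c * s)) t N / (N : ℝ) ^ 2 ≤
            ∑ s ∈ Finset.range H, (1 : ℝ) :=
          Finset.sum_le_sum fun s _ => Sq_div_le_one a b _ t N
        have h5 : ∑ s ∈ Finset.range H, (1 : ℝ) = H := by simp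
        have h6 : 0 ≤ η * H := by positivity
        linarith
      · rw [if_neg hc]
        have h4 : ∑ s ∈ Finset.range H, Sq (gint a b (c * s)) t N / (N : ℝ) ^ 2 ≤
            ∑ s ∈ Finset.range H, ((Gm N (c * s) / N) ^ 2 + (K : ℝ) / N) :=
          Finset.sum_le_sum fun s _ => Sq_div_le a b _ t N K hN0 hK
        rw [Finset.sum_add_distrib] at h4
        have h5 : ∑ s ∈ Finset.range H, (K : ℝ) / N = H * ((K : ℝ) / N) := by simp
        have h6 := hA2 N (by omega)
        linarith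
    calc _ ≤ (1 / (N : ℝ)) * (η * H + H * (if N ≤ K then 1 else (K : ℝ) / N)) :=
          mul_le_mul_of_nonneg_left h3 hN'
      _ = _ := by ring
  refine (Finset.sum_le_sum h2).trans ?_
  rw [Finset.sum_add_distrib, ← Finset.sum_mul, ← Finset.mul_sum]
  have h3 := harm_cut x y K hx hK0
  have h4 : (H : ℝ) * ∑ N ∈ Finset.Icc x y, (1 / (N : ℝ)) * (if N ≤ K then 1 else (K : ℝ) / N) ≤
      H * (2 + Real.log K) := mul_le_mul_of_nonneg_left h3 (by positivity)
  have h5 : (∑ N ∈ Finset.Icc x y, 1 / (N : ℝ)) * (η * H) = η * H * Ls x y := by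
    unfold Ls
    ring
  linarith

theorem uc_main (hA2 : StatementA2) : StatementUC := by
  intro m T x y hT hx hlog a b
  constructor
  · intro s η hη
    filter_upwards with j
    have h1 : 0 ≤ avg m (T j) (x j) (y j) (gint a b s) := by
      rw [Pool.Agent.H12.LF.avg_eq]
      apply div_nonneg
      · apply Finset.sum_nonneg
        intro t _
        apply mul_nonneg (Pool.Agent.H12.LF.wt_nonneg t)
        unfold Gf
        apply Finset.sum_nonneg
        intro N _
        rw [Sq_gint]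
        positivity
      · exact mul_nonneg (Pool.Agent.H12.LF.Wt_nonneg _) (Pool.Agent.H12.LF.Ls_nonneg _ _)
    linarith
  · intro c η hc hη
    obtain ⟨H₀, hH₀⟩ := hA2 c (η / 2) hc (by positivity)
    refine ⟨H₀, fun H hH => ?_⟩
    obtain ⟨N₀, hN₀⟩ := hH₀ H hH
    -- constants
    set B : ℕ := ∑ l, (b l).natAbs with hB
    set C₁ : ℕ := N₀ + 4 * (a.natAbs + B + 1) with hC₁
    have hC₁0 : 0 < C₁ := by omega
    have hC₁1 : (1:ℝ) ≤ C₁ := by exact_mod_cast hC₁0
    have hlC : 0 ≤ Real.log C₁ := Real.log_nonneg hC₁1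
    have hoff : ∀ j, 1 ≤ T j → ∀ t ∈ box m (T j),
        4 * |((off a b t : ℤ) : ℝ)| ≤ ((C₁ * T j : ℕ) : ℝ) := by
      intro j hTj t ht
      have ht' : ∀ l, t l ≤ T j := fun l => ((Pool.Agent.H12.LF.mem_box.1 ht) l).2
      have h1 : |off a b t| ≤ (a.natAbs : ℤ) + B * T j := by
        unfold off
        refine (abs_add_le _ _).trans ?_
        have h2 : |a| = (a.natAbs : ℤ) := Int.abs_eq_natAbs a
        have h3 : |∑ l, b l * (t l : ℤ)| ≤ B * T j := by
          refine (Finset.abs_sum_le_sum_abs _ _).trans ?_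
          rw [hB]
          push_cast
          rw [Finset.sum_mul]
          apply Finset.sum_le_sum
          intro l _
          rw [abs_mul, Nat.abs_cast]
          have : (t l : ℤ) ≤ T j := by exact_mod_cast ht' l
          exact mul_le_mul_of_nonneg_left this (abs_nonneg _)
        rw [h2]
        linarith
      have h2 : 4 * |off a b t| ≤ ((C₁ * T j : ℕ) : ℤ) := by
        have h3 : (1 : ℤ) ≤ T j := by exact_mod_cast hTj
        rw [hC₁]
        push_cast
        have h4 : (0 : ℤ) ≤ |a| := abs_nonneg _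
        have h5 : (0 : ℤ) ≤ (N₀ : ℤ) := by positivity
        have h6 : (0 : ℤ) ≤ (B : ℤ) := by positivity
        have h7 : ((a.natAbs : ℕ) : ℤ) = |a| := (Int.abs_eq_natAbs a).symm
        rw [h7] at h1
        nlinarith
      have h3 : ((4 * |off a b t| : ℤ) : ℝ) ≤ (((C₁ * T j : ℕ) : ℤ) : ℝ) := by exact_mod_cast h2
      push_cast at h3 ⊢
      exact h3
    have hev : ∀ᶠ j in atTop, (2 / η) * (2 + Real.log C₁) ≤
        Real.log ((y j : ℝ) / x j) / (1 + Real.log (T j)) := hlog.eventually_ge_atTop _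
    have hT1 : ∀ᶠ j in atTop, 1 ≤ T j := hT.eventually_ge_atTop 1
    filter_upwards [hev, hT1] with j h1 h2
    have hTr : (1:ℝ) ≤ T j := by exact_mod_cast h2
    have hlT : 0 ≤ Real.log (T j) := Real.log_nonneg hTr
    have hLs := Pool.Agent.H12.LF.Ls_ge' (y := y j) (hx j)
    rw [le_div_iff₀ (by linarith)] at h1
    have hLs0 : 0 < Ls (x j) (y j) := by
      refine lt_of_lt_of_le ?_ (h1.trans hLs)
      have : 0 < 2 / η := by positivity
      positivity
    have hW0 : 0 < Wt m (T j) := by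
      unfold Wt
      apply Finset.sum_pos
      · intro t ht
        unfold wt
        apply Finset.prod_pos
        intro l _
        have := ((Pool.Agent.H12.LF.mem_box.1 ht) l).1
        have : (0:ℝ) < t l := by exact_mod_cast this
        positivity
      · refine ⟨fun _ => 1, ?_⟩
        rw [Pool.Agent.H12.LF.mem_box]
        intro l
        omega
    have h3 : ∑ s ∈ Finset.range H, avg m (T j) (x j) (y j) (gint a b (c * s)) =
        (∑ t ∈ box m (T j), wt t * ∑ s ∈ Finset.range H, Gf (x j) (y j) (gint a b (c * s)) t) /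
          (Wt m (T j) * Ls (x j) (y j)) := by
      simp only [Pool.Agent.H12.LF.avg_eq]
      rw [← Finset.sum_div]
      congr 1
      rw [Finset.sum_comm]
      apply Finset.sum_congr rfl
      intro t _
      rw [Finset.mul_sum]
    rw [h3, div_le_iff₀ (mul_pos hW0 hLs0)]
    have h4 : ∀ t ∈ box m (T j), wt t *
        ∑ s ∈ Finset.range H, Gf (x j) (y j) (gint a b (c * s)) t ≤
        wt t * (η * H * Ls (x j) (y j)) := by
      intro t ht
      apply mul_le_mul_of_nonneg_left _ (Pool.Agent.H12.LF.wt_nonneg t)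
      have hKpos : 0 < C₁ * T j := Nat.mul_pos hC₁0 h2
      have h5 := Gf_sum_le a b c H (x j) (y j) (C₁ * T j) (η / 2) (by positivity) (hx j)
        hKpos t (hoff j h2 t ht) (by
          intro N hN
          have : N₀ ≤ N := by
            have : C₁ ≤ C₁ * T j := Nat.le_mul_of_pos_right _ h2
            omega
          exact hN₀ N this)
      refine h5.trans ?_
      have h6 : Real.log ((C₁ * T j : ℕ) : ℝ) = Real.log C₁ + Real.log (T j) := by
        rw [Nat.cast_mul, Real.log_mul (by linarith) (by linarith)]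
      rw [h6]
      have h7 : 2 + (Real.log C₁ + Real.log (T j)) ≤ η / 2 * Ls (x j) (y j) := by
        have h8 : (2 + Real.log C₁) * (1 + Real.log (T j)) ≤ η / 2 * Ls (x j) (y j) := by
          have h9 := mul_le_mul_of_nonneg_left (h1.trans hLs) (by positivity : 0 ≤ η / 2)
          have e : η / 2 * (2 / η * (2 + Real.log C₁) * (1 + Real.log (T j))) =
              (2 + Real.log C₁) * (1 + Real.log (T j)) := by
            field_simp
          rw [e] at h9
          exact h9
        nlinarith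
      have h8 : (0:ℝ) ≤ H := by positivity
      nlinarith
    refine (Finset.sum_le_sum h4).trans (le_of_eq ?_)
    rw [← Finset.sum_mul]
    unfold Wt
    ring

end Pool.Agent.H28.LF
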