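import Pool.Agent.H28.LF.F3

/-!
Project LF: the final form in terms of `λ` and `μ`.
-/

set_option autoImplicit false

open MeasureTheory Filter Topology Finset

namespace Pool.Agent.H28.LF

open Pool.Agent.H24.MR (lam)

/-- the function of letters which belongs to `u` -/
noncomputable def ul2 (u : ℤ → ℤ → ℂ) (b : Bool × Bool) : ℂ :=
  u (if b.1 then 1 else -1) (if b.2 then 1 else 0)

theorem ul2_lt (u : ℤ → ℤ → ℂ) (n : ℕ) :
    ul2 u (lt n) = u ((-1) ^ ArithmeticFunction.cardFactors n)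
      (ArithmeticFunction.moebius n ^ 2) := by
  unfold ul2 lt
  congr 1
  · unfold lam
    rcases neg_one_pow_eq_or ℤ (ArithmeticFunction.cardFactors n) with h | h
    · have h' : ((-1 : ℝ)) ^ ArithmeticFunction.cardFactors n = 1 := by
        have := congrArg (Int.cast : ℤ → ℝ) h
        push_cast at this
        exact this
      simp [h, h']
    · have h' : ((-1 : ℝ)) ^ ArithmeticFunction.cardFactors n = -1 := by
        have := congrArg (Int.cast : ℤ → ℝ) h
        push_cast at this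
        exact this
      rw [h, h']
      norm_num
  · by_cases h : ArithmeticFunction.moebius n = 0
    · simp [h]
    · rcases ArithmeticFunction.moebius_ne_zero_iff_eq_or.1 h with h1 | h1
      · simp [h1]
      · simp [h1]

theorem Fk_ul2 (u : ℤ → ℤ → ℂ) (k n : ℕ) :
    Fk (ul2 u) k n = ∏ i ∈ Icc 1 k, u ((-1) ^ ArithmeticFunction.cardFactors (n + i))
      (ArithmeticFunction.moebius (n + i) ^ 2) := by
  unfold Fk
  have h : Icc 1 k = Ico 1 (k + 1) := by
    ext i
    simp only [Finset.mem_Icc, Finset.mem_Ico]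
    omega
  rw [h, Finset.prod_Ico_eq_prod_range]
  apply Finset.prod_congr (by simp)
  intro i _
  rw [ul2_lt]
  have : n + i + 1 = n + (1 + i) := by ring
  rw [this]

theorem Um_ul2 (u : ℤ → ℤ → ℂ) (hu : ∀ a b, ‖u a b‖ = 1) (h1 : u 1 1 ≠ u (-1) 1) :
    Um (ul2 u) := by
  refine ⟨fun b => hu _ _, ?_⟩
  unfold ul2
  simpa using h1

/-- the final form, from the targets -/
theorem final_of (hU : ∀ u, Um u → ThmU u) (h2 : T_UN2) (hF : T_CRF) (u : ℤ → ℤ → ℂ)
    (hu : ∀ a b, ‖u a b‖ = 1) (h1 : u 1 1 ≠ u (-1) 1) (ε : ℝ) (hε : 0 < ε) :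
    ∃ K₀ : ℕ, 0 < K₀ ∧ ∀ (K x y j : ℕ) (w : ℕ → ℕ → ℂ) (I : ℕ → Finset (ℕ × ℕ)), K₀ ≤ K →
      K ≤ x → K₀ * x ≤ y → 0 < j → (∀ N n, ‖w N n‖ ≤ 1) →
      (∀ N, ∀ J ∈ I N, J.1 + K₀ ≤ J.2 ∧ J.2 ≤ N) →
      (∀ N, (I N : Set (ℕ × ℕ)).PairwiseDisjoint (fun J => Ioc J.1 J.2)) →
      ∑ N ∈ Icc x y, (∑ k ∈ Fintype.piFinset (fun _ : Fin j => Icc 1 K), ∑ J ∈ I N,
        ‖∑ n ∈ Ioc J.1 J.2, w N n * ∏ l, ∏ i ∈ Icc 1 (k l),
          u ((-1) ^ ArithmeticFunction.cardFactors (n + i))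
            (ArithmeticFunction.moebius (n + i) ^ 2)‖) / ((K : ℝ) ^ j * (N : ℝ) ^ 2) ≤
        ε * Real.log ((y : ℝ) / x) := by
  classical
  have hm := Um_ul2 u hu h1
  obtain ⟨K₀, hK₀, h⟩ := hF (ul2 u) hm (h2 _ hm (hU _ hm)) ε hε
  refine ⟨K₀, hK₀, fun K x y j w I a1 a2 a3 a4 a5 a6 a7 => ?_⟩
  refine le_trans (le_of_eq ?_) (h K x y j w I a1 a2 a3 a4 a5 a6 a7)
  apply Finset.sum_congr rfl
  intro N _
  congr 1
  -- reindex the tuples
  have e : ∀ G : (Fin j → ℕ) → ℝ, ∑ k ∈ Fintype.piFinset (fun _ : Fin j => Icc 1 K), G k =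
      ∑ k : Fin j → Fin K, G (fun i => (k i : ℕ) + 1) := by
    intro G
    symm
    apply Finset.sum_bij (fun (k : Fin j → Fin K) _ => fun i => (k i : ℕ) + 1)
    · intro k _
      rw [Fintype.mem_piFinset]
      intro i
      rw [Finset.mem_Icc]
      have := (k i).isLt
      omega
    · intro k _ k' _ hkk
      funext i
      have := congrFun hkk i
      apply Fin.ext
      simpa using this
    · intro k hk
      rw [Fintype.mem_piFinset] at hk
      refine ⟨fun i => ⟨k i - 1, ?_⟩, Finset.mem_univ _, ?_⟩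
      · have := Finset.mem_Icc.1 (hk i)
        omega
      · funext i
        have := Finset.mem_Icc.1 (hk i)
        simp only
        omega
    · intro k _
      rfl
  rw [e]
  apply Finset.sum_congr rfl
  intro k _
  apply Finset.sum_congr rfl
  intro J _
  congr 1
  apply Finset.sum_congr rfl
  intro n _
  congr 1
  apply Finset.prod_congr rfl
  intro i _
  rw [Fk_ul2]

end Pool.Agent.H28.LF
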