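import Pool.Agent.H28.LF.F1

/-!
Project LF: from the targets to Theorem U.
-/

set_option autoImplicit false

open MeasureTheory ProbabilityTheory Filter Topology Finset
open scoped Nat ENNReal

namespace Pool.Agent.H28.LF

open Pool.Agent.H24.MR (lam FinAddInv)
open Pool.Agent.H24.T2 (Pset MRprop)
open Pool.Agent.H28.MCL (ldB Aw)
open Pool.Agent.H67.AG (avgP ul Inv Rt Av)

/-- the measure on the `y`-side -/
theorem syy_of (hE : T_YEX) (hW : T_YLW) (hR : T_YRL) (hS : T_YST) (hQ : T_YSQ) (hM : T_YMR)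
    (U : Ultrafilter ℕ) (x y : ℕ → ℕ) (τ : ℕ → ℕ → Bool) (PX : Measure Xi) (hA : Aw U x y)
    (hP : IsProbabilityMeasure PX)
    (hC : ∀ C : Set Xi, IsClopen C → PX.real C = ldB U x y {n | ptS (lX τ) n ∈ C}) :
    ∃ P : Measure Yi, SysY PX P := by
  obtain ⟨P, hL⟩ := hE U x y τ hA
  refine ⟨P, ?_⟩
  have h1 := hW U x y τ PX P hA hP hC hL
  have h2 := hS U x y τ P hA hL
  exact
    { prob := hL.prob
      inv := hL.inv
      law := fun p hp => (h1 p hp).1
      div := fun p hp => (h1 p hp).2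
      rel := hR U x y τ P hA hL
      stp := h2.1
      stf := h2.2.1
      per := h2.2.2
      sqf := hQ U x y τ P hA hL
      mr := hM U x y τ P hA hL }

/-- an index of the values of `u` -/
theorem exists_ix (u : Bool × Bool → ℂ) : ∃ ix : Bool × Bool → Fin 4, Ix u ix := by
  classical
  have hc : Fintype.card (Bool × Bool) = 4 := by decide
  let e : Bool × Bool ≃ Fin 4 := Fintype.equivFinOfCardEq hc
  let r : Bool × Bool → Bool × Bool := fun b => Function.invFun u (u b)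
  have hr : ∀ b, u (r b) = u b := fun b => Function.invFun_eq (f := u) ⟨b, rfl⟩
  refine ⟨fun b => e (r b), fun b b' => ⟨fun h => ?_, fun h => ?_⟩⟩
  · have h1 : r b = r b' := e.injective h
    rw [← hr b, ← hr b', h1]
  · show e (Function.invFun u (u b)) = e (Function.invFun u (u b'))
    rw [h]

/-- the least distance of two values of `u` -/
theorem exists_zeta (u : Bool × Bool → ℂ) :
    ∃ ζ : ℝ, 0 < ζ ∧ ∀ b b', u b ≠ u b' → ζ ≤ ‖u b - u b'‖ := by
  classical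
  let s : Finset ℝ := (Finset.univ : Finset ((Bool × Bool) × (Bool × Bool))).image
    fun p => if u p.1 = u p.2 then 1 else ‖u p.1 - u p.2‖
  have hs : s.Nonempty := by
    refine ⟨_, Finset.mem_image_of_mem _ (Finset.mem_univ ((true, true), (true, true)))⟩
  refine ⟨s.min' hs, ?_, fun b b' h => ?_⟩
  · obtain ⟨p, -, hp⟩ := Finset.mem_image.1 (s.min'_mem hs)
    rw [← hp]
    split_ifs with h
    · exact one_pos
    · exact norm_pos_iff.2 (sub_ne_zero.2 h)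
  · apply s.min'_le
    refine Finset.mem_image.2 ⟨(b, b'), Finset.mem_univ _, ?_⟩
    simp [h]

/-- Theorem U from the targets -/
theorem thmU_of (hL : T_LBL) (hX : T_SYX) (hB : T_BKX) (hE : T_YEX) (hW : T_YLW) (hR : T_YRL)
    (hS : T_YST) (hQ : T_YSQ) (hM : T_YMR) (hC : T_CMP) (hSel : T_SEL) (hU : T_UXY)
    (hX0 : IsEmpty Ux) : ∀ u, Um u → ThmU u := by
  classical
  intro u hu
  by_contra hcon
  obtain ⟨ε, U, x, y, τ, hε, hA, hτ, hbig⟩ := hL u hu hcon
  obtain ⟨PX, hPX, hcl⟩ := hX u ε U x y τ hu.1 hA hτ hbig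
  have hpX := hPX.prob
  obtain ⟨c, γ₀, F, hc, hγ, hFm, hFi, hF, hBk⟩ := hB u ε PX hu.1 hε hPX
  obtain ⟨P, hP⟩ := syy_of hE hW hR hS hQ hM U x y τ PX hA hpX hcl
  have hpP := hP.prob
  obtain ⟨ix, hix⟩ := exists_ix u
  obtain ⟨ζ, hζ, hz⟩ := exists_zeta u
  obtain ⟨Bk, hBk⟩ := hBk (c * ζ / 10) (by positivity)
  -- the windows
  have hK : ∀ r : ℕ, ∃ K : ℕ, 0 < K ∧ PX.real (Bk K) ≤ γ₀ / (64 * 4 ^ r) := by
    intro r
    have h1 : 0 < γ₀ / (64 * 4 ^ r) := by positivity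
    have h2 := (hBk.lim.eventually (ge_mem_nhds h1)).and (eventually_gt_atTop 0)
    obtain ⟨K, h3, h4⟩ := h2.exists
    exact ⟨K, h4, h3⟩
  choose Kr hK0 hK1 using hK
  obtain ⟨κ, hκ, hdis, hcomp⟩ := hC u ε PX P hPX hP
  have hgd : ∀ᵐ ω ∂P, ∀ r L p : ℕ, p.Prime → ∀ᵐ ω' ∂(κ ω), xiY p ω' ∈ F →
      xiY p ω' ∉ Bk (Kr r) → shX^[L] (xiY p ω') ∉ Bk (Kr r) →
      GdW u c (c * ζ / 10) (Kr r) L (thX (xiY p ω')) (wX (xiY p ω')) := by
    rw [ae_all_iff]; intro r
    rw [ae_all_iff]; intro L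
    rw [ae_all_iff]; intro p
    by_cases hp : p.Prime
    · have h1 := hBk.good (Kr r) L (hK0 r)
      have h2 := (hP.law p hp).quasiMeasurePreserving.ae h1
      rw [ae_iff] at h2
      obtain ⟨N, hN1, hN2, hN3⟩ := exists_measurable_superset_of_null h2
      rw [hdis N hN2, lintegral_eq_zero_iff (κ.measurable_coe hN2)] at hN3
      filter_upwards [hN3] with ω hω _
      rw [ae_iff]
      exact measure_mono_null hN1 hω
    · exact Eventually.of_forall fun ω h => absurd h hp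
  obtain ⟨ω, ⟨h1, h2⟩, h3⟩ := hSel PX P F (fun r => Bk (Kr r)) κ γ₀ hpX hP hFm hFi hγ hF
    (fun r => hBk.meas _) hK1 hdis hcomp
    {ω | CompY (κ ω) ∧ ∀ r L p : ℕ, p.Prime → ∀ᵐ ω' ∂(κ ω), xiY p ω' ∈ F →
      xiY p ω' ∉ Bk (Kr r) → shX^[L] (xiY p ω') ∉ Bk (Kr r) →
      GdW u c (c * ζ / 10) (Kr r) L (thX (xiY p ω')) (wX (xiY p ω'))}
    (hcomp.and hgd)
  have h4 := hU u ix c (c * ζ / 10) ζ γ₀ (κ ω) F (fun r => Bk (Kr r)) Kr hu hix hc hζ
    (by positivity) (by nlinarith [mul_pos hc hζ]) hz hγ h1 hFm hFi (fun r => hBk.meas _) hK0 h2 h3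
  exact h4.elim fun d => hX0.false d

end Pool.Agent.H28.LF
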