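import Pool.Agent.H28.LF.F2

/-!
Project LF: target for the final form of the result (families of disjoint intervals, which may
depend on the length `k` of the product).
-/

set_option autoImplicit false

open MeasureTheory ProbabilityTheory Filter Topology Finset
open scoped Nat ENNReal

namespace Pool.Agent.H28.LF

/-- CRH: short windows of length `K₁`, the length `k` of the products runs over `[1, K]`. -/
def T_CRH : Prop := ∀ u : Bool × Bool → ℂ, (∀ b, ‖u b‖ = 1) → ∀ (K₁ K n : ℕ) (w : ℕ → ℂ),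
  0 < K₁ → K₁ ≤ K → (∀ h, ‖w h‖ ≤ 1) →
  (∑ k ∈ Icc 1 K, ‖(∑ h ∈ Icc 1 K₁, w h * Fk u k (n + h)) / K₁‖) / K ≤
    (K₁ : ℝ) / K * ∑ b ∈ range (K / K₁), 2 * SB u (2 * K₁) (n + b * K₁) + (K₁ : ℝ) / K

/-- CRG: the final form. -/
def T_CRG : Prop := ∀ u : Bool × Bool → ℂ, Um u → ThmU2 u → ∀ ε : ℝ, 0 < ε → ∃ K₀ : ℕ, 0 < K₀ ∧
  ∀ (K x y : ℕ) (w : ℕ → ℕ → ℂ) (I : ℕ → ℕ → Finset (ℕ × ℕ)), K₀ ≤ K → K ≤ x → K₀ * x ≤ y →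
    (∀ N n, ‖w N n‖ ≤ 1) → (∀ N k, ∀ J ∈ I N k, J.1 + K₀ ≤ J.2 ∧ J.2 ≤ N) →
    (∀ N k, (I N k : Set (ℕ × ℕ)).PairwiseDisjoint (fun J => Ioc J.1 J.2)) →
    ∑ N ∈ Icc x y, (∑ k ∈ Icc 1 K, ∑ J ∈ I N k,
      ‖∑ n ∈ Ioc J.1 J.2, w N n * Fk u k n‖) / ((K : ℝ) * (N : ℝ) ^ 2) ≤
      ε * Real.log ((y : ℝ) / x)

end Pool.Agent.H28.LF
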