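import Pool.Agent.H28.LF.T3
import Pool.Agent.H40.AG.TargetsE

/-!
# Row D9 (project LF): the last step of the descent (helper21's proof, from `T_NXI`)
-/

set_option autoImplicit false

open MeasureTheory ProbabilityTheory Filter Topology Finset
open scoped ENNReal

namespace Pool.Agent.H28.LF.D9b

open Pool.Agent.H28.LF
open Pool.Agent.H67.AG (Inv SA JJ TT InvZ nxt XX PX TX Fac)
open Pool.Agent.H40.AG (QQ)

theorem wd_meas (c : Ux) (Λ : ℕ) : Measurable (c.wd Λ) :=
  measurable_pi_lambda _ fun _ => c.am.comp (c.T.measurable.iterate _)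

theorem sel_meas (c : Ux) (Λ n : ℕ) : Measurable (c.sel Λ n) := by
  classical
  let D : XX c.X (n + 1) → (Fin (n + 1) → Fin Λ → Fin c.q) × (Fin Λ → Fin c.q) :=
    fun p => (fun b => c.wd Λ (p.2.1 b), c.wd Λ p.2.2)
  let F : (Fin (n + 1) → Fin Λ → Fin c.q) × (Fin Λ → Fin c.q) → Fin (n + 1) := fun d =>
    if h : (univ.filter fun b => d.1 b = d.2).Nonempty then
      (univ.filter fun b => d.1 b = d.2).min' h else 0
  have hD : Measurable D := by
    refine Measurable.prodMk ?_ ?_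
    · exact measurable_pi_lambda _ fun b =>
        (wd_meas c Λ).comp ((measurable_pi_apply b).comp measurable_snd.fst)
    · exact (wd_meas c Λ).comp measurable_snd.snd
  have hF : Measurable F := measurable_of_countable _
  have he : c.sel Λ n = F ∘ D := by
    funext p
    simp only [Ux.sel, Function.comp_apply, F, D]
  rw [he]
  exact hF.comp hD

/-- the error of the selected reference -/
theorem ns_meas (hE : T_EQB) (c : Ux) (Λ n : ℕ) (b : Fin (n + 1)) :
    MeasurableSet {p : XX c.X (n + 1) | (p.2.1 (c.sel Λ n p), p.2.1 b) ∉ c.Eqv} := by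
  have h : {p : XX c.X (n + 1) | (p.2.1 (c.sel Λ n p), p.2.1 b) ∉ c.Eqv} =
      ⋃ i : Fin (n + 1), (c.sel Λ n ⁻¹' {i}) ∩
        (fun p : XX c.X (n + 1) => (p.2.1 i, p.2.1 b)) ⁻¹' c.Eqvᶜ := by
    ext p
    simp
  rw [h]
  refine MeasurableSet.iUnion fun i => ?_
  refine (sel_meas c Λ n (measurableSet_singleton i)).inter ?_
  have hm : Measurable fun p : XX c.X (n + 1) => (p.2.1 i, p.2.1 b) :=
    ((measurable_pi_apply i).comp measurable_snd.fst).prodMk
      ((measurable_pi_apply b).comp measurable_snd.fst)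
  exact hm (hE c).1.compl

theorem pf_D9 (hE : T_EQB) (hQ : Pool.Agent.H40.AG.T_QQA) (hT : Pool.Agent.H40.AG.T_PXT)
    (hF : Pool.Agent.H40.AG.T_PXF) (hL : Pool.Agent.H40.AG.T_PXL)
    (hN : Pool.Agent.H67.AG.T_NXI) : T_D9 := by
  intro c Z n Λ R _ m₀ ps hZ hZn hm0 hm1 hsep hΛ hRT hRJ hR1 hR2 hps0 hps hmis hgood
  have hTp : MeasurePreserving c.T c.μ c.μ := c.erg.toMeasurePreserving
  have hle : Z.1 ≤ (nxt c.μ c.T Z).1 := (hN c.X c.μ c.T Z c.erg hZ).2.1
  have hPL := hL c.X c.μ (nxt c.μ c.T Z) (n + 1) R hR1 hR2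
  have hPT := hT c.X c.μ c.T (nxt c.μ c.T Z) (n + 1) R hTp hZn hR1 hR2 hRT
  obtain ⟨_, hFQ, hFb, hFl, _⟩ := hF c.X c.μ c.T (nxt c.μ c.T Z) (n + 1) R hTp hZn hR1 hR2 hRT
  have hQabs := hQ c.X c.μ Z (nxt c.μ c.T Z) R hle hRJ
  generalize hPdef : PX c.μ (nxt c.μ c.T Z) (n + 1) R = P at *
  have hP1 : IsProbabilityMeasure P := hPL.1
  have hEm := (hE c).1
  by_contra hCP
  have hJ0 : (JJ c.μ Z) c.Eqv = 0 := by
    have h1 : (JJ c.μ Z).real c.Eqv = 0 := le_antisymm (not_lt.1 hCP) measureReal_nonneg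
    have h2 : (JJ c.μ Z) c.Eqv ≠ ⊤ := by
      have : IsFiniteMeasure (JJ c.μ Z) := by
        unfold JJ
        infer_instance
      exact measure_ne_top _ _
    exact (measureReal_eq_zero_iff h2).1 h1
  have hQ0 : (QQ c.μ (nxt c.μ c.T Z) R) c.Eqv = 0 := hQabs hJ0
  have hb0 : ∀ b : Fin (n + 1), P {p | (p.2.1 b, p.2.2) ∈ c.Eqv} = 0 := by
    intro b
    have h1 := (hFQ b).1.measure_preimage hEm.nullMeasurableSet
    rw [hQ0] at h1
    exact h1
  -- the conditional expectations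
  have hI : Inv (TX c.T (n + 1)) 1 ≤ (inferInstance : MeasurableSpace (XX c.X (n + 1))) :=
    MeasurableSpace.invariants_le _
  let f : Fin (n + 1) → XX c.X (n + 1) → ℝ := fun b =>
    {p : XX c.X (n + 1) | (p.2.1 (c.sel Λ n p), p.2.1 b) ∉ c.Eqv}.indicator fun _ => (1 : ℝ)
  have hfi : ∀ b, Integrable (f b) P := fun b =>
    (integrable_const (1 : ℝ)).indicator (ns_meas hE c Λ n b)
  let G : Fin (n + 1) → Set (XX c.X (n + 1)) := fun b =>
    {p | (P[f b | Inv (TX c.T (n + 1)) 1]) p ≤ ps}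
  have hG : ∀ b, MeasurableSet[Inv (TX c.T (n + 1)) 1] (G b) := by
    intro b
    have h1 : Measurable[Inv (TX c.T (n + 1)) 1] (P[f b | Inv (TX c.T (n + 1)) 1]) :=
      stronglyMeasurable_condExp.measurable
    exact h1 measurableSet_Iic
  let A : Fin (n + 1) → Set (XX c.X (n + 1)) := fun b => G b \ ⋃ b' : Fin (n + 1),
    ⋃ _ : b' < b, G b'
  have hA : ∀ b, MeasurableSet[Inv (TX c.T (n + 1)) 1] (A b) := by
    intro b
    refine MeasurableSet.diff (hG b) ?_
    exact MeasurableSet.iUnion fun b' => MeasurableSet.iUnion fun _ => hG b'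
  have hAm : ∀ b, MeasurableSet (A b) := fun b => hI _ (hA b)
  have hAG : ∀ b, A b ⊆ G b := fun b => Set.sdiff_subset
  have hAd : Pairwise (Function.onFun Disjoint A) := by
    intro b b' hbb
    rw [Function.onFun, Set.disjoint_left]
    rintro p ⟨h1, h2⟩ ⟨h3, h4⟩
    rcases lt_or_gt_of_ne hbb with h | h
    · exact h4 (Set.mem_iUnion.2 ⟨b, Set.mem_iUnion.2 ⟨h, h1⟩⟩)
    · exact h2 (Set.mem_iUnion.2 ⟨b', Set.mem_iUnion.2 ⟨h, h3⟩⟩)
  have hAU : ∀ p b, p ∈ G b → ∃ b', p ∈ A b' := by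
    intro p b
    induction b using WellFoundedLT.induction with
    | ind b ih =>
      intro hb
      by_cases h : ∃ b', b' < b ∧ p ∈ G b'
      · obtain ⟨b', h1, h2⟩ := h
        exact ih b' h1 h2
      · refine ⟨b, hb, fun h1 => h ?_⟩
        obtain ⟨b', h2⟩ := Set.mem_iUnion.1 h1
        obtain ⟨h3, h4⟩ := Set.mem_iUnion.1 h2
        exact ⟨b', h3, h4⟩
  let M : Set (XX c.X (n + 1)) := {p | c.a (p.2.1 (c.sel Λ n p)) ≠ c.a p.2.2}
  have hMm : MeasurableSet M := by
    have h : M = ⋃ i : Fin (n + 1), (c.sel Λ n ⁻¹' {i}) ∩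
        {p : XX c.X (n + 1) | c.a (p.2.1 i) ≠ c.a p.2.2} := by
      ext p
      simp [M]
    rw [h]
    refine MeasurableSet.iUnion fun i => ?_
    refine (sel_meas c Λ n (measurableSet_singleton i)).inter ?_
    have h1 : Measurable fun p : XX c.X (n + 1) => c.a (p.2.1 i) :=
      c.am.comp ((measurable_pi_apply i).comp measurable_snd.fst)
    have h2 : Measurable fun p : XX c.X (n + 1) => c.a p.2.2 := c.am.comp measurable_snd.snd
    exact (measurableSet_eq_fun h1 h2).compl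
  -- the inequality for one reference
  have key : ∀ b, 7 / 8 * m₀ * P.real (A b) ≤ P.real (A b ∩ M) := by
    intro b
    have h1 := hsep (XX c.X (n + 1)) P (TX c.T (n + 1)) (fun p => p.2.1 b) (fun p => p.2.2) (A b)
      hPT (hFb b) hFl (hA b)
    have h2 : P.real (A b \ {p | (p.2.1 b, p.2.2) ∈ c.Eqv}) = P.real (A b) := by
      rw [measureReal_def, measureReal_def, measure_sdiff_null (hb0 b)]
    have h3 : P.real (A b ∩ {p | (p.2.1 (c.sel Λ n p), p.2.1 b) ∉ c.Eqv}) ≤
        ps * P.real (A b) := by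
      have e1 : ∫ p in A b, (P[f b | Inv (TX c.T (n + 1)) 1]) p ∂P = ∫ p in A b, f b p ∂P :=
        setIntegral_condExp hI (hfi b) (hA b)
      have e2 : ∫ p in A b, f b p ∂P =
          P.real (A b ∩ {p | (p.2.1 (c.sel Λ n p), p.2.1 b) ∉ c.Eqv}) := by
        rw [setIntegral_indicator (ns_meas hE c Λ n b), setIntegral_const, smul_eq_mul, mul_one]
      have e3 : ∫ p in A b, (P[f b | Inv (TX c.T (n + 1)) 1]) p ∂P ≤ ∫ _ in A b, ps ∂P :=
        setIntegral_mono_on integrable_condExp.integrableOn (integrable_const _).integrableOn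
          (hAm b) fun p hp => hAG b hp
      rw [setIntegral_const, smul_eq_mul, mul_comm] at e3
      linarith
    have h4 : P.real (A b ∩ {p | c.a (p.2.1 b) ≠ c.a p.2.2}) ≤
        P.real (A b ∩ {p | (p.2.1 (c.sel Λ n p), p.2.1 b) ∉ c.Eqv}) + P.real (A b ∩ M) := by
      refine (measureReal_mono ?_ (measure_ne_top _ _)).trans (measureReal_union_le _ _)
      rintro p ⟨hpA, hp⟩
      by_cases hp2 : (p.2.1 (c.sel Λ n p), p.2.1 b) ∈ c.Eqv
      · right
        refine ⟨hpA, ?_⟩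
        have h5 : c.a (p.2.1 (c.sel Λ n p)) = c.a (p.2.1 b) := (hp2 0).1
        change c.a (p.2.1 (c.sel Λ n p)) ≠ c.a p.2.2
        rw [h5]
        exact hp
      · exact Or.inl ⟨hpA, hp2⟩
    rw [h2] at h1
    have h6 : ps * P.real (A b) ≤ m₀ / 8 * P.real (A b) :=
      mul_le_mul_of_nonneg_right hps measureReal_nonneg
    linarith
  have hsum1 : ∑ b, P.real (A b ∩ M) ≤ m₀ / 8 := by
    have h1 : P.real (⋃ b ∈ (Finset.univ : Finset (Fin (n + 1))), (A b ∩ M)) =
        ∑ b, P.real (A b ∩ M) := by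
      refine measureReal_biUnion_finset ?_ fun b _ => (hAm b).inter hMm
      intro b _ b' _ hbb
      exact (hAd hbb).mono Set.inter_subset_left Set.inter_subset_left
    rw [← h1]
    refine le_trans (measureReal_mono ?_ (measure_ne_top _ _)) hmis
    intro p hp
    simp only [Set.mem_iUnion] at hp
    obtain ⟨b, _, hp⟩ := hp
    exact hp.2
  have hsum2 : 1 / 2 ≤ ∑ b, P.real (A b) := by
    have h1 : (Set.univ : Set (XX c.X (n + 1))) ⊆
        {p | ∀ b : Fin (n + 1), ps < (P[f b | Inv (TX c.T (n + 1)) 1]) p} ∪ ⋃ b, A b := by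
      intro p _
      by_cases hp : ∀ b : Fin (n + 1), ps < (P[f b | Inv (TX c.T (n + 1)) 1]) p
      · exact Or.inl hp
      · right
        push Not at hp
        obtain ⟨b, hb⟩ := hp
        exact Set.mem_iUnion.2 (hAU p b hb)
    have h2 : (1 : ℝ) ≤ P.real {p | ∀ b : Fin (n + 1), ps <
        (P[f b | Inv (TX c.T (n + 1)) 1]) p} + P.real (⋃ b, A b) := by
      have h3 := (measureReal_mono (μ := P) h1 (measure_ne_top _ _)).trans
        (measureReal_union_le _ _)
      simpa using h3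
    have h4 : P.real (⋃ b, A b) ≤ ∑ b, P.real (A b) := measureReal_iUnion_fintype_le _
    have h5 : P.real {p | ∀ b : Fin (n + 1), ps < (P[f b | Inv (TX c.T (n + 1)) 1]) p} ≤ 1 / 2 :=
      hgood
    linarith
  have hfin : 7 / 8 * m₀ * ∑ b, P.real (A b) ≤ ∑ b, P.real (A b ∩ M) := by
    rw [Finset.mul_sum]
    exact Finset.sum_le_sum fun b _ => key b
  have h7 : 7 / 8 * m₀ * (1 / 2) ≤ 7 / 8 * m₀ * ∑ b, P.real (A b) :=
    mul_le_mul_of_nonneg_left hsum2 (by positivity)
  linarith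

end Pool.Agent.H28.LF.D9b
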