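import Pool.Agent.H67.AG.AllF
import Pool.Agent.H24.UG.AllU
import Pool.Agent.H50.AG.MRC
import Pool.Agent.H14.MCL.LDB
import Pool.Agent.H14.MCL.LDC
import Pool.Agent.H48.MCL.LDM
import Pool.Agent.H28.LF.FIN
import Pool.Agent.H1.LF.YLW
import Pool.Agent.H2.LF.D3
import Pool.Agent.H4.LF.P3W
import Pool.Agent.H4.LF.PIA
import Pool.Agent.H5.LF.CR1
import Pool.Agent.H6.LF.X3
import Pool.Agent.H7.LF.X2
import Pool.Agent.H10.LF.NPC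
import Pool.Agent.H11.LFU.WIN
import Pool.Agent.H13.LF.X1
import Pool.Agent.H14.LF.BLI
import Pool.Agent.H14.LF.LBL
import Pool.Agent.H14.LF.THV
import Pool.Agent.H14.LF.WBL
import Pool.Agent.H19.LF.D8
import Pool.Agent.H19.LF.LAF
import Pool.Agent.H19.LF.X5
import Pool.Agent.H21.LF.STX
import Pool.Agent.H32.LF.CND
import Pool.Agent.H32.LF.EQB
import Pool.Agent.H32.LF.EXI
import Pool.Agent.H34.LF.D1
import Pool.Agent.H34.LF.D6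
import Pool.Agent.H34.LF.XSW
import Pool.Agent.H34.LF.YEX
import Pool.Agent.H35.LF.SPM
import Pool.Agent.H36.LF.D2
import Pool.Agent.H36.LF.DSC
import Pool.Agent.H38.LF.YST
import Pool.Agent.H39.LF.X4
import Pool.Agent.H40.LF.CMP
import Pool.Agent.H40.LF.COD
import Pool.Agent.H40.LF.SDM
import Pool.Agent.H40.LF.SDN
import Pool.Agent.H40.LF.SEB
import Pool.Agent.H46.LF.CPL
import Pool.Agent.H49.LF.X6b
import Pool.Agent.H49.LF.YMR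
import Pool.Agent.H54.LF.SEL
import Pool.Agent.H54.LF.X6
import Pool.Agent.H55.LF.ENX
import Pool.Agent.H56.LF.LAB
import Pool.Agent.H57.LF.YSQ
import Pool.Agent.H62.LF.CR3
import Pool.Agent.H63.LF.D4
import Pool.Agent.H63.LF.UXY
import Pool.Agent.H67.LF.MEA
import Pool.Agent.H67.LF.ND1
import Pool.Agent.H67.LF.PIR
import Pool.Agent.H67.LF.PW3
import Pool.Agent.H67.LF.SHP
import Pool.Agent.H67.LF.SYX
import Pool.Agent.H68.LF.BKX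
import Pool.Agent.H68.LF.EXR
import Pool.Agent.H68.LF.RSU
import Pool.Agent.H75.LF.ND
import Pool.Agent.H75.LF.TOP
import Pool.Agent.H77.LF.X8
import Pool.Agent.H78.LF.CDB
import Pool.Agent.H78.LF.CR2
import Pool.Agent.H78.LF.STC
import Pool.Agent.H79.LF.DVS
import Pool.Agent.H79.LF.X7
import Pool.Agent.H81.LF.D5
import Pool.Agent.H84.LF.RLY
import Pool.Agent.H84.LF.TPL
import Pool.Agent.H85.LF.DCN
import Pool.Agent.H88.LF.YRL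
import Pool.Agent.H96.LF.THC
import Pool.Agent.H28.LF.D9b
import Pool.Agent.H33.LF.JV
import Pool.Agent.H33.LF.RSM

/-!
Project LF (`MP_c59857_nt`, Theorem U): assembly.
-/

set_option autoImplicit false

namespace Pool.Agent.H28.LF.AllL

open Pool.Agent.H28.LF
open Pool.Agent.H67.AG.AllF
open Pool.Agent.H24.UG.AllU

/-! ### from earlier projects -/

theorem x_LDB : Pool.Agent.H28.MCL.T_LDB := Pool.Agent.H14.MCL.ldb
theorem x_LDC : Pool.Agent.H28.MCL.T_LDC := Pool.Agent.H14.MCL.ldc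
theorem x_LDM : Pool.Agent.H28.MCL.T_LDM := Pool.Agent.H48.MCL.ldm x_LDC

/-! ### sections 2, 3, 4 -/

theorem l_SPM : T_SPM := Pool.Agent.H35.LF.pf_SPM c_HER c_ME
theorem l_EXI : T_EXI := Pool.Agent.H32.LF.pf_EXI c_VPR c_VDY
theorem l_EXR : T_EXR := Pool.Agent.H68.LF.pf_EXR c_VEC c_VDY
theorem l_RSU : T_RSU := Pool.Agent.H68.LF.pf_RSU
theorem l_CDB : T_CDB := Pool.Agent.H78.LF.pf_CDB c_UL
theorem l_STX : T_STX := Pool.Agent.H21.LF.pf_STX l_SPM l_EXI l_EXR l_CDB c_UL c_PN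
theorem l_STC : T_STC := Pool.Agent.H78.LF.pf_STC l_STX
theorem l_PIA : T_PIA := Pool.Agent.H4.LF.pf_PIA l_SPM l_EXI l_EXR l_RSU
theorem l_LAB : T_LAB := Pool.Agent.H56.LF.LAB.pf_LAB c_UL
theorem l_LAF : T_LAF := Pool.Agent.H19.LF.pf_LAF
theorem l_PW3 : T_PW3 := Pool.Agent.H67.LF.pf_PW3
theorem l_PIR : T_PIR := Pool.Agent.H67.LF.pf_PIR l_PW3 c_UL c_PN
theorem l_CND : T_CND := Pool.Agent.H32.LF.pf_CND
theorem l_EQB : T_EQB := Pool.Agent.H32.LF.pf_EQB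
theorem l_ND1 : T_ND1 := Pool.Agent.H67.LF.pf_ND1 l_PIR l_STC l_LAF l_LAB
theorem l_ND : T_ND := Pool.Agent.H75.LF.pf_ND l_ND1 l_CND l_EQB
theorem l_P3W : T_P3W := Pool.Agent.H4.LF.pf_P3W u_UP3 c_UL
theorem l_CPL : T_CPL := Pool.Agent.H46.LF.pf_CPL l_PW3
theorem l_RSM : T_RSM := Pool.Agent.H33.LF.pf_RSM l_P3W l_CPL c_UL
theorem l_JV : T_JV := Pool.Agent.H33.LF.pf_JV c_J1
theorem l_TOP : T_TOP :=
  Pool.Agent.H75.LF.pf_TOP l_ND l_RSM l_STC l_JV l_LAB l_EQB c_J2 c_J3 c_TW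

/-! ### section 5 -/

theorem l_X1 : T_X1 := Pool.Agent.H13.LF.pf_X1 c_UL
theorem l_X2 : T_X2 := Pool.Agent.H7.LF.pf_X2 c_UL
theorem l_X3 : T_X3 := Pool.Agent.H6.LF.pf_X3
theorem l_X4 : T_X4 := Pool.Agent.H39.LF.pf_X4 l_PIA l_CDB c_PW
theorem l_X5 : T_X5 := Pool.Agent.H19.LF.pf_X5
theorem l_X6 : T_X6 := Pool.Agent.H54.LF.pf_X6 l_PIR l_X2 l_X3 l_X4 l_LAB
theorem l_X6b : T_X6b := Pool.Agent.H49.LF.pf_X6b l_LAB c_UL
theorem l_X7 : T_X7 := Pool.Agent.H79.LF.pf_X7 c_ME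
theorem l_X8 : T_X8 := Pool.Agent.H77.LF.pf_X8 c_UL c_ME l_X1
theorem l_XSW : T_XSW := Pool.Agent.H34.LF.pf_XSW l_X5 l_X6 l_X6b l_X7 l_X8

/-! ### sections 6, 7 -/

theorem l_D1 : T_D1 := Pool.Agent.H34.LF.pf_D1 l_EQB c_J3
theorem l_D2 : T_D2 := Pool.Agent.H36.LF.pf_D2 l_EQB c_J3
theorem l_D3 : T_D3 := Pool.Agent.H2.LF.pf_D3 c_AP c_QM
theorem l_D4 : T_D4 := Pool.Agent.H63.LF.pf_D4 c_DGJ c_PXL c_RPC c_NCO
theorem l_D5 : T_D5 := Pool.Agent.H81.LF.pf_D5 c_PXL c_PNL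
theorem l_D6 : T_D6 := Pool.Agent.H34.LF.pf_D6 l_EQB
theorem l_D8 : T_D8 := Pool.Agent.H19.LF.pf_D8 l_XSW l_EQB c_PNL c_PNT c_PXL c_PXT
theorem l_D9 : T_D9 := Pool.Agent.H28.LF.D9b.pf_D9 l_EQB c_QQA c_PXT c_PXF c_PXL c_NXI
theorem l_DSC : T_DSC :=
  Pool.Agent.H36.LF.pf_DSC l_LAB l_LAF l_ND l_D1 l_D2 l_D3 l_D4 l_D5 l_D6 l_D8 l_D9 c_NXI c_PXL
    c_PXT c_PXF
theorem l_ENX : T_ENX := Pool.Agent.H55.LF.pf_ENX l_EQB c_JT

theorem noUx : IsEmpty Ux := erg_of l_TOP l_DSC l_ENX c_TW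

/-! ### section 8 -/

theorem f_THV : T_THV := Pool.Agent.H14.LF.pf_THV
theorem f_SBX : T_SBX := Pool.Agent.H14.LF.pf_SBX f_THV
theorem f_BLI : T_BLI := Pool.Agent.H14.LF.pf_BLI
theorem f_WIN : T_WIN := Pool.Agent.H11.LFU.pf_WIN f_SBX
theorem f_WBL : T_WBL := Pool.Agent.H14.LF.pf_WBL f_SBX f_BLI
theorem f_LBL : T_LBL := Pool.Agent.H14.LF.pf_LBL f_WIN f_WBL x_LDB
theorem f_SHP : T_SHP := Pool.Agent.H67.LF.pf_SHP u_UNU
theorem f_SYX : T_SYX := Pool.Agent.H67.LF.pf_SYX f_THV f_SHP x_LDB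
theorem f_MEA : T_MEA := Pool.Agent.H67.LF.pf_MEA f_THV
theorem f_BKX : T_BKX := Pool.Agent.H68.LF.pf_BKX f_MEA f_THV
theorem f_YEX : T_YEX := Pool.Agent.H34.LF.pf_YEX f_SHP x_LDB
theorem f_YLW : T_YLW := Pool.Agent.H1.LF.pf_YLW x_LDB
theorem f_YRL : T_YRL := Pool.Agent.H88.LF.pf_YRL
theorem f_YST : T_YST := Pool.Agent.H38.LF.pf_YST x_LDB
theorem f_YSQ : T_YSQ := Pool.Agent.H57.LF.pf_YSQ x_LDB x_LDC
theorem f_YMR : T_YMR := Pool.Agent.H49.LF.pf_YMR x_LDB x_LDM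
theorem f_CMP : T_CMP := Pool.Agent.H40.LF.pf_CMP Pool.Agent.H50.AG.pf_MRC
theorem f_NPC : T_NPC := Pool.Agent.H10.LF.pf_NPC
theorem f_COD : T_COD := Pool.Agent.H40.LF.pf_COD
theorem f_DCC : T_DCC := Pool.Agent.H85.LF.pf_DCC c_ME
theorem f_SEL : T_SEL :=
  Pool.Agent.H54.LF.pf_SEL f_DCC Pool.Agent.H40.LF.pf_SDM Pool.Agent.H40.LF.pf_SDN
    Pool.Agent.H40.LF.pf_SEB
theorem f_THC : T_THC := Pool.Agent.H96.LF.pf_THC f_THV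
theorem f_RLY : T_RLY := Pool.Agent.H84.LF.pf_RLY (Pool.Agent.H84.LF.pf_WBD Pool.Agent.H84.LF.pf_TPL)
theorem f_UXY : T_UXY := Pool.Agent.H63.LF.pf_UXY f_THC f_RLY f_NPC f_COD c_UL

/-- Theorem U -/
theorem thmU : ∀ u, Um u → ThmU u :=
  thmU_of f_LBL f_SYX f_BKX f_YEX f_YLW f_YRL f_YST f_YSQ f_YMR f_CMP f_SEL f_UXY noUx

/-! ### corollaries -/

theorem f_CR1 : T_CR1 := Pool.Agent.H5.LF.pf_CR1
theorem f_CR2 : T_CR2 := Pool.Agent.H78.LF.pf_CR2 f_CR1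
theorem f_CR3 : T_CR3 := Pool.Agent.H62.LF.pf_CR3 f_CR1 f_SBX

end Pool.Agent.H28.LF.AllL
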