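import Pool.Agent.H67.AG.Defs
import Pool.Agent.H40.AG.TargetsE

/-!
Project LF (`MP_c59857_nt`, THEOREM U: `λ(n!)` is locally Fourier uniform).  Definitions for the
ergodic part.  The proof on paper is in the store, `H28_LF.md`.
-/

set_option autoImplicit false

open MeasureTheory ProbabilityTheory Filter Topology Finset
open scoped Nat ENNReal

namespace Pool.Agent.H28.LF

open Pool.Agent.H24.T2 (Pset)
open Pool.Agent.H67.AG (avgP ul Inv Rt Av SA kap JJ TT InvZ nxt triv tow XN PN TN XX PX TX prX Fac)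
open Pool.Agent.H40.AG (QQ dg)

section basic

variable {Ω : Type} [MeasurableSpace Ω] {q : ℕ}

/-- the word of length `R` which a point sees along the prime `p` -/
def Wd (T : Ω ≃ᵐ Ω) (a : Ω → Fin q) (R p : ℕ) (ω : Ω) : Fin R → Fin q :=
  fun i => a (T^[p * ((i : ℕ) + 1)] ω)

/-- the asymptotic frequency of the words in `Bad p`, on the set `A` -/
noncomputable def La (U : Ultrafilter ℕ) (s : ℕ → ℝ) (P : Measure Ω) (T : Ω ≃ᵐ Ω) (a : Ω → Fin q)
    {R : ℕ} (Bad : ℕ → Set (Fin R → Fin q)) (A : Set Ω) : ℝ :=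
  ul U fun m => avgP 2 m fun p => s p * P.real (A ∩ {ω | Wd T a R p ω ∈ Bad p})

/-- the correlations along the primes, on the set `A` -/
noncomputable def Cd (U : Ultrafilter ℕ) (P : Measure Ω) (T : Ω ≃ᵐ Ω) (f : Ω → ℝ) (A : Set Ω)
    (d : ℕ) : ℝ :=
  ul U fun m => avgP 2 m fun p => ∫ ω in A, f ω * f (T^[p * d] ω) ∂P

open Classical in
/-- mismatch of two processes -/
noncomputable def dm (a a' : Ω → Fin q) (ω : Ω) : ℝ := if a ω = a' ω then 0 else 1

end basic

/-- the asymptotic density of the primes with a flag -/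
noncomputable def ds (U : Ultrafilter ℕ) (s : ℕ → ℝ) : ℝ := ul U fun m => avgP 2 m s

/-- two words outside of `B` do not have exactly one mismatch, in the middle -/
def Code {q : ℕ} (K L : ℕ) (B : Set (Fin (L + K) → Fin q)) : Prop :=
  ∀ v v' : Fin (L + K) → Fin q, v ∉ B → v' ∉ B → ∀ i : Fin (L + K), K ≤ (i : ℕ) → (i : ℕ) < L →
    v i ≠ v' i → ∃ j, j ≠ i ∧ v j ≠ v' j

/-- the data for the contradiction: a process whose words along the primes are mostly in a code
without isolated mismatches -/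
structure Ux where
  X : Type
  [mX : MeasurableSpace X]
  [sX : StandardBorelSpace X]
  μ : Measure X
  [pμ : IsProbabilityMeasure μ]
  T : X ≃ᵐ X
  erg : Ergodic T μ
  q : ℕ
  a : X → Fin q
  am : Measurable a
  np : ∀ r : ℕ, 0 < r → ¬ ∀ᵐ x ∂μ, a (T^[r] x) = a x
  U : Ultrafilter ℕ
  hU : (U : Filter ℕ) ≤ atTop
  s : ℕ → ℝ
  sv : ∀ p, s p = 0 ∨ s p = 1
  γ : ℝ
  γ0 : 0 < γ
  hγ : γ ≤ ds U s
  Bad : (K L : ℕ) → ℕ → Set (Fin (L + K) → Fin q)
  code : ∀ K L p, Code K L (Bad K L p)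
  rel : ∀ η : ℝ, 0 < η → ∃ K : ℕ, 0 < K ∧ ∀ L, K ≤ L → La U s μ T a (Bad K L) Set.univ ≤ η

namespace Ux

variable (c : Ux)

instance : MeasurableSpace c.X := c.mX
instance : StandardBorelSpace c.X := c.sX
instance : IsProbabilityMeasure c.μ := c.pμ

/-- the constant of the pair correlations -/
noncomputable def κ : ℝ := c.γ ^ 2 / 16384

/-- pairs of points with the same symbols at all times -/
def Eqv : Set (c.X × c.X) :=
  {p | ∀ n : ℕ, c.a (c.T^[n] p.1) = c.a (c.T^[n] p.2) ∧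
    c.a (c.T.symm^[n] p.1) = c.a (c.T.symm^[n] p.2)}

/-- equality of the symbols has positive mass in the relatively independent self-joining -/
def CP (Z : SA c.X) : Prop := 0 < (JJ c.μ Z).real c.Eqv

/-- separation with the constant `m₀`: distinct sequences of symbols have mismatches with
frequency at least `m₀` -/
def Sep (m₀ : ℝ) : Prop :=
  ∀ (Ω : Type) [MeasurableSpace Ω] (P : Measure Ω) [IsProbabilityMeasure P] (T : Ω ≃ᵐ Ω)
    (g g' : Ω → c.X) (A : Set Ω), MeasurePreserving T P P → Fac P T c.μ c.T g →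
    Fac P T c.μ c.T g' → MeasurableSet[Inv T 1] A →
    m₀ * P.real (A \ {ω | (g ω, g' ω) ∈ c.Eqv}) ≤ P.real (A ∩ {ω | c.a (g ω) ≠ c.a (g' ω)})

/-- the conditional probability of the symbol `b` -/
noncomputable def wt (Z : SA c.X) (b : Fin c.q) (x : c.X) : ℝ :=
  (c.μ[(c.a ⁻¹' {b}).indicator (fun _ => (1 : ℝ)) | Z.1]) x

/-- the conditional probability of a mismatch -/
noncomputable def vv (Z : SA c.X) (x : c.X) : ℝ := max 0 (min 1 (1 - ∑ b, c.wt Z b x ^ 2))

/-- the word of length `Λ` at consecutive times -/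
def wd (Λ : ℕ) (x : c.X) : Fin Λ → Fin c.q := fun l => c.a (c.T^[(l : ℕ)] x)

open Classical in
/-- the first reference with the word of the last point -/
noncomputable def sel (Λ n : ℕ) (p : XX c.X (n + 1)) : Fin (n + 1) :=
  if h : (univ.filter fun b => c.wd Λ (p.2.1 b) = c.wd Λ p.2.2).Nonempty then
    (univ.filter fun b => c.wd Λ (p.2.1 b) = c.wd Λ p.2.2).min' h else 0

/-- no reference has the word of the last point -/
def NF (Λ n : ℕ) : Set (XX c.X (n + 1)) := {p | ∀ b, c.wd Λ (p.2.1 b) ≠ c.wd Λ p.2.2}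

/-- two references look equal in the window `[l, Λ)`, but are not -/
def FE (Λ l n : ℕ) : Set (XX c.X (n + 1)) :=
  {p | ∃ a b, a ≠ b ∧ (p.2.1 a, p.2.1 b) ∉ c.Eqv ∧
    ∀ i, l ≤ i → i < Λ → c.a (c.T^[i] (p.2.1 a)) = c.a (c.T^[i] (p.2.1 b))}

end Ux

/-! ### the switching lemma -/

/-- the reference system -/
structure Sx where
  q : ℕ
  n : ℕ
  K : ℕ
  hK : 0 < K
  U : Ultrafilter ℕ
  hU : (U : Filter ℕ) ≤ atTop
  s : ℕ → ℝ
  sv : ∀ p, s p = 0 ∨ s p = 1
  γ : ℝ
  γ0 : 0 < γ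
  hγ : γ ≤ ds U s
  m₀ : ℝ
  m0 : 0 < m₀
  m1 : m₀ ≤ 1
  Bad : ℕ → Set (Fin (30 * K + K) → Fin q)
  code : ∀ p, Code K (30 * K) (Bad p)
  Ω' : Type
  [mΩ' : MeasurableSpace Ω']
  P' : Measure Ω'
  [pP' : IsProbabilityMeasure P']
  T' : Ω' ≃ᵐ Ω'
  mp' : MeasurePreserving T' P' P'
  y : Fin n → Ω' → Fin q
  ym : ∀ b, Measurable (y b)
  e : Fin n → Fin n → Set Ω'
  em : ∀ a b, MeasurableSet[Inv T' 1] (e a b)
  erefl : ∀ a ω, ω ∈ e a a
  esymm : ∀ a b ω, ω ∈ e a b → ω ∈ e b a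
  etrans : ∀ a b c ω, ω ∈ e a b → ω ∈ e b c → ω ∈ e a c
  ye : ∀ a b, ∀ᵐ ω ∂P', ω ∈ e a b → y a ω = y b ω
  sep : ∀ (a b : Fin n) (A : Set Ω'), MeasurableSet[Inv T' 1] A →
    m₀ * P'.real (A \ e a b) ≤ P'.real (A ∩ {ω | y a ω ≠ y b ω})

namespace Sx

variable (d : Sx)

instance : MeasurableSpace d.Ω' := d.mΩ'
instance : IsProbabilityMeasure d.P' := d.pP'

/-- the threshold -/
noncomputable def ps : ℝ := d.γ * d.m₀ / (240 * d.K)

open Classical in
/-- the word with the reference `j i` at the place `i` is bad -/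
noncomputable def FF (p : ℕ) (j : Fin (30 * d.K + d.K) → Fin d.n) (ω : d.Ω') : ℝ :=
  if (fun i => d.y (j i) (d.T'^[p * ((i : ℕ) + 1)] ω)) ∈ d.Bad p then 1 else 0

/-- mismatch of two references -/
noncomputable def gg (a b : Fin d.n) (ω : d.Ω') : ℝ := dm (d.y a) (d.y b) ω

end Sx

/-- an extension of the reference system with a selection of a reference -/
structure SxE (d : Sx) where
  Ω : Type
  [mΩ : MeasurableSpace Ω]
  P : Measure Ω
  [pP : IsProbabilityMeasure P]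
  T : Ω ≃ᵐ Ω
  mp : MeasurePreserving T P P
  g : Ω → d.Ω'
  fac : Fac P T d.P' d.T' g
  s : Ω → Fin d.n
  sm : Measurable s

namespace SxE

variable {d : Sx} (e : SxE d)

instance : MeasurableSpace e.Ω := e.mΩ
instance : IsProbabilityMeasure e.P := e.pP

/-- the symbol of the reference which is selected at the time `t` -/
def yt (t : ℕ) (ω : e.Ω) : Fin d.q := d.y (e.s (e.T^[t] ω)) (e.g ω)

/-- the symbol of the selected reference -/
def ys (ω : e.Ω) : Fin d.q := d.y (e.s ω) (e.g ω)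

open Classical in
/-- the selection changes between the times `0` and `l` -/
noncomputable def mv (l : ℕ) (ω : e.Ω) : ℝ := if e.s (e.T^[l] ω) = e.s ω then 0 else 1

open Classical in
/-- the references selected at the times `0` and `t` are different -/
noncomputable def Pt (t : ℕ) (ω : e.Ω) : ℝ :=
  if e.g ω ∈ d.e (e.s ω) (e.s (e.T^[t] ω)) then 0 else 1

open Classical in
/-- the selected reference and the reference `b` are different -/
noncomputable def Pb (b : Fin d.n) (ω : e.Ω) : ℝ := if e.g ω ∈ d.e (e.s ω) b then 0 else 1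

/-- the defect of the asymptotic invariance of the bad words, on the set `A` -/
noncomputable def E2 (L : ℕ) (A : Set e.Ω) : ℝ :=
  ∑ j : Fin (30 * d.K + d.K) → Fin d.n, ul (hyperfilter ℕ) fun L'' => ul d.U fun m =>
    avgP 2 m fun p => d.s p *
      ∫ ω in A, |Av d.T' 1 L (d.FF p j) (e.g ω) - Av d.T' 1 L'' (d.FF p j) (e.g ω)| ∂e.P

/-- the defect of the first moment, on the set `A` -/
noncomputable def E4 (L : ℕ) (A : Set e.Ω) : ℝ :=
  2 / (L : ℝ) * ∑ l ∈ range L, ∫ ω in A, e.mv l ω ∂e.P +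
  ∑ a, ∑ b, ∫ ω in A, |Av d.T' 1 L (d.gg a b) (e.g ω) -
    (d.P'[d.gg a b | Inv d.T' 1]) (e.g ω)| ∂e.P

/-- all the defects, on the set `A` -/
noncomputable def EE (L L₂ N : ℕ) (ε : ℝ) (A : Set e.Ω) : ℝ :=
  2 * La d.U d.s e.P e.T e.ys d.Bad A +
  2 * (31 * (d.K : ℝ)) / (L : ℝ) * ∑ l ∈ range L, ∫ ω in A, e.mv l ω ∂e.P + e.E2 L A +
  30 * (d.K : ℝ) * e.E4 L₂ A +
  2 * (30 * (d.K : ℝ)) ^ 2 * (4 * ∑ r ∈ range N, ∫ ω in A, e.mv r ω ∂e.P + ε * e.P.real A)

end SxE

end Pool.Agent.H28.LF
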