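import Pool.Agent.H28.LF.T1
import Pool.Agent.H28.LF.T2

/-!
Project LF: targets for the sections 6 and 7 of `H28_LF.md` (the descent, the end).
-/

set_option autoImplicit false

open MeasureTheory ProbabilityTheory Filter Topology Finset
open scoped Nat ENNReal

namespace Pool.Agent.H28.LF

open Pool.Agent.H24.T2 (Pset)
open Pool.Agent.H67.AG (avgP ul Inv Rt Av SA kap JJ TT InvZ nxt triv tow XN PN TN XX PX TX prX Fac)
open Pool.Agent.H40.AG (QQ dg)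

/-- D1: the mass of the classes is constant. -/
def T_D1 : Prop := ∀ (c : Ux) (Z : SA c.X), InvZ c.T Z → c.CP Z →
  ∃ c₀ : ℝ, 0 < c₀ ∧ c₀ ≤ 1 ∧ ∀ᵐ x ∂c.μ, c₀ ≤ (kap c.μ Z x).real {x' | (x', x) ∈ c.Eqv}

/-- D2: different sequences differ in a long window. -/
def T_D2 : Prop := ∀ (c : Ux) (Z : SA c.X) (θ : ℝ), InvZ c.T Z → 0 < θ →
  ∃ Λ₀ : ℕ, ∀ Λ, Λ₀ ≤ Λ → ∀ l : ℕ,
    (JJ c.μ Z).real {p | p ∉ c.Eqv ∧ ∀ i, l ≤ i → i < l + Λ →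
      c.a (c.T^[i] p.1) = c.a (c.T^[i] p.2)} ≤ θ

/-- D3: choice of the law of the nearby points (as `T_CHR`). -/
def T_D3 : Prop := ∀ (c : Ux) (Z : SA c.X) (Λ : ℕ) (θ : ℝ), InvZ c.T Z → 0 < θ →
  ∃ R : Measure (c.X × c.X), IsProbabilityMeasure R ∧ MeasurePreserving (TT c.T) R R ∧
    R ≪ JJ c.μ Z ∧ MeasurePreserving Prod.fst R c.μ ∧ MeasurePreserving Prod.snd R c.μ ∧
    ∫ q, ∑ v, |(kap c.μ (nxt c.μ c.T Z) q.1).real (c.wd Λ ⁻¹' {v}) -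
      (kap c.μ (nxt c.μ c.T Z) q.2).real (c.wd Λ ⁻¹' {v})| ∂(R) ≤ θ

/-- D4: the word of the last point is found (as `T_GGP`; from `T_RPC`, `T_NCO`, `T_PXL`). -/
def T_D4 : Prop := ∀ (c : Ux) (Z : SA c.X) (c₀ : ℝ) (Λ n : ℕ)
  (R : Measure (c.X × c.X)) [IsProbabilityMeasure R] (θ : ℝ), InvZ c.T Z → 0 < c₀ → c₀ ≤ 1 →
  (∀ᵐ x ∂c.μ, c₀ ≤ (kap c.μ Z x).real {x' | (x', x) ∈ c.Eqv}) →
  MeasurePreserving Prod.fst R c.μ → MeasurePreserving Prod.snd R c.μ →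
  ∫ q, ∑ v, |(kap c.μ Z q.1).real (c.wd Λ ⁻¹' {v}) -
    (kap c.μ Z q.2).real (c.wd Λ ⁻¹' {v})| ∂(R) ≤ θ →
  (PX c.μ Z (n + 1) R).real (c.NF Λ n) ≤ (1 - c₀) ^ (n + 1) + θ

/-- D5: two references which look equal are equal, with high probability. -/
def T_D5 : Prop := ∀ (c : Ux) (Z : SA c.X) (Λ l n : ℕ) (R : Measure (c.X × c.X))
  [IsProbabilityMeasure R] (θ : ℝ), InvZ c.T Z →
  MeasurePreserving Prod.fst R c.μ → MeasurePreserving Prod.snd R c.μ →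
  (JJ c.μ Z).real {p | p ∉ c.Eqv ∧ ∀ i, l ≤ i → i < Λ →
    c.a (c.T^[i] p.1) = c.a (c.T^[i] p.2)} ≤ θ →
  (PX c.μ Z (n + 1) R).real (c.FE Λ l n) ≤ ((n : ℝ) + 1) ^ 2 * θ

/-- D6: the selection changes slowly, and the selected reference has the symbol of the last
point. -/
def T_D6 : Prop := ∀ (c : Ux) (Λ l L n : ℕ) (P : Measure (XX c.X (n + 1)))
  [IsProbabilityMeasure P], MeasurePreserving (TX c.T (n + 1)) P P → 0 < Λ → l ≤ L →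
  Measurable (c.sel Λ n) ∧
  P.real {p | c.sel Λ n ((TX c.T (n + 1))^[l] p) ≠ c.sel Λ n p} ≤
    2 * P.real (c.NF Λ n) + P.real (c.FE Λ L n) ∧
  P.real {p | c.a (p.2.1 (c.sel Λ n p)) ≠ c.a p.2.2} ≤ P.real (c.NF Λ n)

/-- D8: the switching lemma for the references (from `T_XSW`; the reference system is
`XN c.X (n + 1)`, `PN`, `TN`, with `y b = a (x_b)`, `e a b = {(x_a, x_b) ∈ Eqv}`). `η` does not
depend on `Z` and `n`. -/
def T_D8 : Prop := ∀ (c : Ux) (K : ℕ) (m₀ ε : ℝ), 0 < K →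
  0 < m₀ → m₀ ≤ 1 → c.Sep m₀ → 0 < ε →
  ∃ η : ℝ, 0 < η ∧ ∀ (Z : SA c.X) (n : ℕ), InvZ c.T Z → ∃ L₁ : ℕ,
    ∀ (Λ : ℕ) (R : Measure (c.X × c.X)) [IsProbabilityMeasure R],
      MeasurePreserving Prod.fst R c.μ → MeasurePreserving Prod.snd R c.μ →
      MeasurePreserving (TT c.T) R R →
      (∀ l ≤ L₁, (PX c.μ Z (n + 1) R).real
        {p | c.sel Λ n ((TX c.T (n + 1))^[l] p) ≠ c.sel Λ n p} ≤ η) →
      (PX c.μ Z (n + 1) R).real {p | ∀ b : Fin (n + 1), c.γ * m₀ / (240 * K) <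
        ((PX c.μ Z (n + 1) R)[{p : XX c.X (n + 1) |
          (p.2.1 (c.sel Λ n p), p.2.1 b) ∉ c.Eqv}.indicator (fun _ => (1 : ℝ)) |
            Inv (TX c.T (n + 1)) 1]) p} ≤
        32 / (c.γ * m₀) ^ 2 * La c.U c.s (PX c.μ Z (n + 1) R) (TX c.T (n + 1))
          (fun p => c.a (p.2.1 (c.sel Λ n p))) (c.Bad K (30 * K)) Set.univ + ε

/-- D9: the last step of the descent. -/
def T_D9 : Prop := ∀ (c : Ux) (Z : SA c.X) (n Λ : ℕ) (R : Measure (c.X × c.X))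
  [IsProbabilityMeasure R] (m₀ ps : ℝ), InvZ c.T Z → InvZ c.T (nxt c.μ c.T Z) →
  0 < m₀ → m₀ ≤ 1 → c.Sep m₀ → 0 < Λ →
  MeasurePreserving (TT c.T) R R → R ≪ JJ c.μ Z → MeasurePreserving Prod.fst R c.μ →
  MeasurePreserving Prod.snd R c.μ → 0 ≤ ps → ps ≤ m₀ / 8 →
  (PX c.μ (nxt c.μ c.T Z) (n + 1) R).real
    {p | c.a (p.2.1 (c.sel Λ n p)) ≠ c.a p.2.2} ≤ m₀ / 8 →
  (PX c.μ (nxt c.μ c.T Z) (n + 1) R).real {p | ∀ b : Fin (n + 1), ps <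
    ((PX c.μ (nxt c.μ c.T Z) (n + 1) R)[{p : XX c.X (n + 1) |
      (p.2.1 (c.sel Λ n p), p.2.1 b) ∉ c.Eqv}.indicator (fun _ => (1 : ℝ)) |
        Inv (TX c.T (n + 1)) 1]) p} ≤ 1 / 2 →
  c.CP Z

/-- DSC: the descent. -/
def T_DSC : Prop := ∀ (c : Ux) (Z : SA c.X), InvZ c.T Z → c.CP (nxt c.μ c.T Z) → c.CP Z

/-- ENX: the last step. -/
def T_ENX : Prop := ∀ c : Ux, ¬ c.CP (triv c.X)

/-- ERG: there are no data. -/
theorem erg_of (h1 : T_TOP) (h2 : T_DSC) (h3 : T_ENX) (hT : Pool.Agent.H67.AG.T_TW) :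
    IsEmpty Ux := by
  refine ⟨fun c => ?_⟩
  obtain ⟨J, hJ⟩ := h1 c
  have key : ∀ j : ℕ, j ≤ J → c.CP (tow c.μ c.T (J - j)) := by
    intro j
    induction j with
    | zero => intro _; exact hJ
    | succ j ih =>
      intro hj
      have h := ih (by omega)
      have e : J - j = (J - (j + 1)) + 1 := by omega
      rw [e, Pool.Agent.H67.AG.tow_succ] at h
      exact h2 c _ (hT c.X c.μ c.T c.erg _) h
  have h0 := key J le_rfl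
  rw [Nat.sub_self, Pool.Agent.H67.AG.tow_zero] at h0
  exact h3 c h0

end Pool.Agent.H28.LF
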