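import Pool.Agent.H28.LF.FD
import Pool.Agent.H28.LF.T3

/-!
Project LF: targets for section 8 of `H28_LF.md` (front end) and for the corollaries.
-/

set_option autoImplicit false

open MeasureTheory ProbabilityTheory Filter Topology Finset
open scoped Nat ENNReal

namespace Pool.Agent.H28.LF

open Pool.Agent.H24.MR (lam FinAddInv)
open Pool.Agent.H24.T2 (Pset MRprop)
open Pool.Agent.H28.MCL (ldB Aw)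
open Pool.Agent.H67.AG (avgP ul Inv Rt Av)

/-! ### 8.1: windows and labels -/

/-- WIN: disjoint long windows on which the local statement fails. -/
def T_WIN : Prop := ∀ u : Bool × Bool → ℂ, Um u → ¬ ThmU u →
  ∃ (ε : ℝ) (H x y : ℕ → ℕ), 0 < ε ∧ (∀ j, j < H j) ∧
    (∀ j, 0 < x j ∧ x j ≤ y j ∧ y j < x (j + 1)) ∧
    (∀ j : ℕ, (j : ℝ) * H j ≤ Real.log ((y j : ℝ) / x j)) ∧
    ∀ j, ε * Real.log ((y j : ℝ) / x j) ≤ ∑ n ∈ Icc (x j) (y j), SB u (H j) n / n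

/-- THV: binary digits. -/
def T_THV : Prop := Continuous thv ∧ (∀ b, 0 ≤ thv b ∧ thv b ≤ 1) ∧
  ∀ θ : ℝ, ∃ b : ℕ → Bool, ∀ k : ℕ, em (k * thv b) = em (k * θ)

/-- SBX: the supremum over the frequencies. -/
def T_SBX : Prop := ∀ u : Bool × Bool → ℂ, (∀ b, ‖u b‖ = 1) → ∀ K n : ℕ,
  (∀ θ, ‖mw u K θ n‖ ≤ SB u K n) ∧ 0 ≤ SB u K n ∧ SB u K n ≤ 1 ∧
  ∃ b : ℕ → Bool, SB u K n / 2 ≤ ‖mw u K (thv b) n‖

/-- BLI: a long mean is controlled by short means. -/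
def T_BLI : Prop := ∀ u : Bool × Bool → ℂ, (∀ b, ‖u b‖ = 1) → ∀ (K H : ℕ) (θ : ℝ) (n : ℕ), 0 < K →
  H * ‖mw u H θ n‖ ≤ ∑ h ∈ range H, ‖mw u K θ (n + h)‖ + 2 * K

open Classical in
/-- WBL: labels on one window. -/
def T_WBL : Prop := ∀ u : Bool × Bool → ℂ, Um u → ∀ H x y : ℕ, 0 < H → 0 < x → x ≤ y →
  ∃ τ : ℕ → ℕ → Bool,
    ∑ n ∈ (Icc x y).filter (fun n => τ n ≠ τ (n + 1)), (1 : ℝ) / n ≤
      1 + Real.log ((y : ℝ) / x) / H ∧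
    ∀ K : ℕ, 0 < K → (∑ n ∈ Icc x y, SB u H n / n) / 2 ≤
      ∑ n ∈ Icc x y, ‖mw u K (thv (τ n)) n‖ / n + H + 2 * K * (1 + Real.log ((y : ℝ) / x) / H)

/-- LBL: the labels. -/
def T_LBL : Prop := ∀ u : Bool × Bool → ℂ, Um u → ¬ ThmU u →
  ∃ (ε : ℝ) (U : Ultrafilter ℕ) (x y : ℕ → ℕ) (τ : ℕ → ℕ → Bool), 0 < ε ∧ Aw U x y ∧
    ldB U x y {n | τ n ≠ τ (n + 1)} = 0 ∧
    ∀ K : ℕ, 0 < K → ε ≤ ldB U x y {n | ε ≤ ‖mw u K (thv (τ n)) n‖}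

/-! ### 8.3: the `n`-side -/

/-- SHP: the shift invariant measure which belongs to a finitely additive measure. -/
def T_SHP : Prop := ∀ (A : Type) [TopologicalSpace A] [CompactSpace A] [T2Space A]
  [TotallyDisconnectedSpace A] [SecondCountableTopology A] [MeasurableSpace A] [BorelSpace A]
  (μ : Set ℕ → ℝ) (l : ℕ → A), FinAddInv μ →
  ∃ P : Measure (SS A), IsProbabilityMeasure P ∧ MeasurePreserving (shS A) P P ∧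
    (∀ C : Set (SS A), IsClopen C → P.real C = μ {n | ptS l n ∈ C}) ∧
    ∀ C : Set (SS A), IsClosed C → μ {n | ptS l n ∈ C} ≤ P.real C

/-- SYX: the measure on the `n`-side. -/
def T_SYX : Prop := ∀ (u : Bool × Bool → ℂ) (ε : ℝ) (U : Ultrafilter ℕ) (x y : ℕ → ℕ)
  (τ : ℕ → ℕ → Bool), (∀ b, ‖u b‖ = 1) → Aw U x y → ldB U x y {n | τ n ≠ τ (n + 1)} = 0 →
  (∀ K : ℕ, 0 < K → ε ≤ ldB U x y {n | ε ≤ ‖mw u K (thv (τ n)) n‖}) →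
  ∃ PX : Measure Xi, SysX u ε PX ∧
    ∀ C : Set Xi, IsClopen C → PX.real C = ldB U x y {n | ptS (lX τ) n ∈ C}

/-- MEA: the limit of the local means (mean ergodic theorem for `ψ ↦ e(-θ) u(b₁) ψ ∘ T`). -/
def T_MEA : Prop := ∀ (u : Bool × Bool → ℂ) (ε : ℝ) (PX : Measure Xi), (∀ b, ‖u b‖ = 1) →
  SysX u ε PX → ∃ m : Xi → ℂ, Measurable m ∧ (∀ᵐ ξ ∂PX, ‖m ξ‖ ≤ 1) ∧
    (∀ᵐ ξ ∂PX, em (thX ξ) * u (wX ξ 0) * m (shX ξ) = m ξ) ∧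
    Tendsto (fun K => ∫ ξ, ‖mm u K (thX ξ) (wX ξ) 0 - m ξ‖ ^ 2 ∂PX) atTop (𝓝 0)

/-- BKX: the invariant set and the bad sets of the `n`-side (`c = ε² / 4`, `γ₀ = ε² / 2`). -/
def T_BKX : Prop := ∀ (u : Bool × Bool → ℂ) (ε : ℝ) (PX : Measure Xi), (∀ b, ‖u b‖ = 1) →
  0 < ε → SysX u ε PX → ∃ (c γ₀ : ℝ) (F : Set Xi), 0 < c ∧ 0 < γ₀ ∧ MeasurableSet F ∧
    shX ⁻¹' F = F ∧ γ₀ ≤ PX.real F ∧ ∀ z : ℝ, 0 < z → ∃ Bk : ℕ → Set Xi, BkX u PX F c z Bk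

/-! ### 8.5: the `y`-side -/

/-- YEX: the measure on the `y`-side exists. -/
def T_YEX : Prop := ∀ (U : Ultrafilter ℕ) (x y : ℕ → ℕ) (τ : ℕ → ℕ → Bool), Aw U x y →
  ∃ P : Measure Yi, LwY U x y τ P

/-- YLW: the law of the points of the `n`-side, with and without divisibility. -/
def T_YLW : Prop := ∀ (U : Ultrafilter ℕ) (x y : ℕ → ℕ) (τ : ℕ → ℕ → Bool) (PX : Measure Xi)
  (P : Measure Yi), Aw U x y → IsProbabilityMeasure PX →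
  (∀ C : Set Xi, IsClopen C → PX.real C = ldB U x y {n | ptS (lX τ) n ∈ C}) → LwY U x y τ P →
  ∀ p : ℕ, p.Prime → MeasurePreserving (xiY p) P PX ∧
    ∀ C : Set Xi, MeasurableSet C → P.real (flY p ∩ xiY p ⁻¹' C) = PX.real C / p

/-- YRL: the relation along the primes. -/
def T_YRL : Prop := ∀ (U : Ultrafilter ℕ) (x y : ℕ → ℕ) (τ : ℕ → ℕ → Bool) (P : Measure Yi),
  Aw U x y → LwY U x y τ P →
  ∀ p : ℕ, p.Prime → ∀ j : ℕ, 0 < j → P.real (flY p ∩ ExY p j) ≤ 1 / (p : ℝ) ^ 2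

/-- YST: steps of the points of the `n`-side, divisibility. -/
def T_YST : Prop := ∀ (U : Ultrafilter ℕ) (x y : ℕ → ℕ) (τ : ℕ → ℕ → Bool) (P : Measure Yi),
  Aw U x y → LwY U x y τ P →
  (∀ p : ℕ, p.Prime → ∀ᵐ ω ∂P,
    xiY p (shY ω) = xiY p ω ∨ xiY p (shY ω) = shX (xiY p ω)) ∧
  (∀ p : ℕ, p.Prime → ∀ᵐ ω ∂P, ω ∈ flY p → xiY p (shY^[p] ω) = shX (xiY p ω)) ∧
  ∀ d : ℕ, 0 < d → ∀ᵐ ω ∂P, (ω ∈ flY d ↔ shY^[d] ω ∈ flY d) ∧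
    ∃! i : ℕ, i < d ∧ shY^[i] ω ∈ flY d

/-- YSQ: squares of primes. -/
def T_YSQ : Prop := ∀ (U : Ultrafilter ℕ) (x y : ℕ → ℕ) (τ : ℕ → ℕ → Bool) (P : Measure Yi),
  Aw U x y → LwY U x y τ P →
  ∀ᵐ ω ∂P, ((btY ω).2 = false ↔ ∃ p : ℕ, p.Prime ∧ ω ∈ flY (p ^ 2))

/-- YMR: the theorem of Matomaki and Radziwill on the `y`-side. -/
def T_YMR : Prop := ∀ (U : Ultrafilter ℕ) (x y : ℕ → ℕ) (τ : ℕ → ℕ → Bool) (P : Measure Yi),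
  Aw U x y → LwY U x y τ P →
  ∀ W : ℕ, 0 < W → ∀ ε : ℝ, 0 < ε → ∃ h₀ : ℕ, ∀ h, h₀ ≤ h →
    P.real {ω | ε * h ≤ |∑ y ∈ range h, sg (btY (shY^[W * y] ω)).1|} ≤ ε

/-! ### 8.6: components -/

/-- CMP: ergodic components. -/
def T_CMP : Prop := ∀ (u : Bool × Bool → ℂ) (ε : ℝ) (PX : Measure Xi) (P : Measure Yi),
  SysX u ε PX → SysY PX P → ∃ κ : Kernel Yi Yi, IsMarkovKernel κ ∧
    (∀ B, MeasurableSet B → P B = ∫⁻ ω, κ ω B ∂P) ∧ ∀ᵐ ω ∂P, CompY (κ ω)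

/-- DVS: densities on a component. -/
def T_DVS : Prop := ∀ ν : Measure Yi, CompY ν →
  (∀ d : ℕ, 0 < d → ν.real (flY d) = 1 / d) ∧ 1 / 4 ≤ ν.real {ω | (btY ω).2 = true}

/-- NPC: the letters are not periodic on a component. -/
def T_NPC : Prop := ∀ (u : Bool × Bool → ℂ) (ix : Bool × Bool → Fin 4) (ν : Measure Yi),
  Um u → Ix u ix → CompY ν → ∀ r : ℕ, 0 < r →
    ¬ ∀ᵐ ω ∂ν, ix (ng (btY (shY^[r] ω))) = ix (ng (btY ω))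

/-- COD: good words have no isolated mismatch. -/
def T_COD : Prop := ∀ (u : Bool × Bool → ℂ) (ix : Bool × Bool → Fin 4) (c z ζ : ℝ) (K L : ℕ)
  (θ : ℝ), Um u → Ix u ix → 0 < c → 0 < ζ → 0 ≤ z → 5 * z < c * ζ →
  (∀ b b', u b ≠ u b' → ζ ≤ ‖u b - u b'‖) → Code K L (BadW u ix c z K L θ)

/-! ### 8.7: decoupling -/

/-- DCN: entropy decrement for words in an arbitrary alphabet, on `ℕ`. -/
def T_DCN : Prop := ∀ (α : Type) [Fintype α] (R m₀ : ℕ) (θ ρ : ℝ), 0 < θ → 0 < ρ →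
  ∃ (M : Finset ℕ) (wt : ℕ → ℝ),
    (∀ m ∈ M, m₀ ≤ m ∧ (Pset 2 m).Nonempty ∧ 0 ≤ wt m) ∧ ∑ m ∈ M, wt m = 1 ∧
    ∀ ν : Set ℕ → ℝ, FinAddInv ν → ∀ a : ℕ → α, ∀ B ⊆ M, (∀ m ∈ B, ¬ DcN a R θ ν m) →
      ∑ m ∈ B, wt m ≤ ρ

/-- DCC: entropy decrement for words, on ergodic systems with divisibility sets. -/
def T_DCC : Prop := ∀ (α : Type) [Fintype α] [MeasurableSpace α] [MeasurableSingletonClass α]
  (R m₀ : ℕ) (θ ρ : ℝ), 0 < θ → 0 < ρ →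
  ∃ (M : Finset ℕ) (wt : ℕ → ℝ),
    (∀ m ∈ M, m₀ ≤ m ∧ (Pset 2 m).Nonempty ∧ 0 ≤ wt m) ∧ ∑ m ∈ M, wt m = 1 ∧
    ∀ (Ω : Type) [MeasurableSpace Ω] (κ : Measure Ω) [IsProbabilityMeasure κ] (T : Ω ≃ᵐ Ω)
      (a : Ω → α) (fl : ℕ → Set Ω), Ergodic T κ → Measurable a → (∀ p, MeasurableSet (fl p)) →
      (∀ p : ℕ, p.Prime → ∀ᵐ ω ∂κ, (ω ∈ fl p ↔ T^[p] ω ∈ fl p) ∧
        ∃! i : ℕ, i < p ∧ T^[i] ω ∈ fl p) →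
      ∀ B ⊆ M, (∀ m ∈ B, ¬ DcO T a fl R θ κ m) → ∑ m ∈ B, wt m ≤ ρ

/-! ### 8.8: selection of the component and of the scales -/

/-- SDM: measurability of the set of the components which decouple. -/
def T_SDM : Prop := ∀ (κ : Kernel Yi Yi) [IsMarkovKernel κ] (R m : ℕ) (θ : ℝ),
  MeasurableSet {ω | DcO shY btY flY R θ (κ ω) m}

/-- SDN: the primes with a flag on the components. -/
def T_SDN : Prop := ∀ (PX : Measure Xi) (P : Measure Yi) (F : Set Xi) (κ : Kernel Yi Yi)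
  [IsMarkovKernel κ] (γ₀ : ℝ) (m : ℕ), IsProbabilityMeasure PX → SysY PX P → MeasurableSet F →
  shX ⁻¹' F = F → γ₀ ≤ PX.real F → (∀ B, MeasurableSet B → P B = ∫⁻ ω, κ ω B ∂P) →
  (∀ᵐ ω ∂P, CompY (κ ω)) → (Pset 2 m).Nonempty →
  MeasurableSet {ω | γ₀ / 2 ≤ avgP 2 m (sY F (κ ω))} ∧
    γ₀ / 2 ≤ P.real {ω | γ₀ / 2 ≤ avgP 2 m (sY F (κ ω))}

/-- SEB: the exceptional sets on the components (Markov's inequality). -/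
def T_SEB : Prop := ∀ (PX : Measure Xi) (P : Measure Yi) (B : ℕ → Set Xi) (κ : Kernel Yi Yi)
  [IsMarkovKernel κ] (γ₀ : ℝ) (i m : ℕ), IsProbabilityMeasure PX → SysY PX P →
  (∀ r, MeasurableSet (B r)) → (∀ r, PX.real (B r) ≤ γ₀ / (64 * 4 ^ r)) →
  (∀ B, MeasurableSet B → P B = ∫⁻ ω, κ ω B ∂P) → 0 < γ₀ → (Pset 2 m).Nonempty →
  64 * ((i : ℝ) + 1) ^ 3 ≤ γ₀ * 2 ^ m →
  MeasurableSet {ω | (∀ r : ℕ,
      avgP 2 m (fun p => p * (κ ω).real (flY p ∩ xiY p ⁻¹' (B r))) ≤ 1 / 2 ^ r) ∧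
    ∀ j : ℕ, 0 < j → j ≤ i →
      avgP 2 m (fun p => p * (κ ω).real (flY p ∩ ExY p j)) ≤ 1 / ((i : ℝ) + 1) ^ 2} ∧
  1 - γ₀ / 16 ≤ P.real {ω | (∀ r : ℕ,
      avgP 2 m (fun p => p * (κ ω).real (flY p ∩ xiY p ⁻¹' (B r))) ≤ 1 / 2 ^ r) ∧
    ∀ j : ℕ, 0 < j → j ≤ i →
      avgP 2 m (fun p => p * (κ ω).real (flY p ∩ ExY p j)) ≤ 1 / ((i : ℝ) + 1) ^ 2}

/-- SEL: a component with infinitely many good scales. -/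
def T_SEL : Prop := ∀ (PX : Measure Xi) (P : Measure Yi) (F : Set Xi) (B : ℕ → Set Xi)
  (κ : Kernel Yi Yi) [IsMarkovKernel κ] (γ₀ : ℝ), IsProbabilityMeasure PX → SysY PX P →
  MeasurableSet F → shX ⁻¹' F = F → 0 < γ₀ → γ₀ ≤ PX.real F → (∀ r, MeasurableSet (B r)) →
  (∀ r, PX.real (B r) ≤ γ₀ / (64 * 4 ^ r)) → (∀ B, MeasurableSet B → P B = ∫⁻ ω, κ ω B ∂P) →
  (∀ᵐ ω ∂P, CompY (κ ω)) → ∀ S : Set Yi, (∀ᵐ ω ∂P, ω ∈ S) →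
  ∃ ω ∈ S, ∃ᶠ i in atTop, ∃ m, GoodC F B γ₀ (κ ω) i m

/-! ### The data on a component -/

/-- THC: the frequency and the flag are constant on a component. -/
def T_THC : Prop := ∀ (ν : Measure Yi) (F : Set Xi), CompY ν → MeasurableSet F → shX ⁻¹' F = F →
  ∀ p : ℕ, p.Prime → (∃ t : ℝ, ∀ᵐ ω ∂ν, thX (xiY p ω) = t) ∧
    (ν.real (xiY p ⁻¹' F) = 0 ∨ ν.real (xiY p ⁻¹' F) = 1)

/-- TPL: translation by `p L` on the multiples of `p`. -/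
def T_TPL : Prop := ∀ (ν : Measure Yi) (p L : ℕ) (B : Set Xi), CompY ν → p.Prime →
  MeasurableSet B →
  ν.real (flY p ∩ {ω | shX^[L] (xiY p ω) ∈ B}) = ν.real (flY p ∩ xiY p ⁻¹' B)

/-- WBD: bad words on the multiples of one prime. -/
def T_WBD : Prop := ∀ (u : Bool × Bool → ℂ) (ix : Bool × Bool → Fin 4) (c z t : ℝ)
  (ν : Measure Yi) (F B : Set Xi) (K L p : ℕ), CompY ν → p.Prime → MeasurableSet B →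
  (∀ᵐ ω ∂ν, thX (xiY p ω) = t) → (∀ᵐ ω ∂ν, xiY p ω ∈ F) →
  (∀ᵐ ω ∂ν, xiY p ω ∈ F → xiY p ω ∉ B → shX^[L] (xiY p ω) ∉ B →
    GdW u c z K L (thX (xiY p ω)) (wX (xiY p ω))) →
  ν.real (flY p ∩ {ω | Wd shY (fun ω => ix (ng (btY ω))) (L + K) p ω ∈ BadW u ix c z K L t}) ≤
    2 * ν.real (flY p ∩ xiY p ⁻¹' B) + ∑ j ∈ Icc 1 (L + K), ν.real (flY p ∩ ExY p j)

/-- RLY: the relation on average over the primes of a good scale. -/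
def T_RLY : Prop := ∀ (u : Bool × Bool → ℂ) (ix : Bool × Bool → Fin 4) (c z γ₀ : ℝ)
  (ν : Measure Yi) (F : Set Xi) (B : ℕ → Set Xi) (θ : ℕ → ℝ) (K L i m r : ℕ), CompY ν →
  MeasurableSet F → (∀ r, MeasurableSet (B r)) →
  (∀ p : ℕ, p.Prime → ∀ᵐ ω ∂ν, thX (xiY p ω) = θ p) →
  (∀ p : ℕ, p.Prime → ∀ᵐ ω ∂ν, xiY p ω ∈ F → xiY p ω ∉ B r → shX^[L] (xiY p ω) ∉ B r →
    GdW u c z K L (thX (xiY p ω)) (wX (xiY p ω))) →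
  L + K ≤ i → GoodC F B γ₀ ν i m →
  avgP 2 m (fun p => sY F ν p *
    ν.real {ω | Wd shY (fun ω => ix (ng (btY ω))) (L + K) p ω ∈ BadW u ix c z K L (θ p)}) ≤
  20 / 2 ^ r + 12 / ((i : ℝ) + 1)

/-- UXY: the data. -/
def T_UXY : Prop := ∀ (u : Bool × Bool → ℂ) (ix : Bool × Bool → Fin 4) (c z ζ γ₀ : ℝ)
  (ν : Measure Yi) (F : Set Xi) (B : ℕ → Set Xi) (Kr : ℕ → ℕ), Um u → Ix u ix → 0 < c → 0 < ζ →
  0 ≤ z → 5 * z < c * ζ → (∀ b b', u b ≠ u b' → ζ ≤ ‖u b - u b'‖) → 0 < γ₀ → CompY ν →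
  MeasurableSet F → shX ⁻¹' F = F → (∀ r, MeasurableSet (B r)) → (∀ r, 0 < Kr r) →
  (∀ r L p : ℕ, p.Prime → ∀ᵐ ω ∂ν, xiY p ω ∈ F → xiY p ω ∉ B r → shX^[L] (xiY p ω) ∉ B r →
    GdW u c z (Kr r) L (thX (xiY p ω)) (wX (xiY p ω))) →
  (∃ᶠ i in atTop, ∃ m, GoodC F B γ₀ ν i m) → Nonempty Ux

/-! ### Corollaries -/

/-- CR1: Parseval. -/
def T_CR1 : Prop := ∀ u : Bool × Bool → ℂ, (∀ b, ‖u b‖ = 1) → ∀ (K n : ℕ) (w : ℕ → ℂ), 0 < K →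
  (∀ h, ‖w h‖ ≤ 1) →
  (∑ k ∈ Icc 1 K, ‖(∑ h ∈ Icc 1 K, w h * Fk u k (n + h)) / K‖) / K ≤ 2 * SB u (2 * K) n

/-- CR2: short windows with arbitrary weights. -/
def T_CR2 : Prop := ∀ u : Bool × Bool → ℂ, Um u → ThmU u → ∀ ε : ℝ, 0 < ε → ∃ K₀ : ℕ,
  ∀ K, K₀ ≤ K → ∃ C : ℕ, ∀ (x y : ℕ) (w : ℕ → ℕ → ℂ), 0 < x → C * x ≤ y →
    (∀ n h, ‖w n h‖ ≤ 1) →
    ∑ n ∈ Icc x y, (1 / (n : ℝ)) *
      ((∑ k ∈ Icc 1 K, ‖(∑ h ∈ Icc 1 K, w n h * Fk u k (n + h)) / K‖) / K) ≤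
      ε * Real.log ((y : ℝ) / x)

/-- CR3: the sums up to `N` with arbitrary weights. -/
def T_CR3 : Prop := ∀ u : Bool × Bool → ℂ, Um u → ThmU u → ∀ ε : ℝ, 0 < ε → ∃ K₀ : ℕ,
  ∀ K, K₀ ≤ K → ∃ C : ℕ, ∀ (x y : ℕ) (w : ℕ → ℕ → ℂ), 0 < x → C * x ≤ y →
    (∀ N n, ‖w N n‖ ≤ 1) →
    ∑ N ∈ Icc x y, (1 / (N : ℝ)) *
      ((∑ k ∈ Icc 1 K, ‖(∑ n ∈ Icc 1 N, w N n * Fk u k n) / N‖) / K) ≤
      ε * Real.log ((y : ℝ) / x)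

end Pool.Agent.H28.LF
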