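import Pool.Agent.H28.LF.F1

/-!
Project LF: targets for the strong form of the corollaries (uniform in the window, products of
several intervals).
-/

set_option autoImplicit false

open MeasureTheory ProbabilityTheory Filter Topology Finset
open scoped Nat ENNReal

namespace Pool.Agent.H28.LF

/-- Theorem U for the function `u`, uniform in the length `K ≤ 2 x` of the windows -/
def ThmU2 (u : Bool × Bool → ℂ) : Prop :=
  ∀ ε : ℝ, 0 < ε → ∃ K₀ : ℕ, 0 < K₀ ∧ ∀ K x y : ℕ, K₀ ≤ K → K ≤ 2 * x → K₀ * x ≤ y →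
    ∑ n ∈ Icc x y, SB u K n / n ≤ ε * Real.log ((y : ℝ) / x)

/-- UN2: uniformity in the length of the windows. -/
def T_UN2 : Prop := ∀ u : Bool × Bool → ℂ, Um u → ThmU u → ThmU2 u

/-- CRE: products of `j` intervals with a common end, short windows. -/
def T_CRE : Prop := ∀ u : Bool × Bool → ℂ, (∀ b, ‖u b‖ = 1) → ∀ (K n j : ℕ) (w : ℕ → ℂ), 0 < K →
  0 < j → (∀ h, ‖w h‖ ≤ 1) →
  (∑ k : Fin j → Fin K,
    ‖(∑ h ∈ Icc 1 K, w h * ∏ i, Fk u ((k i : ℕ) + 1) (n + h)) / K‖) / (K : ℝ) ^ j ≤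
    Real.sqrt (2 * SB u (2 * K) n)

/-- CR5: products of `j` intervals with a common end, sums up to `N` with arbitrary weights. -/
def T_CR5 : Prop := ∀ u : Bool × Bool → ℂ, Um u → ThmU2 u → ∀ ε : ℝ, 0 < ε → ∃ K₀ : ℕ, 0 < K₀ ∧
  ∀ (K x y j : ℕ) (w : ℕ → ℕ → ℂ), K₀ ≤ K → K ≤ x → K₀ * x ≤ y → 0 < j →
    (∀ N n, ‖w N n‖ ≤ 1) →
    ∑ N ∈ Icc x y, (1 / (N : ℝ)) * ((∑ k : Fin j → Fin K,
      ‖(∑ n ∈ Icc 1 N, w N n * ∏ i, Fk u ((k i : ℕ) + 1) n) / N‖) / (K : ℝ) ^ j) ≤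
      ε * Real.log ((y : ℝ) / x)

/-- CR6: products of `j` intervals with a common end, short intervals with arbitrary weights. -/
def T_CR6 : Prop := ∀ u : Bool × Bool → ℂ, Um u → ThmU2 u → ∀ ε : ℝ, 0 < ε → ∃ K₀ : ℕ, 0 < K₀ ∧
  ∀ (K x y j : ℕ) (w : ℕ → ℕ → ℂ), K₀ ≤ K → K ≤ x → K₀ * x ≤ y → 0 < j →
    (∀ n h, ‖w n h‖ ≤ 1) →
    ∑ n ∈ Icc x y, (1 / (n : ℝ)) * ((∑ k : Fin j → Fin K,
      ‖(∑ h ∈ Icc 1 K, w n h * ∏ i, Fk u ((k i : ℕ) + 1) (n + h)) / K‖) / (K : ℝ) ^ j) ≤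
      ε * Real.log ((y : ℝ) / x)

end Pool.Agent.H28.LF
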