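import Pool.Agent.H28.LF.Defs
import Pool.Agent.H28.MCL.Targets
import Pool.Agent.H24.UG.T9

/-!
Project LF: definitions for the front end (section 8 of `H28_LF.md`).
-/

set_option autoImplicit false

open MeasureTheory ProbabilityTheory Filter Topology Finset
open scoped Nat ENNReal

namespace Pool.Agent.H28.LF

open Pool.Agent.H24.MR (lam FinAddInv)
open Pool.Agent.H24.T2 (Pset MRprop)
open Pool.Agent.H28.MCL (ldB Aw)
open Pool.Agent.H67.AG (avgP ul Inv Rt Av)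

/-! ### the functions -/

/-- the letter of a number: (`λ(n) = 1`, `μ(n) ≠ 0`) -/
noncomputable def lt (n : ℕ) : Bool × Bool :=
  (decide (lam n = 1), decide (ArithmeticFunction.moebius n ≠ 0))

/-- change of the sign of `λ` -/
def ng (b : Bool × Bool) : Bool × Bool := (!b.1, b.2)

/-- admissible functions of letters -/
def Um (u : Bool × Bool → ℂ) : Prop := (∀ b, ‖u b‖ = 1) ∧ u (true, true) ≠ u (false, true)

/-- `e (-t)` -/
noncomputable def em (t : ℝ) : ℂ := Complex.exp (-(2 * Real.pi * Complex.I * t))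

/-- the product of `k` consecutive values, `F_k(n) = u(n+1) ⋯ u(n+k)` -/
noncomputable def Fk (u : Bool × Bool → ℂ) (k n : ℕ) : ℂ := ∏ i ∈ range k, u (lt (n + i + 1))

/-- the local Fourier mean with window `K` and frequency `θ` -/
noncomputable def mw (u : Bool × Bool → ℂ) (K : ℕ) (θ : ℝ) (n : ℕ) : ℂ :=
  (∑ k ∈ range K, em ((k + 1) * θ) * Fk u (k + 1) n) / K

/-- the supremum over the frequencies -/
noncomputable def SB (u : Bool × Bool → ℂ) (K n : ℕ) : ℝ := ⨆ θ : ℝ, ‖mw u K θ n‖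

/-- **Theorem U** for the function `u` -/
def ThmU (u : Bool × Bool → ℂ) : Prop :=
  ∀ ε : ℝ, 0 < ε → ∃ K₀ : ℕ, ∀ K, K₀ ≤ K → ∃ C : ℕ, ∀ x y : ℕ, 0 < x → C * x ≤ y →
    ∑ n ∈ Icc x y, SB u K n / n ≤ ε * Real.log ((y : ℝ) / x)

/-- the number with the binary digits `b` -/
noncomputable def thv (b : ℕ → Bool) : ℝ := ∑' s : ℕ, (if b s then (1 : ℝ) else 0) / 2 ^ (s + 1)

/-! ### shift spaces -/

/-- two-sided sequences -/
abbrev SS (A : Type) : Type := ℤ → A

/-- the shift -/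
def shS (A : Type) [TopologicalSpace A] : SS A ≃ₜ SS A where
  toFun ω := fun t => ω (t + 1)
  invFun ω := fun t => ω (t - 1)
  left_inv ω := by simp
  right_inv ω := by simp
  continuous_toFun := by fun_prop
  continuous_invFun := by fun_prop

/-- the point which belongs to the number `n` -/
def ptS {A : Type} (l : ℕ → A) (n : ℕ) : SS A := fun t => l ((n : ℤ) + t).toNat

/-- letters of the `n`-side: letter and digits of the frequency -/
abbrev LX : Type := (Bool × Bool) × (ℕ → Bool)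

/-- the `n`-side -/
abbrev Xi : Type := SS LX

/-- letters of the `y`-side: letter, divisibility by the primes, point of the `n`-side of `y / p` -/
abbrev LY : Type := (Bool × Bool) × (ℕ → Bool) × (ℕ → Xi)

/-- the `y`-side -/
abbrev Yi : Type := SS LY

instance borelLX : BorelSpace LX := Prod.borelSpace

instance borelXi : BorelSpace Xi := inferInstance

instance borelLY : BorelSpace LY := by
  have h1 : BorelSpace (ℕ → Xi) := inferInstance
  have h2 : BorelSpace ((ℕ → Bool) × (ℕ → Xi)) := Prod.borelSpace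
  exact Prod.borelSpace

instance sccLY : SecondCountableTopology LY := inferInstance

instance borelYi : BorelSpace Yi := Pi.borelSpace

instance stdXi : StandardBorelSpace Xi := inferInstance

instance stdLY : StandardBorelSpace LY := inferInstance

instance stdYi : StandardBorelSpace Yi := by
  have h : PolishSpace Yi := inferInstance
  exact standardBorel_of_polish

/-- the shift on the `n`-side -/
def shX : Xi ≃ᵐ Xi := (shS LX).toMeasurableEquiv

/-- the shift on the `y`-side -/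
def shY : Yi ≃ᵐ Yi := (shS LY).toMeasurableEquiv

/-- the letters of the `n`-side of a number, with the labels `τ` -/
noncomputable def lX (τ : ℕ → ℕ → Bool) (n : ℕ) : LX := (lt n, τ n)

/-- the letters of the `y`-side of a number, with the labels `τ` -/
noncomputable def lY (τ : ℕ → ℕ → Bool) (y : ℕ) : LY :=
  (lt y, fun p => decide (p ∣ y), fun p => ptS (lX τ) (y / p))

/-- the frequency of a point of the `n`-side -/
noncomputable def thX (ξ : Xi) : ℝ := thv (ξ 0).2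

/-- the letter of a point of the `y`-side -/
def btY (ω : Yi) : Bool × Bool := (ω 0).1

/-- divisibility by `p` -/
def flY (p : ℕ) : Set Yi := {ω | (ω 0).2.1 p = true}

/-- the point of the `n`-side -/
def xiY (p : ℕ) (ω : Yi) : Xi := (ω 0).2.2 p

/-- the sign of a Boolean -/
noncomputable def sg (b : Bool) : ℝ := if b then 1 else -1

/-! ### words -/

/-- product of the values of the first `j` letters after the place `l` -/
noncomputable def Pr (u : Bool × Bool → ℂ) (w : ℕ → Bool × Bool) (l j : ℕ) : ℂ :=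
  ∏ i ∈ range j, u (w (l + i))

/-- the local Fourier mean of a word at the place `l` -/
noncomputable def mm (u : Bool × Bool → ℂ) (K : ℕ) (θ : ℝ) (w : ℕ → Bool × Bool) (l : ℕ) : ℂ :=
  (∑ k ∈ range K, em ((k + 1) * θ) * Pr u w l (k + 1)) / K

/-- good words: the local Fourier means at the places `0` and `L` are compatible, up to `z` -/
def GdW (u : Bool × Bool → ℂ) (c z : ℝ) (K L : ℕ) (θ : ℝ) (w : ℕ → Bool × Bool) : Prop :=
  c ≤ ‖mm u K θ w 0‖ ∧ ‖em (L * θ) * Pr u w 0 L * mm u K θ w L - mm u K θ w 0‖ ≤ z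

/-- the word of a point of the `n`-side (places `1, 2, ...`) -/
def wX (ξ : Xi) (i : ℕ) : Bool × Bool := (ξ (i + 1)).1

/-- indices of the values of `u` -/
def Ix (u : Bool × Bool → ℂ) (ix : Bool × Bool → Fin 4) : Prop := ∀ b b', ix b = ix b' ↔ u b = u b'

/-- the bad words of indices -/
def BadW (u : Bool × Bool → ℂ) (ix : Bool × Bool → Fin 4) (c z : ℝ) (K L : ℕ) (θ : ℝ) :
    Set (Fin (L + K) → Fin 4) :=
  {v | ¬ ∃ w : ℕ → Bool × Bool, (∀ i : Fin (L + K), v i = ix (w i)) ∧ GdW u c z K L θ w}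

/-! ### the measures -/

/-- the measure on the `n`-side -/
structure SysX (u : Bool × Bool → ℂ) (ε : ℝ) (PX : Measure Xi) : Prop where
  prob : IsProbabilityMeasure PX
  inv : MeasurePreserving shX PX PX
  lab : ∀ᵐ ξ ∂PX, (ξ 0).2 = (ξ 1).2
  big : ∀ K : ℕ, 0 < K → ε ≤ PX.real {ξ | ε ≤ ‖mm u K (thX ξ) (wX ξ) 0‖}

/-- the exceptional multiples of `p` -/
def ExY (p j : ℕ) : Set Yi := {ω | btY (shY^[p * j] ω) ≠ ng (xiY p ω j).1}

/-- the measure on the `y`-side -/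
structure SysY (PX : Measure Xi) (P : Measure Yi) : Prop where
  prob : IsProbabilityMeasure P
  inv : MeasurePreserving shY P P
  law : ∀ p : ℕ, p.Prime → MeasurePreserving (xiY p) P PX
  div : ∀ p : ℕ, p.Prime → ∀ C : Set Xi, MeasurableSet C →
    P.real (flY p ∩ xiY p ⁻¹' C) = PX.real C / p
  rel : ∀ p : ℕ, p.Prime → ∀ j : ℕ, 0 < j → P.real (flY p ∩ ExY p j) ≤ 1 / (p : ℝ) ^ 2
  stp : ∀ p : ℕ, p.Prime → ∀ᵐ ω ∂P, xiY p (shY ω) = xiY p ω ∨ xiY p (shY ω) = shX (xiY p ω)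
  stf : ∀ p : ℕ, p.Prime → ∀ᵐ ω ∂P, ω ∈ flY p → xiY p (shY^[p] ω) = shX (xiY p ω)
  per : ∀ d : ℕ, 0 < d → ∀ᵐ ω ∂P, (ω ∈ flY d ↔ shY^[d] ω ∈ flY d) ∧
    ∃! i : ℕ, i < d ∧ shY^[i] ω ∈ flY d
  sqf : ∀ᵐ ω ∂P, ((btY ω).2 = false ↔ ∃ p : ℕ, p.Prime ∧ ω ∈ flY (p ^ 2))
  mr : ∀ W : ℕ, 0 < W → ∀ ε : ℝ, 0 < ε → ∃ h₀ : ℕ, ∀ h, h₀ ≤ h →
    P.real {ω | ε * h ≤ |∑ y ∈ range h, sg (btY (shY^[W * y] ω)).1|} ≤ ε

/-- properties of almost every ergodic component of the measure on the `y`-side -/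
structure CompY (ν : Measure Yi) : Prop where
  prob : IsProbabilityMeasure ν
  erg : Ergodic shY ν
  mr : ∀ W : ℕ, 0 < W → ν[fun ω => sg (btY ω).1 | Inv shY W] =ᵐ[ν] 0
  lab : ∀ p : ℕ, p.Prime → ∀ᵐ ω ∂ν, (xiY p ω 0).2 = (xiY p ω 1).2
  stp : ∀ p : ℕ, p.Prime → ∀ᵐ ω ∂ν, xiY p (shY ω) = xiY p ω ∨ xiY p (shY ω) = shX (xiY p ω)
  stf : ∀ p : ℕ, p.Prime → ∀ᵐ ω ∂ν, ω ∈ flY p → xiY p (shY^[p] ω) = shX (xiY p ω)
  per : ∀ d : ℕ, 0 < d → ∀ᵐ ω ∂ν, (ω ∈ flY d ↔ shY^[d] ω ∈ flY d) ∧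
    ∃! i : ℕ, i < d ∧ shY^[i] ω ∈ flY d
  sqf : ∀ᵐ ω ∂ν, ((btY ω).2 = false ↔ ∃ p : ℕ, p.Prime ∧ ω ∈ flY (p ^ 2))

/-- the law of a measure on the `y`-side in terms of the logarithmic density -/
structure LwY (U : Ultrafilter ℕ) (x y : ℕ → ℕ) (τ : ℕ → ℕ → Bool) (P : Measure Yi) : Prop where
  prob : IsProbabilityMeasure P
  inv : MeasurePreserving shY P P
  clo : ∀ C : Set Yi, IsClopen C → P.real C = ldB U x y {n | ptS (lY τ) n ∈ C}
  cls : ∀ C : Set Yi, IsClosed C → ldB U x y {n | ptS (lY τ) n ∈ C} ≤ P.real C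

/-- the bad sets of the `n`-side for the tolerance `z`: outside of them the words are good -/
structure BkX (u : Bool × Bool → ℂ) (PX : Measure Xi) (F : Set Xi) (c z : ℝ) (Bk : ℕ → Set Xi) :
    Prop where
  meas : ∀ K, MeasurableSet (Bk K)
  lim : Tendsto (fun K => PX.real (Bk K)) atTop (𝓝 0)
  good : ∀ K L : ℕ, 0 < K → ∀ᵐ ξ ∂PX, ξ ∈ F → ξ ∉ Bk K → shX^[L] ξ ∉ Bk K →
    GdW u c z K L (thX ξ) (wX ξ)

/-! ### decoupling -/

/-- words in an arbitrary alphabet -/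
def Wa {Ω α : Type} (T : Ω → Ω) (a : Ω → α) (R p : ℕ) (ω : Ω) : Fin R → α :=
  fun i => a (T^[p * ((i : ℕ) + 1)] ω)

/-- decoupling at the scale `m` for a finitely additive measure on `ℕ` -/
def DcN {α : Type} (a : ℕ → α) (R : ℕ) (θ : ℝ) (ν : Set ℕ → ℝ) (m : ℕ) : Prop :=
  ∃ X : Finset ℕ, (X.card : ℝ) ≤ θ * (Pset 2 m).card ∧ ∀ p ∈ Pset 2 m, p ∉ X →
    ∀ G : Set (Fin R → α), ν {y | Wa Nat.succ a R p y ∈ G} ≤
      10 * (p * ν {y | p ∣ y ∧ Wa Nat.succ a R p y ∈ G}) + θ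

/-- decoupling at the scale `m` for a measure preserving system with divisibility sets `fl` -/
def DcO {Ω α : Type} [MeasurableSpace Ω] (T : Ω → Ω) (a : Ω → α) (fl : ℕ → Set Ω) (R : ℕ) (θ : ℝ)
    (κ : Measure Ω) (m : ℕ) : Prop :=
  ∃ X : Finset ℕ, (X.card : ℝ) ≤ θ * (Pset 2 m).card ∧ ∀ p ∈ Pset 2 m, p ∉ X →
    ∀ G : Set (Fin R → α), κ.real {ω | Wa T a R p ω ∈ G} ≤
      10 * (p * κ.real (fl p ∩ {ω | Wa T a R p ω ∈ G})) + θ

open Classical in
/-- the flag of the prime `p` on a component -/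
noncomputable def sY (F : Set Xi) (ν : Measure Yi) (p : ℕ) : ℝ :=
  if ν.real (xiY p ⁻¹' F) = 1 then 1 else 0

/-- the scale `m` is good for the component `ν` up to `1 / i` -/
structure GoodC (F : Set Xi) (B : ℕ → Set Xi) (γ₀ : ℝ) (ν : Measure Yi) (i m : ℕ) : Prop where
  le : i ≤ m
  ne : (Pset 2 m).Nonempty
  dens : γ₀ / 2 ≤ avgP 2 m (sY F ν)
  bad : ∀ r : ℕ, avgP 2 m (fun p => p * ν.real (flY p ∩ xiY p ⁻¹' (B r))) ≤ 1 / 2 ^ r
  exc : ∀ j : ℕ, 0 < j → j ≤ i →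
    avgP 2 m (fun p => p * ν.real (flY p ∩ ExY p j)) ≤ 1 / ((i : ℝ) + 1) ^ 2
  dec : DcO shY btY flY i (1 / ((i : ℝ) + 1)) ν m

end Pool.Agent.H28.LF
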