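import Pool.Agent.H91.LF.Basic
import Pool.Agent.H67.LF.Sup

/-!
# Module [KAT]: irrational frequencies on short intervals (Daboussi, Katai)
-/

set_option autoImplicit false

open Finset Filter Topology

namespace Pool.Agent.H28.LF.K

open Pool.Agent.H91.LF
open Pool.Agent.H24.MR (lam)
open Pool.Agent.H67.LF (ex win norm_ex ex_add)
open scoped ComplexConjugate

/-! ### Counting multiples -/

theorem count_mul (d : ℕ) (hd : 0 < d) (N : ℕ) :
    N ≤ d * ((range N).filter (fun m => d ∣ m)).card ∧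
      d * ((range N).filter (fun m => d ∣ m)).card < N + d := by
  induction N with
  | zero => simp [hd]
  | succ N ih =>
    rw [Finset.range_add_one, Finset.filter_insert]
    obtain ⟨h1, h2⟩ := ih
    by_cases hN : d ∣ N
    · rw [if_pos hN, Finset.card_insert_of_notMem (by simp)]
      obtain ⟨k, rfl⟩ := hN
      set c := ((range (d * k)).filter (fun m => d ∣ m)).card
      have h3 : k ≤ c := Nat.le_of_mul_le_mul_left h1 hd
      have h4 : c < k + 1 := by
        have : d * c < d * (k + 1) := by rw [mul_add, mul_one]; exact h2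
        exact lt_of_mul_lt_mul_left this (Nat.zero_le d)
      have h5 : c = k := by omega
      rw [h5, mul_add, mul_one]
      omega
    · rw [if_neg hN]
      set c := ((range N).filter (fun m => d ∣ m)).card
      have h3 : N ≠ d * c := fun h => hN ⟨c, h⟩
      omega

theorem count_ge (d : ℕ) (hd : 0 < d) (N : ℕ) :
    (N : ℝ) / d ≤ ((range N).filter (fun m => d ∣ m)).card := by
  have hd' : (0:ℝ) < d := by exact_mod_cast hd
  rw [div_le_iff₀ hd']
  have := (count_mul d hd N).1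
  have h : ((N : ℕ) : ℝ) ≤ ((d * ((range N).filter (fun m => d ∣ m)).card : ℕ) : ℝ) := by
    exact_mod_cast this
  push_cast at h
  linarith

theorem count_le (d : ℕ) (hd : 0 < d) (N : ℕ) :
    (((range N).filter (fun m => d ∣ m)).card : ℝ) ≤ (N : ℝ) / d + 1 := by
  have hd' : (0:ℝ) < d := by exact_mod_cast hd
  have := (count_mul d hd N).2
  have h : ((d * ((range N).filter (fun m => d ∣ m)).card : ℕ) : ℝ) ≤ ((N + d : ℕ) : ℝ) := by
    exact_mod_cast this.le
  push_cast at h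
  have e : (N : ℝ) / d + 1 = (N + d) / d := by field_simp
  rw [e, le_div_iff₀ hd']
  linarith

/-! ### Turan, Kubilius -/

/-- The centred indicator of the multiples of `p`. -/
noncomputable def cd (p m : ℕ) : ℝ := (if p ∣ m then 1 else 0) - 1 / (p : ℝ)

theorem sum_ind (d N : ℕ) : ∑ m ∈ range N, (if d ∣ m then (1:ℝ) else 0) =
    ((range N).filter (fun m => d ∣ m)).card := by
  rw [Finset.sum_ite]
  simp

theorem tk_pair (p q : ℕ) (hp : p.Prime) (hq : q.Prime) (hpq : p ≠ q) (N : ℕ) :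
    ∑ m ∈ range N, cd p m * cd q m ≤ 1 := by
  have hp' : (0:ℝ) < p := by exact_mod_cast hp.pos
  have hq' : (0:ℝ) < q := by exact_mod_cast hq.pos
  have h1 : ∀ m ∈ range N, cd p m * cd q m = (if p * q ∣ m then 1 else 0) -
      (1 / (q : ℝ)) * (if p ∣ m then 1 else 0) - (1 / (p : ℝ)) * (if q ∣ m then 1 else 0) +
      1 / ((p : ℝ) * q) := by
    intro m _
    have hdvd : p * q ∣ m ↔ p ∣ m ∧ q ∣ m := by
      constructor
      · intro h
        exact ⟨(Dvd.intro _ rfl).trans h, (Dvd.intro_left _ rfl).trans h⟩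
      · rintro ⟨h1, h2⟩
        exact Nat.Coprime.mul_dvd_of_dvd_of_dvd ((Nat.coprime_primes hp hq).2 hpq) h1 h2
    unfold cd
    by_cases h1 : p ∣ m <;> by_cases h2 : q ∣ m <;>
      simp only [hdvd, h1, h2, and_self, and_true, true_and, and_false, false_and, if_true,
        if_false] <;> field_simp <;> ring
  rw [Finset.sum_congr rfl h1, Finset.sum_add_distrib, Finset.sum_sub_distrib,
    Finset.sum_sub_distrib, ← Finset.mul_sum, ← Finset.mul_sum, sum_ind, sum_ind, sum_ind,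
    Finset.sum_const, card_range, nsmul_eq_mul]
  have a1 := count_le (p * q) (Nat.mul_pos hp.pos hq.pos) N
  have a2 := count_ge p hp.pos N
  have a3 := count_ge q hq.pos N
  have b2 : (1 / (q : ℝ)) * ((N : ℝ) / p) ≤
      (1 / (q : ℝ)) * ((range N).filter (fun m => p ∣ m)).card :=
    mul_le_mul_of_nonneg_left a2 (by positivity)
  have b3 : (1 / (p : ℝ)) * ((N : ℝ) / q) ≤
      (1 / (p : ℝ)) * ((range N).filter (fun m => q ∣ m)).card :=
    mul_le_mul_of_nonneg_left a3 (by positivity)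
  have c1 : (1 / (q : ℝ)) * ((N : ℝ) / p) = (N : ℝ) / (p * q) := by field_simp
  have c2 : (1 / (p : ℝ)) * ((N : ℝ) / q) = (N : ℝ) / (p * q) := by field_simp
  have c3 : (N : ℝ) * (1 / ((p : ℝ) * q)) = (N : ℝ) / (p * q) := by field_simp
  push_cast at a1
  rw [c1] at b2
  rw [c2] at b3
  rw [c3]
  linarith

theorem tk_diag (p : ℕ) (hp : p.Prime) (N : ℕ) :
    ∑ m ∈ range N, cd p m * cd p m ≤ (N : ℝ) / p + 1 := by
  have hp' : (0:ℝ) < p := by exact_mod_cast hp.pos
  have h1 : ∀ m ∈ range N, cd p m * cd p m = (if p ∣ m then 1 else 0) -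
      (2 / (p : ℝ)) * (if p ∣ m then 1 else 0) + 1 / ((p : ℝ) * p) := by
    intro m _
    unfold cd
    by_cases h1 : p ∣ m <;> simp only [h1, if_true, if_false] <;> field_simp <;> ring
  rw [Finset.sum_congr rfl h1, Finset.sum_add_distrib, Finset.sum_sub_distrib,
    ← Finset.mul_sum, sum_ind, Finset.sum_const, card_range, nsmul_eq_mul]
  have a1 := count_le p hp.pos N
  have a2 := count_ge p hp.pos N
  have b2 : (2 / (p : ℝ)) * ((N : ℝ) / p) ≤
      (2 / (p : ℝ)) * ((range N).filter (fun m => p ∣ m)).card :=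
    mul_le_mul_of_nonneg_left a2 (by positivity)
  have c1 : (2 / (p : ℝ)) * ((N : ℝ) / p) = 2 * ((N : ℝ) / (p * p)) := by field_simp
  have c3 : (N : ℝ) * (1 / ((p : ℝ) * p)) = (N : ℝ) / (p * p) := by field_simp
  have c4 : (0:ℝ) ≤ (N : ℝ) / (p * p) := by positivity
  rw [c1] at b2
  rw [c3]
  linarith

theorem tk (S : Finset ℕ) (hS : ∀ p ∈ S, p.Prime) (N : ℕ) :
    ∑ m ∈ range N, (∑ p ∈ S, cd p m) ^ 2 ≤ N * ∑ p ∈ S, (1 / (p : ℝ)) + 2 * (S.card : ℝ) ^ 2 := by
  have e : ∑ m ∈ range N, (∑ p ∈ S, cd p m) ^ 2 =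
      ∑ p ∈ S, ∑ q ∈ S, ∑ m ∈ range N, cd p m * cd q m := by
    have : ∀ m ∈ range N, (∑ p ∈ S, cd p m) ^ 2 = ∑ p ∈ S, ∑ q ∈ S, cd p m * cd q m := by
      intro m _
      rw [sq, Finset.sum_mul_sum]
    rw [Finset.sum_congr rfl this, Finset.sum_comm]
    apply Finset.sum_congr rfl
    intro p _
    rw [Finset.sum_comm]
  rw [e]
  have h1 : ∀ p ∈ S, ∑ q ∈ S, ∑ m ∈ range N, cd p m * cd q m ≤
      (N : ℝ) / p + 1 + S.card := by
    intro p hp
    rw [← Finset.add_sum_erase S _ hp]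
    have h2 := tk_diag p (hS p hp) N
    have h3 : ∑ q ∈ S.erase p, ∑ m ∈ range N, cd p m * cd q m ≤ S.card := by
      calc _ ≤ ∑ q ∈ S.erase p, (1 : ℝ) := by
            apply Finset.sum_le_sum
            intro q hq
            obtain ⟨h4, h5⟩ := Finset.mem_erase.1 hq
            exact tk_pair p q (hS p hp) (hS q h5) (Ne.symm h4) N
        _ = ((S.erase p).card : ℝ) := by simp
        _ ≤ S.card := by exact_mod_cast Finset.card_le_card (Finset.erase_subset _ _)
    linarith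
  refine (Finset.sum_le_sum h1).trans ?_
  rw [Finset.sum_add_distrib, Finset.sum_add_distrib, Finset.sum_const, Finset.sum_const,
    nsmul_eq_mul, nsmul_eq_mul, mul_one]
  have e2 : ∑ p ∈ S, (N : ℝ) / p = N * ∑ p ∈ S, (1 / (p : ℝ)) := by
    rw [Finset.mul_sum]
    exact Finset.sum_congr rfl fun p _ => by ring
  rw [e2]
  have h6 : (S.card : ℝ) ≤ (S.card : ℝ) ^ 2 := by
    rcases Nat.eq_zero_or_pos S.card with h | h
    · rw [h]; simp
    · have : (1:ℝ) ≤ S.card := by exact_mod_cast h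
      nlinarith
  nlinarith

/-! ### The approximate eigenfunction -/

/-- The window sum over the integers. -/
noncomputable def Wz (H : ℕ) (β : ℝ) (n : ℤ) : ℂ :=
  ∑ y ∈ range H, (lz (n + y) : ℂ) * ex β y

theorem norm_lz_le (n : ℤ) : ‖(lz n : ℂ)‖ ≤ 1 := by
  rw [Complex.norm_real]
  exact abs_lz_le n

theorem norm_Wz_le (H : ℕ) (β : ℝ) (n : ℤ) : ‖Wz H β n‖ ≤ H := by
  unfold Wz
  refine (norm_sum_le _ _).trans ?_
  calc _ ≤ ∑ y ∈ range H, (1 : ℝ) := by
        apply Finset.sum_le_sum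
        intro y _
        rw [norm_mul, norm_ex, mul_one]
        exact norm_lz_le _
    _ = H := by simp

theorem Wz_succ (H : ℕ) (β : ℝ) (n : ℤ) :
    ‖ex β 1 * Wz H β (n + 1) - Wz H β n‖ ≤ 2 := by
  have h1 : ex β 1 * Wz H β (n + 1) =
      ∑ y ∈ range H, (fun y : ℕ => (lz (n + y) : ℂ) * ex β y) (y + 1) := by
    unfold Wz
    rw [Finset.mul_sum]
    apply Finset.sum_congr rfl
    intro y _
    simp only
    rw [add_comm y 1, ex_add]
    have : n + 1 + (y : ℤ) = n + ((1 + y : ℕ) : ℤ) := by push_cast; ring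
    rw [this]
    ring
  have h2 := Finset.sum_range_succ' (fun y : ℕ => (lz (n + y) : ℂ) * ex β y) H
  have h3 := Finset.sum_range_succ (fun y : ℕ => (lz (n + y) : ℂ) * ex β y) H
  have h4 : ex β 1 * Wz H β (n + 1) - Wz H β n =
      (lz (n + H) : ℂ) * ex β H - (lz (n + (0 : ℕ)) : ℂ) * ex β 0 := by
    rw [h1]
    unfold Wz
    have h5 := h2.symm.trans h3
    linear_combination h5
  rw [h4]
  refine (norm_sub_le _ _).trans ?_
  rw [norm_mul, norm_mul, norm_ex, norm_ex, mul_one, mul_one]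
  have h5 := norm_lz_le (n + H)
  have h6 := norm_lz_le (n + (0 : ℕ))
  linarith

theorem Wz_add (H : ℕ) (β : ℝ) (n : ℤ) (k : ℕ) :
    ‖ex β k * Wz H β (n + k) - Wz H β n‖ ≤ 2 * k := by
  induction k with
  | zero =>
    have : ex β 0 = 1 := by unfold ex; simp
    simp [this]
  | succ k ih =>
    have h1 := Wz_succ H β (n + k)
    have e : ex β (k + 1) * Wz H β (n + ((k + 1 : ℕ) : ℤ)) - Wz H β n =
        ex β k * (ex β 1 * Wz H β (n + k + 1) - Wz H β (n + k)) +
        (ex β k * Wz H β (n + k) - Wz H β n) := by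
      have : n + ((k + 1 : ℕ) : ℤ) = n + k + 1 := by push_cast; ring
      rw [this, ex_add]
      ring
    rw [e]
    refine (norm_add_le _ _).trans ?_
    rw [norm_mul, norm_ex, one_mul]
    push_cast
    linarith

/-- The averaged window sum. -/
noncomputable def Uz (H : ℕ) (β : ℝ) (n : ℤ) : ℂ :=
  ∑ y ∈ range H, conj (ex β y) * Wz H β (n - y)

theorem norm_Uz_le (H : ℕ) (β : ℝ) (n : ℤ) : ‖Uz H β n‖ ≤ H ^ 2 := by
  unfold Uz
  refine (norm_sum_le _ _).trans ?_
  calc _ ≤ ∑ y ∈ range H, (H : ℝ) := by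
        apply Finset.sum_le_sum
        intro y _
        rw [norm_mul, Complex.norm_conj, norm_ex, one_mul]
        exact norm_Wz_le _ _ _
    _ = H ^ 2 := by simp [sq]

theorem Uz_add (H : ℕ) (β : ℝ) (n : ℤ) (k : ℕ) :
    ‖ex β k * Uz H β (n + k) - Uz H β n‖ ≤ 2 * k * H := by
  have e : ex β k * Uz H β (n + k) - Uz H β n =
      ∑ y ∈ range H, conj (ex β y) * (ex β k * Wz H β (n - y + k) - Wz H β (n - y)) := by
    unfold Uz
    rw [Finset.mul_sum, ← Finset.sum_sub_distrib]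
    apply Finset.sum_congr rfl
    intro y _
    have : n + (k : ℤ) - y = n - y + k := by ring
    rw [this]
    ring
  rw [e]
  refine (norm_sum_le _ _).trans ?_
  calc _ ≤ ∑ y ∈ range H, (2 * k : ℝ) := by
        apply Finset.sum_le_sum
        intro y _
        rw [norm_mul, Complex.norm_conj, norm_ex, one_mul]
        exact Wz_add _ _ _ _
    _ = 2 * k * H := by simp [mul_comm]

theorem shift_sum_c (g : ℤ → ℂ) (C : ℝ) (hg : ∀ n, ‖g n‖ ≤ C) (N v : ℕ) :
    ‖∑ n ∈ range N, g (n + v) - ∑ n ∈ range N, g n‖ ≤ 2 * C * v := by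
  induction v with
  | zero => simp
  | succ v ih =>
    have h1 : ∑ n ∈ range N, g (n + ((v + 1 : ℕ) : ℤ)) - ∑ n ∈ range N, g (n + (v : ℤ)) =
        g (N + v) - g v := by
      rw [← Finset.sum_sub_distrib]
      have := Finset.sum_range_sub (fun n : ℕ => g ((n : ℤ) + v)) N
      simp only [Nat.cast_zero, zero_add] at this
      rw [← this]
      apply Finset.sum_congr rfl
      intro n _
      congr 2
      push_cast
      ring
    have e : ∑ n ∈ range N, g (n + ((v + 1 : ℕ) : ℤ)) - ∑ n ∈ range N, g n =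
        (∑ n ∈ range N, g (n + ((v + 1 : ℕ) : ℤ)) - ∑ n ∈ range N, g (n + (v : ℤ))) +
        (∑ n ∈ range N, g (n + (v : ℤ)) - ∑ n ∈ range N, g n) := by ring
    rw [e, h1]
    refine (norm_add_le _ _).trans ?_
    have h4 : ‖g ((N : ℤ) + v) - g v‖ ≤ 2 * C := by
      refine (norm_sub_le _ _).trans ?_
      have := hg (N + v)
      have := hg v
      linarith
    push_cast
    linarith

/-- The exact identity behind the proof. -/
theorem moment (H : ℕ) (β : ℝ) (N : ℕ) :
    ‖((∑ n ∈ range N, ‖Wz H β n‖ ^ 2 : ℝ) : ℂ) -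
      ∑ m ∈ range N, (lz m : ℂ) * conj (Uz H β m)‖ ≤ 2 * H ^ 3 := by
  set g : ℕ → ℤ → ℂ := fun y m => (lz m : ℂ) * (ex β y * conj (Wz H β (m - y))) with hg
  have hgb : ∀ y m, ‖g y m‖ ≤ H := by
    intro y m
    simp only [hg]
    rw [norm_mul, norm_mul, norm_ex, one_mul, Complex.norm_conj]
    calc _ ≤ 1 * (H : ℝ) := mul_le_mul (norm_lz_le _) (norm_Wz_le _ _ _) (norm_nonneg _)
          zero_le_one
      _ = H := one_mul _
  have e1 : ((∑ n ∈ range N, ‖Wz H β n‖ ^ 2 : ℝ) : ℂ) =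
      ∑ y ∈ range H, ∑ n ∈ range N, g y (n + y) := by
    push_cast
    rw [Finset.sum_comm]
    apply Finset.sum_congr rfl
    intro n _
    rw [← Complex.mul_conj']
    conv_lhs => rw [show Wz H β n * conj (Wz H β n) =
      (∑ y ∈ range H, (lz (n + y) : ℂ) * ex β y) * conj (Wz H β n) from rfl]
    rw [Finset.sum_mul]
    apply Finset.sum_congr rfl
    intro y _
    simp only [hg]
    rw [add_sub_cancel_right]
    ring
  have e2 : ∑ m ∈ range N, (lz m : ℂ) * conj (Uz H β m) =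
      ∑ y ∈ range H, ∑ n ∈ range N, g y n := by
    rw [Finset.sum_comm]
    apply Finset.sum_congr rfl
    intro m _
    unfold Uz
    rw [map_sum, Finset.mul_sum]
    apply Finset.sum_congr rfl
    intro y _
    simp only [hg, map_mul, Complex.conj_conj]
  rw [e1, e2, ← Finset.sum_sub_distrib]
  refine (norm_sum_le _ _).trans ?_
  calc _ ≤ ∑ y ∈ range H, (2 * (H : ℝ) * H) := by
        apply Finset.sum_le_sum
        intro y hy
        refine (shift_sum_c (g y) H (hgb y) N y).trans ?_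
        have : (y : ℝ) ≤ H := by exact_mod_cast (mem_range.1 hy).le
        gcongr
    _ = 2 * H ^ 3 := by
        rw [Finset.sum_const, card_range, nsmul_eq_mul]
        ring

/-- Off diagonal terms. -/
theorem offdiag (H : ℕ) (β : ℝ) (p q M K : ℕ) (hpK : p ≤ K) (hqK : q ≤ K) :
    ‖ex β p * conj (ex β q) - 1‖ *
      ‖∑ m ∈ range M, Uz H β ((p : ℤ) * m) * conj (Uz H β ((q : ℤ) * m))‖ ≤
      M * (4 * K * H ^ 3) + 2 * H ^ 4 := by
  set A : ℕ → ℂ := fun m => Uz H β ((p : ℤ) * m) * conj (Uz H β ((q : ℤ) * m)) with hA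
  set z : ℂ := ex β p * conj (ex β q) with hz
  have hH0 : (0:ℝ) ≤ H := by positivity
  have hAb : ∀ m, ‖A m‖ ≤ H ^ 4 := by
    intro m
    simp only [hA]
    rw [norm_mul, Complex.norm_conj]
    calc _ ≤ (H : ℝ) ^ 2 * H ^ 2 := mul_le_mul (norm_Uz_le _ _ _) (norm_Uz_le _ _ _)
          (norm_nonneg _) (by positivity)
      _ = H ^ 4 := by ring
  have hstep : ∀ m, ‖z * A (m + 1) - A m‖ ≤ 4 * K * H ^ 3 := by
    intro m
    have h1 := Uz_add H β ((p : ℤ) * m) p
    have h2 := Uz_add H β ((q : ℤ) * m) q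
    have e1 : ((p : ℤ) * ((m + 1 : ℕ) : ℤ)) = (p : ℤ) * m + p := by push_cast; ring
    have e2 : ((q : ℤ) * ((m + 1 : ℕ) : ℤ)) = (q : ℤ) * m + q := by push_cast; ring
    have e : z * A (m + 1) - A m =
        (ex β p * Uz H β ((p : ℤ) * m + p) - Uz H β ((p : ℤ) * m)) *
          conj (ex β q * Uz H β ((q : ℤ) * m + q)) +
        Uz H β ((p : ℤ) * m) *
          conj (ex β q * Uz H β ((q : ℤ) * m + q) - Uz H β ((q : ℤ) * m)) := by
      simp only [hA, hz, e1, e2, map_mul, map_sub]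
      ring
    rw [e]
    refine (norm_add_le _ _).trans ?_
    rw [norm_mul, norm_mul, Complex.norm_conj, Complex.norm_conj, norm_mul, norm_ex, one_mul]
    have b1 : ‖ex β p * Uz H β ((p : ℤ) * m + p) - Uz H β ((p : ℤ) * m)‖ *
        ‖Uz H β ((q : ℤ) * m + q)‖ ≤ (2 * K * H) * H ^ 2 := by
      apply mul_le_mul _ (norm_Uz_le _ _ _) (norm_nonneg _) (by positivity)
      refine h1.trans ?_
      have : (p : ℝ) ≤ K := by exact_mod_cast hpK
      gcongr
    have b2 : ‖Uz H β ((p : ℤ) * m)‖ *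
        ‖ex β q * Uz H β ((q : ℤ) * m + q) - Uz H β ((q : ℤ) * m)‖ ≤ H ^ 2 * (2 * K * H) := by
      apply mul_le_mul (norm_Uz_le _ _ _) _ (norm_nonneg _) (by positivity)
      refine h2.trans ?_
      have : (q : ℝ) ≤ K := by exact_mod_cast hqK
      gcongr
    calc _ ≤ (2 * K * H) * H ^ 2 + H ^ 2 * (2 * K * (H:ℝ)) := add_le_add b1 b2
      _ = 4 * K * H ^ 3 := by ring
  have key : (z - 1) * ∑ m ∈ range M, A m =
      ∑ m ∈ range M, (z * A (m + 1) - A m) - z * (A M - A 0) := by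
    rw [Finset.sum_sub_distrib, ← Finset.mul_sum, ← Finset.sum_range_sub A M,
      Finset.sum_sub_distrib]
    ring
  rw [← norm_mul, key]
  refine (norm_sub_le _ _).trans ?_
  have hz1 : ‖z‖ = 1 := by
    rw [hz, norm_mul, Complex.norm_conj, norm_ex, norm_ex, one_mul]
  have h3 : ‖∑ m ∈ range M, (z * A (m + 1) - A m)‖ ≤ M * (4 * K * H ^ 3) := by
    refine (norm_sum_le _ _).trans ?_
    refine (Finset.sum_le_sum (fun m _ => hstep m)).trans ?_
    simp
  have h4 : ‖z * (A M - A 0)‖ ≤ 2 * H ^ 4 := by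
    rw [norm_mul, hz1, one_mul]
    refine (norm_sub_le _ _).trans ?_
    have := hAb M
    have := hAb 0
    linarith
  linarith

end Pool.Agent.H28.LF.K
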