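import Pool.Agent.H28.LF.KAT

/-!
# Module [KAT]: assembly
-/

set_option autoImplicit false

open Finset Filter Topology

namespace Pool.Agent.H28.LF.K

open Pool.Agent.H91.LF
open Pool.Agent.H24.MR (lam)
open Pool.Agent.H67.LF (ex win norm_ex ex_add)
open scoped ComplexConjugate

/-- Multiples of `p` below `N`. -/
theorem dil {E : Type*} [AddCommMonoid E] (p : ℕ) (hp : 0 < p) (N : ℕ) (g : ℕ → E) :
    ∑ m ∈ range N, (if p ∣ m then g m else 0) =
      ∑ m ∈ range N, (if p * m < N then g (p * m) else 0) := by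
  rw [← Finset.sum_filter, ← Finset.sum_filter]
  refine Finset.sum_bij' (fun m _ => m / p) (fun m _ => p * m) ?_ ?_ ?_ ?_ ?_
  · intro m hm
    obtain ⟨h1, h2⟩ := mem_filter.1 hm
    have h3 := mem_range.1 h1
    rw [mem_filter, mem_range, Nat.mul_div_cancel' h2]
    exact ⟨(Nat.div_le_self m p).trans_lt h3, h3⟩
  · intro m hm
    obtain ⟨h1, h2⟩ := mem_filter.1 hm
    rw [mem_filter, mem_range]
    exact ⟨h2, Dvd.intro _ rfl⟩
  · intro m hm
    exact Nat.mul_div_cancel' (mem_filter.1 hm).2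
  · intro m _
    exact Nat.mul_div_cancel_left m hp
  · intro m hm
    rw [Nat.mul_div_cancel' (mem_filter.1 hm).2]

theorem count_dil (p : ℕ) (hp : 0 < p) (N : ℕ) :
    ∑ m ∈ range N, (if p * m < N then (1:ℝ) else 0) ≤ (N : ℝ) / p + 1 := by
  rw [← dil p hp N (fun _ => (1:ℝ)), sum_ind]
  exact count_le p hp N

theorem seg (r N : ℕ) (hr : 0 < r) : ∃ M, M ≤ N ∧ ∀ m, m < M ↔ (m < N ∧ r * m < N) := by
  refine ⟨(N + r - 1) / r, ?_, ?_⟩
  · rcases Nat.eq_zero_or_pos N with h | h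
    · subst h
      have : (0 + r - 1) / r = 0 := Nat.div_eq_of_lt (by omega)
      omega
    · have h1 : N + r - 1 ≤ N * r := by
        have h2 : (N - 1) * 1 ≤ (N - 1) * r := Nat.mul_le_mul_left _ hr
        have h3 : N * r = (N - 1) * r + r := by
          conv_lhs => rw [show N = (N - 1) + 1 by omega]
          ring
        omega
      calc (N + r - 1) / r ≤ (N * r) / r := Nat.div_le_div_right h1
        _ = N := Nat.mul_div_cancel _ hr
  · intro m
    have h1 : m < (N + r - 1) / r ↔ r * m < N := by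
      rw [← Nat.succ_le_iff, Nat.le_div_iff_mul_le hr]
      have : (m + 1) * r = r * m + r := by ring
      rw [Nat.succ_eq_add_one, this]
      omega
    rw [h1]
    constructor
    · intro h2
      refine ⟨?_, h2⟩
      have : m ≤ r * m := Nat.le_mul_of_pos_left m hr
      omega
    · exact fun h => h.2

/-- The sum over the primes. -/
noncomputable def VV (H : ℕ) (β : ℝ) (S : Finset ℕ) (N m : ℕ) : ℂ :=
  ∑ p ∈ S, if p * m < N then conj (Uz H β ((p : ℤ) * m)) else 0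

theorem VV_sq (H : ℕ) (β : ℝ) (S : Finset ℕ) (N K : ℕ) (δ : ℝ) (hδ : 0 < δ)
    (hS : ∀ p ∈ S, 0 < p) (hK : ∀ p ∈ S, p ≤ K)
    (hSδ : ∀ p ∈ S, ∀ q ∈ S, p ≠ q → δ ≤ ‖ex β p * conj (ex β q) - 1‖) :
    ∑ m ∈ range N, ‖VV H β S N m‖ ^ 2 ≤
      H ^ 4 * (N * ∑ p ∈ S, (1 / (p : ℝ)) + S.card) +
      (S.card : ℝ) ^ 2 * ((N * (4 * K * H ^ 3) + 2 * H ^ 4) / δ) := by
  set F : ℕ → ℕ → ℕ → ℂ := fun p q m => (if p * m < N then conj (Uz H β ((p : ℤ) * m)) else 0) *
    conj (if q * m < N then conj (Uz H β ((q : ℤ) * m)) else 0) with hF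
  have e1 : ((∑ m ∈ range N, ‖VV H β S N m‖ ^ 2 : ℝ) : ℂ) =
      ∑ p ∈ S, ∑ q ∈ S, ∑ m ∈ range N, F p q m := by
    push_cast
    have : ∀ m ∈ range N, ((‖VV H β S N m‖ : ℂ)) ^ 2 = ∑ p ∈ S, ∑ q ∈ S, F p q m := by
      intro m _
      rw [← Complex.mul_conj']
      unfold VV
      rw [map_sum, Finset.sum_mul_sum]
    rw [Finset.sum_congr rfl this, Finset.sum_comm]
    apply Finset.sum_congr rfl
    intro p _
    rw [Finset.sum_comm]
  have e2 : ∑ m ∈ range N, ‖VV H β S N m‖ ^ 2 =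
      ‖∑ p ∈ S, ∑ q ∈ S, ∑ m ∈ range N, F p q m‖ := by
    rw [← e1, Complex.norm_real, Real.norm_eq_abs, abs_of_nonneg]
    exact Finset.sum_nonneg fun m _ => by positivity
  rw [e2]
  have hdiag : ∀ p ∈ S, ‖∑ m ∈ range N, F p p m‖ ≤ H ^ 4 * ((N : ℝ) / p + 1) := by
    intro p hp
    refine (norm_sum_le _ _).trans ?_
    calc ∑ m ∈ range N, ‖F p p m‖ ≤ ∑ m ∈ range N, (H : ℝ) ^ 4 * (if p * m < N then 1 else 0) := by
          apply Finset.sum_le_sum
          intro m _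
          simp only [hF]
          split_ifs
          · rw [Complex.conj_conj, norm_mul, Complex.norm_conj, mul_one]
            calc _ ≤ (H : ℝ) ^ 2 * H ^ 2 := mul_le_mul (norm_Uz_le _ _ _) (norm_Uz_le _ _ _)
                  (norm_nonneg _) (by positivity)
              _ = H ^ 4 := by ring
          · simp
      _ = (H : ℝ) ^ 4 * ∑ m ∈ range N, (if p * m < N then (1:ℝ) else 0) := by
          rw [Finset.mul_sum]
      _ ≤ _ := mul_le_mul_of_nonneg_left (count_dil p (hS p hp) N) (by positivity)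
  have hoff : ∀ p ∈ S, ∀ q ∈ S, p ≠ q → ‖∑ m ∈ range N, F p q m‖ ≤
      (N * (4 * K * H ^ 3) + 2 * H ^ 4) / δ := by
    intro p hp q hq hpq
    obtain ⟨M, hM, hMm⟩ := seg (max p q) N (lt_of_lt_of_le (hS p hp) (le_max_left _ _))
    have e3 : ∑ m ∈ range N, F p q m =
        ∑ m ∈ range M, Uz H β ((q : ℤ) * m) * conj (Uz H β ((p : ℤ) * m)) := by
      have hsub : range M ⊆ range N := Finset.range_subset_range.2 hM
      rw [← Finset.sum_subset hsub]
      · apply Finset.sum_congr rfl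
        intro m hm
        have h1 := ((hMm m).1 (mem_range.1 hm)).2
        have h2 : p * m < N := lt_of_le_of_lt (Nat.mul_le_mul_right m (le_max_left p q)) h1
        have h3 : q * m < N := lt_of_le_of_lt (Nat.mul_le_mul_right m (le_max_right p q)) h1
        simp only [hF]
        rw [if_pos h2, if_pos h3, Complex.conj_conj, mul_comm]
      · intro m hm hm'
        have h1 : ¬ (max p q * m < N) := by
          intro h
          exact hm' (mem_range.2 ((hMm m).2 ⟨mem_range.1 hm, h⟩))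
        simp only [hF]
        rcases le_total p q with h | h
        · rw [max_eq_right h] at h1
          rw [if_neg h1]
          simp
        · rw [max_eq_left h] at h1
          rw [if_neg h1]
          simp
    rw [e3, le_div_iff₀ hδ]
    have h4 := offdiag H β q p M K (hK q hq) (hK p hp)
    have h5 := hSδ q hq p hp (Ne.symm hpq)
    have h6 : (M : ℝ) * (4 * K * H ^ 3) ≤ N * (4 * K * H ^ 3) := by
      have : (M : ℝ) ≤ N := by exact_mod_cast hM
      gcongr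
    calc _ ≤ ‖∑ m ∈ range M, Uz H β ((q : ℤ) * m) * conj (Uz H β ((p : ℤ) * m))‖ *
          ‖ex β q * conj (ex β p) - 1‖ := mul_le_mul_of_nonneg_left h5 (norm_nonneg _)
      _ ≤ _ := by rw [mul_comm]; linarith
  have hrow : ∀ p ∈ S, ‖∑ q ∈ S, ∑ m ∈ range N, F p q m‖ ≤ H ^ 4 * ((N : ℝ) / p + 1) +
      S.card * ((N * (4 * K * H ^ 3) + 2 * H ^ 4) / δ) := by
    intro p hp
    rw [← Finset.add_sum_erase S _ hp]
    refine (norm_add_le _ _).trans ?_
    apply add_le_add (hdiag p hp)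
    refine (norm_sum_le _ _).trans ?_
    calc _ ≤ ∑ q ∈ S.erase p, (N * (4 * K * H ^ 3) + 2 * H ^ 4) / δ := by
          apply Finset.sum_le_sum
          intro q hq
          obtain ⟨h1, h2⟩ := Finset.mem_erase.1 hq
          exact hoff p hp q h2 (Ne.symm h1)
      _ = ((S.erase p).card : ℝ) * ((N * (4 * K * H ^ 3) + 2 * H ^ 4) / δ) := by
          rw [Finset.sum_const, nsmul_eq_mul]
      _ ≤ _ := by
          have : ((S.erase p).card : ℝ) ≤ S.card := by
            exact_mod_cast Finset.card_le_card (Finset.erase_subset _ _)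
          gcongr
  refine (norm_sum_le _ _).trans ?_
  refine (Finset.sum_le_sum hrow).trans (le_of_eq ?_)
  rw [Finset.sum_add_distrib, ← Finset.mul_sum, Finset.sum_add_distrib, Finset.sum_const,
    Finset.sum_const, nsmul_eq_mul, nsmul_eq_mul, mul_one]
  have e4 : ∑ p ∈ S, (N : ℝ) / p = N * ∑ p ∈ S, (1 / (p : ℝ)) := by
    rw [Finset.mul_sum]
    exact Finset.sum_congr rfl fun p _ => by ring
  rw [e4]
  ring

/-- Cauchy-Schwarz for norms of complex sums. -/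
theorem cs (s : Finset ℕ) (f g : ℕ → ℂ) :
    ‖∑ m ∈ s, f m * g m‖ ^ 2 ≤ (∑ m ∈ s, ‖f m‖ ^ 2) * ∑ m ∈ s, ‖g m‖ ^ 2 := by
  have h1 : ‖∑ m ∈ s, f m * g m‖ ≤ ∑ m ∈ s, ‖f m‖ * ‖g m‖ := by
    refine (norm_sum_le _ _).trans (le_of_eq ?_)
    exact Finset.sum_congr rfl fun m _ => norm_mul _ _
  exact (pow_le_pow_left₀ (norm_nonneg _) h1 2).trans (Finset.sum_mul_sq_le_sq_mul_sq _ _ _)

/-- The main inequality. -/
theorem mainT (H : ℕ) (β : ℝ) (S : Finset ℕ) (N K : ℕ) (δ : ℝ) (hδ : 0 < δ)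
    (hS : ∀ p ∈ S, p.Prime) (hK : ∀ p ∈ S, p ≤ K)
    (hSδ : ∀ p ∈ S, ∀ q ∈ S, p ≠ q → δ ≤ ‖ex β p * conj (ex β q) - 1‖) :
    (∑ p ∈ S, (1 / (p : ℝ))) ^ 2 * ‖∑ m ∈ range N, (lz m : ℂ) * conj (Uz H β m)‖ ^ 2 ≤
      2 * ((N * H ^ 4) * (N * ∑ p ∈ S, (1 / (p : ℝ)) + 2 * (S.card : ℝ) ^ 2)) +
      2 * (N * (H ^ 4 * (N * ∑ p ∈ S, (1 / (p : ℝ)) + S.card) +
      (S.card : ℝ) ^ 2 * ((N * (4 * K * H ^ 3) + 2 * H ^ 4) / δ))) := by
  set L : ℝ := ∑ p ∈ S, (1 / (p : ℝ)) with hL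
  set f : ℕ → ℂ := fun m => (lz m : ℂ) * conj (Uz H β m) with hf
  have hfb : ∀ m, ‖f m‖ ≤ H ^ 2 := by
    intro m
    simp only [hf]
    rw [norm_mul, Complex.norm_conj]
    calc _ ≤ 1 * (H : ℝ) ^ 2 := mul_le_mul (norm_lz_le _) (norm_Uz_le _ _ _) (norm_nonneg _)
          zero_le_one
      _ = H ^ 2 := one_mul _
  set D : ℕ → ℝ := fun m => ∑ p ∈ S, cd p m with hD
  -- the decomposition
  have hdec : (L : ℂ) * ∑ m ∈ range N, f m =
      ∑ m ∈ range N, (-(lz m : ℂ)) * VV H β S N m - ∑ m ∈ range N, f m * (D m : ℂ) := by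
    have h1 : ∑ m ∈ range N, (-(lz m : ℂ)) * VV H β S N m =
        ∑ m ∈ range N, ∑ p ∈ S, (if p ∣ m then f m else 0) := by
      rw [Finset.sum_comm]
      have h2 : ∀ p ∈ S, ∑ m ∈ range N, (if p ∣ m then f m else 0) =
          ∑ m ∈ range N, (-(lz m : ℂ)) *
            (if p * m < N then conj (Uz H β ((p : ℤ) * m)) else 0) := by
        intro p hp
        rw [dil p (hS p hp).pos N f]
        apply Finset.sum_congr rfl
        intro m _
        split_ifs
        · simp only [hf]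
          have h3 : lz ((p * m : ℕ) : ℤ) = - lz m := by
            push_cast
            exact lz_prime_mul (hS p hp) m
          rw [h3]
          push_cast
          ring
        · simp
      rw [Finset.sum_congr rfl h2, Finset.sum_comm]
      apply Finset.sum_congr rfl
      intro m _
      unfold VV
      rw [Finset.mul_sum]
    rw [h1, ← Finset.sum_sub_distrib, Finset.mul_sum]
    apply Finset.sum_congr rfl
    intro m _
    have h2 : (D m : ℂ) = (∑ p ∈ S, (if p ∣ m then (1:ℂ) else 0)) - L := by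
      simp only [hD, hL]
      unfold cd
      push_cast
      rw [Finset.sum_sub_distrib]
      congr 1
      apply Finset.sum_congr rfl
      intro p _
      split_ifs <;> simp
    rw [h2]
    have h3 : ∑ p ∈ S, (if p ∣ m then f m else 0) =
        f m * ∑ p ∈ S, (if p ∣ m then (1:ℂ) else 0) := by
      rw [Finset.mul_sum]
      apply Finset.sum_congr rfl
      intro p _
      split_ifs <;> simp
    rw [h3]
    ring
  have hA1 : ‖∑ m ∈ range N, f m * (D m : ℂ)‖ ^ 2 ≤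
      (N * H ^ 4) * (N * L + 2 * (S.card : ℝ) ^ 2) := by
    refine (cs _ _ _).trans ?_
    have h1 : ∑ m ∈ range N, ‖f m‖ ^ 2 ≤ N * H ^ 4 := by
      calc _ ≤ ∑ m ∈ range N, (H : ℝ) ^ 4 := by
            apply Finset.sum_le_sum
            intro m _
            calc ‖f m‖ ^ 2 ≤ ((H : ℝ) ^ 2) ^ 2 := pow_le_pow_left₀ (norm_nonneg _) (hfb m) 2
              _ = H ^ 4 := by ring
        _ = _ := by simp
    have h2 : ∑ m ∈ range N, ‖(D m : ℂ)‖ ^ 2 ≤ N * L + 2 * (S.card : ℝ) ^ 2 := by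
      refine le_trans (le_of_eq ?_) (tk S hS N)
      apply Finset.sum_congr rfl
      intro m _
      rw [Complex.norm_real, Real.norm_eq_abs, sq_abs]
    exact mul_le_mul h1 h2 (Finset.sum_nonneg fun m _ => by positivity) (by positivity)
  have hA2 : ‖∑ m ∈ range N, (-(lz m : ℂ)) * VV H β S N m‖ ^ 2 ≤
      N * (H ^ 4 * (N * L + S.card) +
      (S.card : ℝ) ^ 2 * ((N * (4 * K * H ^ 3) + 2 * H ^ 4) / δ)) := by
    refine (cs _ _ _).trans ?_
    have h1 : ∑ m ∈ range N, ‖(-(lz m : ℂ))‖ ^ 2 ≤ N := by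
      calc _ ≤ ∑ m ∈ range N, (1 : ℝ) := by
            apply Finset.sum_le_sum
            intro m _
            rw [norm_neg]
            exact pow_le_one₀ (norm_nonneg _) (norm_lz_le _)
        _ = _ := by simp
    exact mul_le_mul h1 (VV_sq H β S N K δ hδ (fun p hp => (hS p hp).pos) hK hSδ)
      (Finset.sum_nonneg fun m _ => by positivity) (by positivity)
  have hL2 : L ^ 2 * ‖∑ m ∈ range N, f m‖ ^ 2 = ‖(L : ℂ) * ∑ m ∈ range N, f m‖ ^ 2 := by
    rw [norm_mul, Complex.norm_real, Real.norm_eq_abs, mul_pow, sq_abs]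
  rw [hL2, hdec]
  set X := ∑ m ∈ range N, (-(lz m : ℂ)) * VV H β S N m
  set Y := ∑ m ∈ range N, f m * (D m : ℂ)
  have h3 : ‖X - Y‖ ^ 2 ≤ 2 * ‖Y‖ ^ 2 + 2 * ‖X‖ ^ 2 := by
    have h4 : ‖X - Y‖ ≤ ‖X‖ + ‖Y‖ := norm_sub_le _ _
    have h5 : ‖X - Y‖ ^ 2 ≤ (‖X‖ + ‖Y‖) ^ 2 := pow_le_pow_left₀ (norm_nonneg _) h4 2
    nlinarith [sq_nonneg (‖X‖ - ‖Y‖)]
  linarith

/-- Finite sets of primes with a large sum of reciprocals. -/
theorem exists_primes (B : ℝ) : ∃ S : Finset ℕ, (∀ p ∈ S, p.Prime) ∧ B ≤ ∑ p ∈ S, (1 / (p : ℝ)) := by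
  have h1 : ¬ Summable (Set.indicator {p | Nat.Prime p} (fun n : ℕ => (1 : ℝ) / n)) :=
    not_summable_one_div_on_primes
  have h2 := (not_summable_iff_tendsto_nat_atTop_of_nonneg (f :=
    Set.indicator {p | Nat.Prime p} (fun n : ℕ => (1 : ℝ) / n))
    (fun n => Set.indicator_nonneg (fun _ _ => by positivity) n)).1 h1
  obtain ⟨n, hn⟩ := (h2.eventually_ge_atTop B).exists
  refine ⟨(range n).filter Nat.Prime, fun p hp => (mem_filter.1 hp).2, ?_⟩
  refine hn.trans (le_of_eq ?_)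
  rw [Finset.sum_filter]
  apply Finset.sum_congr rfl
  intro p _
  simp only [Set.indicator_apply, Set.mem_ofPred_eq]

theorem irr_ne (β : ℝ) (hβ : Irrational β) (p q : ℕ) (hpq : p ≠ q) :
    0 < ‖ex β p * conj (ex β q) - 1‖ := by
  rw [norm_pos_iff, sub_ne_zero]
  intro h
  unfold ex at h
  rw [← Complex.exp_conj, ← Complex.exp_add, Complex.exp_eq_one_iff] at h
  obtain ⟨n, hn⟩ := h
  simp only [map_mul, Complex.conj_I, Complex.conj_ofReal, map_natCast, map_ofNat] at hn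
  have h1 : 2 * (Real.pi : ℂ) * Complex.I * ((β : ℂ) * ((p : ℂ) - q)) =
      2 * (Real.pi : ℂ) * Complex.I * n := by
    linear_combination hn
  have h2 := mul_left_cancel₀ Complex.two_pi_I_ne_zero h1
  have h3 : β * ((p : ℝ) - q) = n := by exact_mod_cast h2
  have h4 : Irrational (β * (((p : ℤ) - q : ℤ) : ℝ)) := by
    apply hβ.mul_intCast
    intro h5
    apply hpq
    have : (p : ℤ) = q := by linarith
    exact_mod_cast this
  apply h4
  refine ⟨n, ?_⟩
  push_cast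
  exact h3.symm

theorem exists_delta (β : ℝ) (hβ : Irrational β) (S : Finset ℕ) :
    ∃ δ : ℝ, 0 < δ ∧ ∀ p ∈ S, ∀ q ∈ S, p ≠ q → δ ≤ ‖ex β p * conj (ex β q) - 1‖ := by
  by_cases h : S.offDiag.Nonempty
  · obtain ⟨t, ht, hmin⟩ := Finset.exists_min_image S.offDiag
      (fun t => ‖ex β t.1 * conj (ex β t.2) - 1‖) h
    refine ⟨_, irr_ne β hβ t.1 t.2 (Finset.mem_offDiag.1 ht).2.2, ?_⟩
    intro p hp q hq hpq
    exact hmin (p, q) (Finset.mem_offDiag.2 ⟨hp, hq, hpq⟩)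
  · refine ⟨1, one_pos, ?_⟩
    intro p hp q hq hpq
    exact absurd ⟨(p, q), Finset.mem_offDiag.2 ⟨hp, hq, hpq⟩⟩ h

theorem kat_main : StatementKAT := by
  intro β η hβ hη
  obtain ⟨S, hS, hLB⟩ := exists_primes (max 1 (200 / η ^ 2))
  set L : ℝ := ∑ p ∈ S, (1 / (p : ℝ)) with hL
  have hL1 : 1 ≤ L := (le_max_left _ _).trans hLB
  have hL2 : 200 / η ^ 2 ≤ L := (le_max_right _ _).trans hLB
  obtain ⟨δ, hδ, hSδ⟩ := exists_delta β hβ S
  set K : ℕ := S.sup id with hK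
  have hSK : ∀ p ∈ S, p ≤ K := fun p hp => Finset.le_sup (f := id) hp
  set c : ℝ := (S.card : ℝ) with hc
  have hc0 : 0 ≤ c := by positivity
  obtain ⟨H₀, hH₀⟩ := exists_nat_gt (c ^ 2 * (4 * K) / δ)
  refine ⟨H₀ + 1, fun H hH => ?_⟩
  have hHpos : 0 < H := by omega
  have hHr : (0:ℝ) < H := by exact_mod_cast hHpos
  have hH1 : c ^ 2 * (4 * K) / δ ≤ H := by
    have : (H₀ : ℝ) ≤ H := by exact_mod_cast (by omega : H₀ ≤ H)
    linarith
  obtain ⟨N₀, hN₀⟩ := exists_nat_gt (max (max (2 * c ^ 2) c) (max (c ^ 2 * 2 / δ)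
    ((4 * H + 2) / η)))
  refine ⟨N₀ + 1, fun N hN => ?_⟩
  have hNr : (N₀ : ℝ) ≤ N := by exact_mod_cast (by omega : N₀ ≤ N)
  have hN1 : 2 * c ^ 2 ≤ N :=
    ((le_max_left _ _).trans (le_max_left _ _)).trans (hN₀.le.trans hNr)
  have hN2 : c ≤ N := ((le_max_right _ _).trans (le_max_left _ _)).trans (hN₀.le.trans hNr)
  have hN3 : c ^ 2 * 2 / δ ≤ N :=
    ((le_max_left _ _).trans (le_max_right _ _)).trans (hN₀.le.trans hNr)
  have hN4 : (4 * H + 2) / η ≤ N :=
    ((le_max_right _ _).trans (le_max_right _ _)).trans (hN₀.le.trans hNr)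
  have hN0 : (0:ℝ) ≤ N := by positivity
  -- the bound for the twisted sum
  have h1 := mainT H β S N K δ hδ hS hSK hSδ
  rw [← hL, ← hc] at h1
  set T : ℝ := ‖∑ m ∈ range N, (lz m : ℂ) * conj (Uz H β m)‖ with hT
  have hT0 : 0 ≤ T := norm_nonneg _
  have hH4 : (0:ℝ) < H ^ 4 := by positivity
  have h2 : c ^ 2 * ((N * (4 * K * H ^ 3) + 2 * H ^ 4) / δ) ≤ 2 * (N * H ^ 4) := by
    have e : c ^ 2 * ((N * (4 * K * H ^ 3) + 2 * H ^ 4) / δ) =
        (c ^ 2 * (4 * K) / δ) * (N * H ^ 3) + (c ^ 2 * 2 / δ) * H ^ 4 := by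
      field_simp
    rw [e]
    have a1 : (c ^ 2 * (4 * K) / δ) * (N * (H:ℝ) ^ 3) ≤ H * (N * H ^ 3) :=
      mul_le_mul_of_nonneg_right hH1 (by positivity)
    have a2 : (c ^ 2 * 2 / δ) * (H:ℝ) ^ 4 ≤ N * H ^ 4 :=
      mul_le_mul_of_nonneg_right hN3 (by positivity)
    have a3 : (H : ℝ) * (N * H ^ 3) = N * H ^ 4 := by ring
    linarith
  have h3 : L ^ 2 * T ^ 2 ≤ 12 * (N ^ 2 * H ^ 4 * L) := by
    refine h1.trans ?_
    have a1 : (N : ℝ) * H ^ 4 * (N * L + 2 * c ^ 2) ≤ N * H ^ 4 * (2 * (N * L)) := by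
      apply mul_le_mul_of_nonneg_left _ (by positivity)
      nlinarith
    have a2 : (N : ℝ) * (H ^ 4 * (N * L + c) + c ^ 2 * ((N * (4 * K * H ^ 3) + 2 * H ^ 4) / δ)) ≤
        N * (H ^ 4 * (4 * (N * L))) := by
      apply mul_le_mul_of_nonneg_left _ hN0
      have a3 : (H : ℝ) ^ 4 * (N * L + c) ≤ H ^ 4 * (2 * (N * L)) := by
        apply mul_le_mul_of_nonneg_left _ hH4.le
        nlinarith
      have a4 : 2 * (N * (H:ℝ) ^ 4) ≤ H ^ 4 * (2 * (N * L)) := by
        have : 0 ≤ 2 * (N * (H:ℝ) ^ 4) := by positivity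
        nlinarith
      linarith
    have e : 12 * ((N : ℝ) ^ 2 * H ^ 4 * L) = 2 * (N * H ^ 4 * (2 * (N * L))) +
        2 * (N * (H ^ 4 * (4 * (N * L)))) := by ring
    rw [e]
    linarith
  have h4 : T ≤ η / 4 * (H ^ 2 * N) := by
    have hL0 : 0 < L := by linarith
    have a1 : L * T ^ 2 ≤ 12 * (N ^ 2 * H ^ 4) := by
      have : L * (L * T ^ 2) ≤ L * (12 * (N ^ 2 * H ^ 4)) := by
        calc L * (L * T ^ 2) = L ^ 2 * T ^ 2 := by ring
          _ ≤ _ := h3
          _ = _ := by ring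
      exact le_of_mul_le_mul_left this hL0
    have a2 : (200 / η ^ 2) * T ^ 2 ≤ 12 * (N ^ 2 * H ^ 4) :=
      (mul_le_mul_of_nonneg_right hL2 (sq_nonneg T)).trans a1
    have a3 : T ^ 2 ≤ (η / 4 * (H ^ 2 * N)) ^ 2 := by
      have a4 : 200 * T ^ 2 ≤ 12 * (N ^ 2 * H ^ 4) * η ^ 2 := by
        have a5 := mul_le_mul_of_nonneg_right a2 (sq_nonneg η)
        have e : 200 / η ^ 2 * T ^ 2 * η ^ 2 = 200 * T ^ 2 := by field_simp
        rw [e] at a5
        exact a5
      have e2 : (η / 4 * ((H:ℝ) ^ 2 * N)) ^ 2 = (N ^ 2 * H ^ 4) * η ^ 2 / 16 := by ring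
      rw [e2]
      have : 0 ≤ ((N:ℝ) ^ 2 * H ^ 4) * η ^ 2 := by positivity
      linarith
    exact (pow_le_pow_iff_left₀ hT0 (by positivity) two_ne_zero).1 a3
  -- the moment identity
  have h5 := moment H β N
  have h6 : ∑ n ∈ range N, ‖Wz H β n‖ ^ 2 ≤ T + 2 * H ^ 3 := by
    have a1 : ∑ n ∈ range N, ‖Wz H β n‖ ^ 2 =
        ‖((∑ n ∈ range N, ‖Wz H β n‖ ^ 2 : ℝ) : ℂ)‖ := by
      rw [Complex.norm_real, Real.norm_eq_abs, abs_of_nonneg]
      exact Finset.sum_nonneg fun n _ => by positivity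
    rw [a1]
    have a2 := norm_le_norm_add_norm_sub' ((∑ n ∈ range N, ‖Wz H β n‖ ^ 2 : ℝ) : ℂ)
      (∑ m ∈ range N, (lz m : ℂ) * conj (Uz H β m))
    rw [hT]
    linarith
  -- comparison with `win`
  have h7 : ∑ n ∈ range N, ‖win H β n‖ ^ 2 ≤ ∑ n ∈ range N, ‖Wz H β n‖ ^ 2 + H ^ 2 := by
    have a1 : ∀ n ∈ range N, ‖win H β n‖ ^ 2 ≤ ‖Wz H β n‖ ^ 2 + (if n = 0 then (H:ℝ) ^ 2 else 0) := by
      intro n _
      by_cases hn : n = 0
      · rw [if_pos hn]
        have : ‖win H β n‖ ≤ H := by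
          unfold win
          refine (norm_sum_le _ _).trans ?_
          calc _ ≤ ∑ y ∈ range H, (1 : ℝ) := by
                apply Finset.sum_le_sum
                intro y _
                rw [norm_mul, norm_ex, mul_one, Complex.norm_real]
                exact Pool.Agent.H67.LF.abs_lam_le _
            _ = H := by simp
        have h8 : ‖win H β n‖ ^ 2 ≤ (H:ℝ) ^ 2 := pow_le_pow_left₀ (norm_nonneg _) this 2
        have h9 : 0 ≤ ‖Wz H β n‖ ^ 2 := by positivity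
        linarith
      · rw [if_neg hn, add_zero]
        apply le_of_eq
        congr 2
        unfold win Wz
        apply Finset.sum_congr rfl
        intro y _
        have : ((n : ℤ) + y) = ((n + y : ℕ) : ℤ) := by push_cast; rfl
        rw [this, lz_natCast (by omega)]
    refine (Finset.sum_le_sum a1).trans ?_
    rw [Finset.sum_add_distrib]
    gcongr
    rw [Finset.sum_ite_eq']
    split_ifs
    · exact le_rfl
    · positivity
  have h8 : ∑ n ∈ range N, ‖win H β n‖ ^ 2 ≤ η * H ^ 2 * N := by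
    have a1 : (4 * H + 2) ≤ η * N := by
      rw [div_le_iff₀ hη] at hN4
      linarith
    have a2 : 2 * (H:ℝ) ^ 3 + H ^ 2 ≤ η / 2 * (H ^ 2 * N) := by
      have a3 : (H:ℝ) ^ 2 * (4 * H + 2) ≤ H ^ 2 * (η * N) :=
        mul_le_mul_of_nonneg_left a1 (by positivity)
      nlinarith
    have a4 : 0 ≤ η * ((H:ℝ) ^ 2 * N) := by positivity
    calc _ ≤ T + 2 * H ^ 3 + H ^ 2 := by linarith
      _ ≤ η / 4 * (H ^ 2 * N) + η / 2 * (H ^ 2 * N) := by linarith
      _ ≤ η * H ^ 2 * N := by linarith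
  exact h8

end Pool.Agent.H28.LF.K
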