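import Pool.Agent.H28.LF.Defs
import Pool.Agent.H85.GU.Star6

/-!
Project LF: targets for the sections 2, 3, 4 of `H28_LF.md`.
-/

set_option autoImplicit false

open MeasureTheory ProbabilityTheory Filter Topology Finset
open scoped Nat ENNReal

namespace Pool.Agent.H28.LF

open Pool.Agent.H24.T2 (Pset)
open Pool.Agent.H67.AG (avgP ul Inv Rt Av SA kap JJ TT InvZ nxt triv tow XN PN TN XX PX TX prX Fac)
open Pool.Agent.H40.AG (QQ dg)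

/-! ### Section 2: correlations along the primes -/

/-- SPM: spectral measures (from `T_HER` with `b = 1` and `T_ME`). -/
def T_SPM : Prop := ∀ (Ω : Type) [MeasurableSpace Ω] (P : Measure Ω) [IsProbabilityMeasure P]
  (T : Ω ≃ᵐ Ω) (f : Ω → ℝ), MeasurePreserving T P P → Measurable f → (∀ ω, |f ω| ≤ 1) →
  ∃ ν : Measure (Set.Ico (0 : ℝ) 1), IsFiniteMeasure ν ∧
    (∀ n : ℕ, ∫ ω, f ω * f (T^[n] ω) ∂P = ∫ x, Real.cos (2 * Real.pi * ((x : ℝ) * n)) ∂ν) ∧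
    ∀ N : ℕ, 0 < N → ν.real {x | ∃ k : ℕ, (N : ℝ) * (x : ℝ) = k} =
      ∫ ω, ((P[f | Inv T N]) ω) ^ 2 ∂P

/-- EXI: exponential sums over primes, irrational frequency (from `T_VPR` of the project of
Absolute Gap and the counting of the primes). -/
def T_EXI : Prop := ∀ x : ℝ, Irrational x →
  Tendsto (fun m => avgP 2 m fun p => Real.cos (2 * Real.pi * (x * p))) atTop (𝓝 0)

/-- EXR: exponential sums over primes, rational frequency. -/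
def T_EXR : Prop := ∀ (r : ℕ) [NeZero r] (a : ℕ),
  Tendsto (fun m => avgP 2 m fun p => Real.cos (2 * Real.pi * ((a : ℝ) * p / r))) atTop
    (𝓝 ((∑ b : (ZMod r)ˣ, Real.cos (2 * Real.pi * ((a : ℝ) * (b : ZMod r).val / r))) /
      (Fintype.card (ZMod r)ˣ : ℝ)))

/-- RSU: the mean of the powers of a root of unity over the units. -/
def T_RSU : Prop := ∀ (r : ℕ) [NeZero r] (a : ℕ), Nat.Coprime a r →
  |(∑ b : (ZMod r)ˣ, Real.cos (2 * Real.pi * ((a : ℝ) * (b : ZMod r).val / r))) /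
      (Fintype.card (ZMod r)ˣ : ℝ)| ≤ 1 / (Nat.totient r : ℝ)

/-- CDB: basic facts on the correlations along the primes. -/
def T_CDB : Prop := ∀ (Ω : Type) [MeasurableSpace Ω] (P : Measure Ω) [IsProbabilityMeasure P]
  (T : Ω ≃ᵐ Ω) (U : Ultrafilter ℕ) (A : Set Ω) (d : ℕ), MeasurePreserving T P P →
  (U : Filter ℕ) ≤ atTop → MeasurableSet[Inv T 1] A →
  (∀ f : Ω → ℝ, Measurable f → (∀ ω, 0 ≤ f ω ∧ f ω ≤ 1) →
    0 ≤ Cd U P T f A d ∧ Cd U P T f A d ≤ 1) ∧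
  ∀ f f' : Ω → ℝ, Measurable f → Measurable f' → (∀ ω, 0 ≤ f ω ∧ f ω ≤ 1) →
    (∀ ω, 0 ≤ f' ω ∧ f' ω ≤ 1) → (∀ᵐ ω ∂P, f ω ≤ f' ω) → Cd U P T f A d ≤ Cd U P T f' A d

/-- STX: the inequality of `Pool.Agent.H85.GU.star` for measure preserving systems. -/
def T_STX : Prop := ∀ (Ω : Type) [MeasurableSpace Ω] (P : Measure Ω) [IsProbabilityMeasure P]
  (T : Ω ≃ᵐ Ω) (U : Ultrafilter ℕ) (f : Ω → ℝ) (D A : ℕ), MeasurePreserving T P P →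
  (U : Filter ℕ) ≤ atTop → Measurable f → (∀ ω, 0 ≤ f ω ∧ f ω ≤ 1) → 0 < D → 0 < A →
  (1 / Real.sqrt D - 1 / Real.sqrt ((D : ℝ) + A)) *
    (2 * ∑ d ∈ Icc 1 D, Cd U P T f Set.univ d) ≤
    4 * Real.sqrt A * ∫ ω, ((P[f | Inv T 1]) ω) ^ 2 ∂P + 1 / Real.sqrt A * ∫ ω, f ω ∂P

/-- STC: the form of STX which is used (`A = D ⌈(32/γ)²⌉`). -/
def T_STC : Prop := ∀ (Ω : Type) [MeasurableSpace Ω] (P : Measure Ω) [IsProbabilityMeasure P]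
  (T : Ω ≃ᵐ Ω) (U : Ultrafilter ℕ) (f : Ω → ℝ) (D : ℕ) (γ u : ℝ), MeasurePreserving T P P →
  (U : Filter ℕ) ≤ atTop → Measurable f → (∀ ω, 0 ≤ f ω ∧ f ω ≤ 1) → 0 < γ → γ ≤ 1 → 0 ≤ u →
  (D : ℝ) * u ≤ γ ^ 2 / 16384 → (∀ᵐ ω ∂P, (P[f | Inv T 1]) ω ≤ 2 * u) →
  2 * ∑ d ∈ Icc 1 D, Cd U P T f Set.univ d ≤ γ / 8 * ∫ ω, f ω ∂P

/-- PIA: pair correlations of a function which is nearly invariant. -/
def T_PIA : Prop := ∀ ε : ℝ, 0 < ε → ∃ w₀ : ℕ, ∀ w, w₀ ≤ w →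
  ∀ (Ω : Type) [MeasurableSpace Ω] (P : Measure Ω) [IsProbabilityMeasure P] (T : Ω ≃ᵐ Ω)
    (U : Ultrafilter ℕ) (f : Ω → ℝ) (A : Set Ω) (d : ℕ), MeasurePreserving T P P →
    (U : Filter ℕ) ≤ atTop → Measurable f → (∀ ω, 0 ≤ f ω ∧ f ω ≤ 1) →
    MeasurableSet[Inv T 1] A → 0 < d →
    Cd U P T f A d ≤ ∫ ω in A, ((P[f | Inv T 1]) ω) ^ 2 ∂P +
      2 * ∫ ω in A, |(P[f | Inv T (w ! * d)]) ω - (P[f | Inv T 1]) ω| ∂P + ε * P.real A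

/-- LAB: basic facts on the frequency of the bad words. -/
def T_LAB : Prop := ∀ (Ω : Type) [MeasurableSpace Ω] (P : Measure Ω) [IsProbabilityMeasure P]
  (T : Ω ≃ᵐ Ω) (U : Ultrafilter ℕ) (s : ℕ → ℝ) (q R : ℕ) (Bad : ℕ → Set (Fin R → Fin q))
  (a a' : Ω → Fin q) (A : Set Ω), MeasurePreserving T P P → (U : Filter ℕ) ≤ atTop →
  (∀ p, s p = 0 ∨ s p = 1) → Measurable a → Measurable a' → MeasurableSet[Inv T 1] A →
  0 ≤ La U s P T a Bad A ∧ La U s P T a Bad A ≤ ds U s ∧ ds U s ≤ 1 ∧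
  (∀ B, MeasurableSet[Inv T 1] B → Disjoint A B →
    La U s P T a Bad (A ∪ B) = La U s P T a Bad A + La U s P T a Bad B) ∧
  La U s P T a Bad A ≤ La U s P T a' Bad A + R * P.real (A ∩ {ω | a ω ≠ a' ω})

/-- LAF: the frequency of the bad words and factor maps. -/
def T_LAF : Prop := ∀ (Ω Ω' : Type) [MeasurableSpace Ω] [MeasurableSpace Ω'] (P : Measure Ω)
  [IsProbabilityMeasure P] (P' : Measure Ω') [IsProbabilityMeasure P'] (T : Ω ≃ᵐ Ω)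
  (T' : Ω' ≃ᵐ Ω') (g : Ω → Ω') (U : Ultrafilter ℕ) (s : ℕ → ℝ) (q R : ℕ)
  (Bad : ℕ → Set (Fin R → Fin q)) (a : Ω' → Fin q), Fac P T P' T' g → Measurable a →
  La U s P T (fun ω => a (g ω)) Bad Set.univ = La U s P' T' a Bad Set.univ

/-! ### Section 3: pairs -/

open Classical in
/-- PW3: the pointwise inequality for two words. -/
def T_PW3 : Prop := ∀ (q K L : ℕ) (v v' : Fin (L + K) → Fin q) (B : Set (Fin (L + K) → Fin q)),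
  Code K L B →
  ((univ.filter fun i : Fin (L + K) => K ≤ (i : ℕ) ∧ (i : ℕ) < L ∧ v i ≠ v' i).card : ℝ) -
    ((univ.filter fun i : Fin (L + K) => K ≤ (i : ℕ) ∧ (i : ℕ) < L ∧ v i ≠ v' i).card : ℝ) *
    (((univ.filter fun i : Fin (L + K) => K ≤ (i : ℕ) ∧ (i : ℕ) < L ∧ v i ≠ v' i).card : ℝ) - 1) -
    ((univ.filter fun i : Fin (L + K) => ¬ (K ≤ (i : ℕ) ∧ (i : ℕ) < L) ∧ v i ≠ v' i).card : ℝ) ≤
  (if v ∈ B then 1 else 0) + (if v' ∈ B then 1 else 0)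

/-- PIR: the inequality for a pair of processes. -/
def T_PIR : Prop := ∀ (Ω : Type) [MeasurableSpace Ω] (P : Measure Ω) [IsProbabilityMeasure P]
  (T : Ω ≃ᵐ Ω) (U : Ultrafilter ℕ) (s : ℕ → ℝ) (q K L : ℕ)
  (Bad : ℕ → Set (Fin (L + K) → Fin q)) (a a' : Ω → Fin q) (A : Set Ω),
  MeasurePreserving T P P → (U : Filter ℕ) ≤ atTop → (∀ p, s p = 0 ∨ s p = 1) →
  (∀ p, Code K L (Bad p)) → K ≤ L → Measurable a → Measurable a' →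
  MeasurableSet[Inv T 1] A →
  ds U s * ((L : ℝ) - 3 * K) * ∫ ω in A, dm a a' ω ∂P ≤
    La U s P T a Bad A + La U s P T a' Bad A +
      2 * ((L : ℝ) - K) * ∑ d ∈ Icc 1 L, Cd U P T (dm a a') A d

/-- CND: conditioning on an invariant set. -/
def T_CND : Prop := ∀ (Ω X : Type) [MeasurableSpace Ω] [MeasurableSpace X] (P : Measure Ω)
  [IsProbabilityMeasure P] (T : Ω ≃ᵐ Ω) (A : Set Ω), MeasurePreserving T P P →
  MeasurableSet[Inv T 1] A → 0 < P.real A →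
  IsProbabilityMeasure (P[|A]) ∧ MeasurePreserving T (P[|A]) (P[|A]) ∧
  (∀ f : Ω → ℝ, Measurable f → (∃ C, ∀ ω, |f ω| ≤ C) →
    (P[|A])[f | Inv T 1] =ᵐ[P[|A]] P[f | Inv T 1]) ∧
  ∀ (μ : Measure X) [IsProbabilityMeasure μ] (T' : X ≃ᵐ X) (g : Ω → X), Ergodic T' μ →
    Fac P T μ T' g → Fac (P[|A]) T μ T' g

/-- EQB: basic facts on `Eqv`. -/
def T_EQB : Prop := ∀ c : Ux, MeasurableSet c.Eqv ∧ (TT c.T) ⁻¹' c.Eqv = c.Eqv ∧
  (∀ x y z, (x, x) ∈ c.Eqv ∧ ((x, y) ∈ c.Eqv → (y, x) ∈ c.Eqv) ∧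
    ((x, y) ∈ c.Eqv → (y, z) ∈ c.Eqv → (x, z) ∈ c.Eqv)) ∧
  ∀ (Q : Measure (c.X × c.X)) [IsProbabilityMeasure Q], MeasurePreserving (TT c.T) Q Q →
    (∀ᵐ p ∂Q, (∀ n : ℕ, c.a (c.T^[n] p.1) = c.a (c.T^[n] p.2)) → p ∈ c.Eqv) ∧
    ∀ᵐ p ∂Q, ((Q[dm (fun p => c.a p.1) (fun p => c.a p.2) | Inv (TT c.T) 1]) p = 0 ↔ p ∈ c.Eqv)

/-- ND1: the frequency of the mismatches of two points is not in `[u, 2u)` for small `u`. -/
def T_ND1 : Prop := ∀ (c : Ux) (K : ℕ) (u : ℝ) (Q : Measure (c.X × c.X))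
  [IsProbabilityMeasure Q], 0 < K →
  (∀ L, K ≤ L → La c.U c.s c.μ c.T c.a (c.Bad K L) Set.univ ≤ c.γ * c.κ / 16) → 0 < u →
  u ≤ c.κ / (20 * K) → Fac Q (TT c.T) c.μ c.T Prod.fst → Fac Q (TT c.T) c.μ c.T Prod.snd →
  MeasurePreserving (TT c.T) Q Q →
  ¬ ∀ᵐ p ∂Q, u ≤ (Q[dm (fun p => c.a p.1) (fun p => c.a p.2) | Inv (TT c.T) 1]) p ∧
    (Q[dm (fun p => c.a p.1) (fun p => c.a p.2) | Inv (TT c.T) 1]) p < 2 * u

/-- ND: separation. -/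
def T_ND : Prop := ∀ (c : Ux) (K : ℕ), 0 < K →
  (∀ L, K ≤ L → La c.U c.s c.μ c.T c.a (c.Bad K L) Set.univ ≤ c.γ * c.κ / 16) →
  c.Sep (c.κ / (10 * K))

/-! ### Section 4: the top of the tower -/

open Classical in
/-- P3W: the bad words for the conditional probabilities over the tower (from
`Pool.Agent.H24.UG.T_UP3` with `W = 2`). -/
def T_P3W : Prop := ∀ (c : Ux) (K L J : ℕ), 0 < K → L + K ≤ J + 1 →
  La c.U c.s c.μ c.T c.a (c.Bad K L) Set.univ =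
    ul c.U fun m => avgP 2 m fun p => c.s p * ∑ v : Fin (L + K) → Fin c.q,
      if v ∈ c.Bad K L p then
        ∫ x, ∏ i, c.wt (tow c.μ c.T J) (v i) (c.T^[p * ((i : ℕ) + 1)] x) ∂c.μ else 0

/-- CPL: a coupling of a product measure with itself (finite sums). -/
def T_CPL : Prop := ∀ (q K L : ℕ) (w : Fin (L + K) → Fin q → ℝ) (th : ℝ)
  (B : Set (Fin (L + K) → Fin q)) [DecidablePred (· ∈ B)], Code K L B → K ≤ L → 0 ≤ th → th ≤ 1 →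
  (∀ i b, 0 ≤ w i b) → (∀ i, ∑ b, w i b = 1) →
  ∑ i : Fin (L + K), (if K ≤ (i : ℕ) ∧ (i : ℕ) < L then (1 : ℝ) else -1) *
      (th * (1 - ∑ b, w i b ^ 2)) -
    ∑ i : Fin (L + K), ∑ j : Fin (L + K), (if (K ≤ (i : ℕ) ∧ (i : ℕ) < L) ∧
      (K ≤ (j : ℕ) ∧ (j : ℕ) < L) ∧ i ≠ j then
        (th * (1 - ∑ b, w i b ^ 2)) * (th * (1 - ∑ b, w j b ^ 2)) else 0) ≤
  2 * ∑ v : Fin (L + K) → Fin q, if v ∈ B then ∏ i, w i (v i) else 0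

/-- RSM: the inequality for partially resampled words. -/
def T_RSM : Prop := ∀ (c : Ux) (K L J : ℕ) (th : ℝ), 0 < K → K ≤ L → L + K ≤ J + 1 → 0 ≤ th →
  th ≤ 1 →
  ds c.U c.s * ((L : ℝ) - 3 * K) * ∫ x, th * c.vv (tow c.μ c.T J) x ∂c.μ ≤
    2 * La c.U c.s c.μ c.T c.a (c.Bad K L) Set.univ +
      2 * ((L : ℝ) - K) * ∑ d ∈ Icc 1 L,
        Cd c.U c.μ c.T (fun x => th * c.vv (tow c.μ c.T J) x) Set.univ d

/-- JV: the conditional probability of a mismatch and the self-joining. -/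
def T_JV : Prop := ∀ (c : Ux) (Z : SA c.X),
  ∫ x, c.vv Z x ∂c.μ = (JJ c.μ Z).real {p | c.a p.1 ≠ c.a p.2}

/-- TOP: the top of the tower. -/
def T_TOP : Prop := ∀ c : Ux, ∃ J : ℕ, c.CP (tow c.μ c.T J)

end Pool.Agent.H28.LF
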